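import Pool.Agent.EGT.P_KNW

set_option autoImplicit false
open MvPolynomial hiding R

/-!
# Project EGT: the theorem, from the targets
-/

namespace Pool.Agent.EGT

open Pool.Agent.EGU Pool.Agent.EGS

universe u

/-- The last `n0` entries of `a`. -/
def tl {n : ℕ} (a : Fin n → ℕ) (n0 : ℕ) (h : n0 ≤ n) : Fin n0 → ℕ :=
  fun i => a ⟨n - n0 + i, by omega⟩

/-- From the last `n0` degrees to all degrees. -/
theorem ea_tl (h_PSG : T_PSG.{u}) (K : Type u) [Field K] [IsAlgClosed K] (n0 N : ℕ)
    (hN : N ≤ 2 * n0) : ∀ (n : ℕ) (h : n0 ≤ n) (a : Fin n → ℕ), Monotone a → (∀ i, 2 ≤ a i) →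
    (∀ d, EA K (tl a n0 h) d N) → ∀ d, EA K a d N := by
  intro n
  induction n with
  | zero =>
    intro h a _ _ hE d
    have h0 : n0 = 0 := by omega
    subst h0
    have h1 : tl a 0 h = a := by
      funext i
      exact i.elim0
    rw [h1] at hE
    exact hE d
  | succ n ih =>
    intro h a hm h2 hE d
    rcases Nat.lt_or_ge n n0 with hlt | hge
    · have h0 : n0 = n + 1 := by omega
      subst h0
      have h1 : tl a (n + 1) h = a := by
        funext i
        unfold tl
        congr 1
        apply Fin.ext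
        show n + 1 - (n + 1) + (i : ℕ) = i
        omega
      rw [h1] at hE
      exact hE d
    · refine h_PSG K n N a hm h2 (by omega) ?_ d
      refine ih hge (a ∘ Fin.succ) (fun i j hij => hm (by simpa using hij)) (fun i => h2 _) ?_
      have h1 : tl (a ∘ Fin.succ) n0 hge = tl a n0 h := by
        funext i
        unfold tl
        show a (Fin.succ _) = a _
        congr 1
        apply Fin.ext
        show n - n0 + (i : ℕ) + 1 = n + 1 - n0 + i
        omega
      rw [h1]
      exact hE

/-- The main theorem. -/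
theorem final (h_KNW : T_KNW.{u}) (h_PSG : T_PSG.{u}) (h_BCG : T_BCG.{u}) (h_IDG : T_IDG.{u})
    (h_IDH : T_IDH.{u}) (K : Type u) [Field K] (n : ℕ) (I : Ideal (MvPolynomial (Fin n) K))
    (a : Fin n → ℕ) (f : Fin n → MvPolynomial (Fin n) K) (hm : Monotone a) (h2 : ∀ i, 2 ≤ a i)
    (hhom : ∀ i, (f i).IsHomogeneous (a i)) (hfI : ∀ i, f i ∈ I)
    (hreg : RingTheory.Sequence.IsRegular (MvPolynomial (Fin n) K) (List.ofFn f))
    (hc : ∃ (n0 : ℕ) (h : n0 ≤ n), Known (tl a n0 h) ∧ (n0 = n ∨
      Module.finrank K (MvPolynomial.homogeneousSubmodule (Fin n) K 2) ≤ hI I 2 + 2 * n0 ∨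
      hI I (S a n - 2) ≤ hI (Ideal.span (Set.range f)) (S a n - 2) + 2 * n0)) :
    EGHs a I Set.univ := by
  have hf : CI f a := t_reg K n f a (fun i => le_trans (by norm_num) (h2 i)) hhom hreg
  refine egh_int t_dimr t_sega a_lexn a_hf (t_hf1 t_cir t_jd t_dimr) t_xci K n f a hf I hfI
    Set.univ Set.ordConnected_univ (fun d _ _ => ?_)
  obtain ⟨n0, h, hk, hc⟩ := hc
  have hmt : Monotone (tl a n0 h) := by
    intro i j hij
    refine hm ?_
    rw [Fin.le_def] at hij ⊢
    show n - n0 + (i : ℕ) ≤ n - n0 + (j : ℕ)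
    omega
  have hE : EG (AlgebraicClosure K) (tl a n0 h) :=
    h_KNW (AlgebraicClosure K) n0 _ hmt (fun i => h2 _) hk
  by_cases hn : n0 = n
  · subst hn
    have h1 : tl a n0 h = a := by
      funext i
      unfold tl
      congr 1
      apply Fin.ext
      show n0 - n0 + (i : ℕ) = i
      omega
    rw [h1] at hE
    refine h_IDG K n0 (Module.finrank K (Rd K n0 2)) a hm h2
      (fun e => h_BCG K (AlgebraicClosure K) n0 a e _ (hE e _)) f hf I hfI ?_ d
    exact Nat.le_add_left _ _
  · have hE' : ∀ e, EA K a e (2 * n0) := fun e =>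
      h_BCG K (AlgebraicClosure K) n a e _
        (ea_tl h_PSG (AlgebraicClosure K) n0 (2 * n0) le_rfl n h a hm h2 (fun e => hE e _) e)
    rcases hc with hc | hc | hc
    · exact absurd hc hn
    · exact h_IDG K n (2 * n0) a hm h2 hE' f hf I hfI hc d
    · rcases Nat.lt_or_ge (S a n) 2 with hs | hs
      · -- at most one variable
        have hs1 : n ≤ 1 := by
          by_contra hcon
          push Not at hcon
          have h5 := (t_num n a).2.1 0 (by omega)
          have h6 := (t_num n a).2.1 1 (by omega)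
          have h7 := (t_num n a).2.2.1 2 n (by omega)
          have h8 := h2 ⟨0, by omega⟩
          have h9 := h2 ⟨1, by omega⟩
          rw [(t_num n a).1] at h5
          have h10 : S a (1 + 1) = S a 2 := rfl
          have h11 : S a (0 + 1) = S a 1 := rfl
          omega
        have hkn : Known a := by
          refine ⟨n, le_rfl, Or.inl (by omega), fun j hj hnj => ?_⟩
          omega
        refine h_IDG K n (Module.finrank K (Rd K n 2)) a hm h2
          (fun e => h_BCG K (AlgebraicClosure K) n a e _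
            (h_KNW (AlgebraicClosure K) n a hm h2 hkn e _)) f hf I hfI ?_ d
        exact Nat.le_add_left _ _
      · exact h_IDH K n (2 * n0) a hm h2 hs hE' f hf I hfI hc d

end Pool.Agent.EGT
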