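import Pool.Agent.EGT.Targets
import Pool.Agent.EGS.P_SOK
import Pool.Agent.EGS.P_DUA
import Pool.Agent.EGS.P_MTW

set_option autoImplicit false
open MvPolynomial hiding R

/-!
# Project EGT, target ASG: sequences with socle degree at most six
-/

namespace Pool.Agent.EGT

open Pool.Agent.EGU Pool.Agent.EGS

universe u

namespace ASG_

theorem S_ge {m : ℕ} (a : Fin m → ℕ) (h2 : ∀ i, 2 ≤ a i) : ∀ j, j ≤ m → j ≤ S a j := by
  obtain ⟨-, n1, -⟩ := t_num m a
  intro j
  induction j with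
  | zero => intro _; exact Nat.zero_le _
  | succ j ih =>
    intro hj
    rw [n1 j hj]
    have h3 := h2 ⟨j, hj⟩
    have h4 := ih (by omega)
    omega

theorem Pt_le {m : ℕ} (a : Fin m → ℕ) (h2 : ∀ i, 2 ≤ a i) : Pt a 1 1 ≤ 1 := by
  unfold Pt
  rw [Finset.card_le_one]
  intro i hi j hj
  rw [Finset.mem_filter] at hi hj
  have h3 := S_ge a h2 ((i : ℕ) + 1) i.isLt
  have h4 := S_ge a h2 ((j : ℕ) + 1) j.isLt
  have h5 := hi.2.2
  have h6 := hj.2.2
  ext
  omega

theorem eq_tw {m : ℕ} (a : Fin m → ℕ) (h2 : ∀ i, 2 ≤ a i) (hs : S a m ≤ m) : a = tw m := by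
  have h3 : S a m = ∑ i, (a i - 1) := by
    unfold S
    rw [Finset.filter_true_of_mem fun i _ => i.isLt]
  have h4 : ∑ _i : Fin m, 1 = m := by simp
  have h5 : ∀ i ∈ (Finset.univ : Finset (Fin m)), 1 ≤ a i - 1 := by
    intro i _
    have := h2 i
    omega
  have h6 : ∑ _i : Fin m, 1 = ∑ i, (a i - 1) :=
    le_antisymm (Finset.sum_le_sum h5) (by rw [h4, ← h3]; exact hs)
  have h7 := (Finset.sum_eq_sum_iff_of_le h5).1 h6
  funext i
  have h8 := h7 i (Finset.mem_univ i)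
  have h9 := h2 i
  show a i = 2
  omega

section
variable {K : Type u} [Field K] {n : ℕ}

theorem wdim (a : Fin n → ℕ) (f : Fin n → R K n) (d : ℕ) (W : Submodule K (R K n))
    (h1 : Jd f d ≤ W) (h2 : W ≤ Rd K n d) (hf : CI f a) :
    ∃ v, Module.finrank K W = Module.finrank K (Jd f d) + v ∧ v ≤ (Std a d).card := by
  have h3 := fin_le t_dimr h2
  have h4 := Submodule.finrank_mono h1
  have h5 : Module.finrank K W ≤ Module.finrank K (Rd K n d) := by
    have := (t_dimr K n d).1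
    exact Submodule.finrank_mono h2
  have h6 := a_hf K n f a hf d
  exact ⟨Module.finrank K W - Module.finrank K (Jd f d), by omega, by omega⟩

theorem direct (h_VTW : T_VTW.{u}) (a : Fin (n + 1) → ℕ) (hm : Monotone a)
    (h2 : ∀ i, 2 ≤ a i) (hn : 3 ≤ n) (hstd : (Std a 2).card ≤ 2 * n + 3)
    (hP : ∀ d, EA K a d (2 * n)) (f : Fin (n + 1) → R K (n + 1)) (hf : CI f a) (d : ℕ)
    (hd : d ≤ 2) (W : Submodule K (R K (n + 1))) (h3 : Jd f d ≤ W)
    (h4 : W ≤ Rd K (n + 1) d) : GoodA a f d W := by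
  obtain ⟨v1, -, v3⟩ := h_VTW K (n + 1) f a hf hm h2 d W h3 h4
  obtain ⟨v, hv, hv'⟩ := wdim a f d W h3 h4 hf
  rcases Nat.lt_or_ge 2 v with h0 | h0
  swap
  · exact v1 (by omega)
  have hs := S_ge a h2 (n + 1) le_rfl
  have hp1 := t_std (n + 1) a hf.pos
  have hdua := p_DUA K (n + 1) f a hf hm
  have hmtw := p_MTW p_SOK K (n + 1) f a hf hm
  have e2 := a_hf K (n + 1) f a hf 2
  interval_cases d
  · have := hp1.2.1
    omega
  · -- degree one
    have h5 := a_grow K (n + 1) f a hf hm 1 v W h3 h4 hv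
    have h6 : n ≤ ∑ i ∈ Finset.range v, (n + 1 - (i + Pt a 1 (1 + i))) := by
      have h7 := Finset.single_le_sum (f := fun i => n + 1 - (i + Pt a 1 (1 + i)))
        (fun i _ => Nat.zero_le _) (Finset.mem_range.2 (by omega) : 0 ∈ Finset.range v)
      simp only [zero_add, add_zero] at h7
      have h8 := Pt_le a h2
      omega
    obtain ⟨k1, k2, k3, -⟩ := hdua 1 (S a (n + 1) - 2) (by omega) W h3 h4
    have h9 := (hmtw (S a (n + 1) - 2) _ k1 k2).1 (by omega)
    refine v3 (S a (n + 1) - 2) (by omega) (hP _ f hf _ k1 k2 ?_)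
    have e3 : Module.finrank K (Jd f (1 + 1)) = Module.finrank K (Jd f 2) := rfl
    have e4 : Module.finrank K (Rd K (n + 1) (1 + 1)) = Module.finrank K (Rd K (n + 1) 2) := rfl
    omega
  · -- degree two
    obtain ⟨k1, k2, -, k4⟩ := hdua 2 (S a (n + 1) - 3) (by omega) W h3 h4
    have h9 := (hmtw (S a (n + 1) - 3) _ k1 k2).2.1 (by omega)
    refine v3 (S a (n + 1) - 3) (by omega) (hP _ f hf _ k1 k2 ?_)
    omega

end

end ASG_

open ASG_ in
/-- Sequences with `∑ (a_i - 1) ≤ 6` in at least four variables. -/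
theorem p_ASG (h_PSG : T_PSG.{u}) (h_VTW : T_VTW.{u}) (h_HTW : T_HTW)
    (h_ASM : Pool.Agent.EGS.T_ASM.{u}) : T_ASG.{u} := by
  intro K _ _ n a hn hm h2 hs hEG d N f hf W h3 h4 h5
  have hge := S_ge a h2 (n + 1) le_rfl
  have hn' : n = 3 ∨ n = 4 ∨ n = 5 := by omega
  by_cases h6 : n = 5
  · subst h6
    have ha : a = tw 6 := eq_tw a h2 hs
    subst ha
    exact h_ASM K 6 d N le_rfl f hf W h3 h4 h5
  have hstd : (Std a 2).card ≤ 2 * n + 3 := by
    have h7 := h_HTW (n + 1) a h2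
    have h8 : (n + 1).choose 2 + 6 ≤ (n + 1) + (2 * n + 3) := by
      rcases hn' with h | h | h
      · subst h
        decide
      · subst h
        decide
      · exact absurd h h6
    omega
  have hP : ∀ d, EA K a d (2 * n) :=
    h_PSG K n (2 * n) a hm h2 le_rfl fun d => hEG d (2 * n)
  have hdir := direct h_VTW a hm h2 hn hstd hP f hf
  obtain ⟨-, v2, v3⟩ := h_VTW K (n + 1) f a hf hm h2 d W h3 h4
  rcases Nat.lt_or_ge d 3 with h7 | h7
  · exact hdir d (by omega) W h3 h4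
  rcases Nat.lt_or_ge d (S a (n + 1)) with h8 | h8
  swap
  · exact v2 h8
  obtain ⟨k1, k2, -, -⟩ := p_DUA K (n + 1) f a hf hm d (S a (n + 1) - 1 - d) (by omega) W h3 h4
  exact v3 (S a (n + 1) - 1 - d) (by omega) (hdir _ (by omega) _ k1 k2)

end Pool.Agent.EGT
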