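import Pool.Agent.EGT.Targets
import Pool.Agent.EGS.P_DUA

set_option autoImplicit false
open MvPolynomial hiding R

/-!
A large last degree: `T_BIG`.
-/

namespace Pool.Agent.EGT

open Pool.Agent.EGU Pool.Agent.EGS

universe u

namespace BIG_

/-- The last form does not matter in small degrees. -/
lemma jd_eq {K : Type u} [Field K] {n m : ℕ} (f : Fin (m + 1) → R K n) (a : Fin (m + 1) → ℕ)
    (hf : ∀ i, (f i).IsHomogeneous (a i)) (e : ℕ) (he : e < a (Fin.last m)) :
    Jd f e = Jd (f ∘ Fin.castSucc) e := by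
  apply le_antisymm
  · intro p hp
    obtain ⟨y, hy, rfl⟩ := ((t_jd K n (m + 1) f a hf).1 e p).1 hp
    rw [Fin.sum_univ_castSucc]
    have h0 : y (Fin.last m) = 0 := by
      have := hy (Fin.last m)
      rw [Rm, if_neg (by omega)] at this
      simpa using this
    rw [h0, zero_mul, add_zero]
    exact ((t_jd K n m (f ∘ Fin.castSucc) (a ∘ Fin.castSucc) (fun i => hf _)).1 e _).2
      ⟨fun i => y i.castSucc, fun i => hy _, rfl⟩
  · intro p hp
    refine ⟨hp.1, ?_⟩
    have h1 : p ∈ J (f ∘ Fin.castSucc) := hp.2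
    exact Ideal.span_mono (Set.range_comp_subset_range _ _) h1

/-- The growth in small degrees. -/
lemma small (h_CMG : T_CMG.{u}) (K : Type u) [Field K] [Infinite K] (n : ℕ)
    (a : Fin (n + 1) → ℕ) (hm : Monotone a) (h2 : ∀ i, 2 ≤ a i)
    (hE : EG K (a ∘ Fin.castSucc)) (f : Fin (n + 1) → R K (n + 1)) (hf : CI f a) (d : ℕ)
    (hd : d + 1 < a (Fin.last n)) (W : Submodule K (R K (n + 1))) (hW1 : Jd f d ≤ W)
    (hW2 : W ≤ Rd K (n + 1) d) : GoodA a f d W := by
  have hf' : CI (f ∘ Fin.castSucc) (a ∘ Fin.castSucc) :=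
    ((t_cir K (n + 1) n f a).2.1 hf).1
  have e1 : Jd f d = Jd (f ∘ Fin.castSucc) d := jd_eq f a hf.hom d (by omega)
  have e2 : Jd f (d + 1) = Jd (f ∘ Fin.castSucc) (d + 1) := jd_eq f a hf.hom (d + 1) (by omega)
  have e3 : up f d W = up (f ∘ Fin.castSucc) d W := by
    unfold up
    rw [e2]
  have key := h_CMG K n (a ∘ Fin.castSucc) (fun i j h => hm (Fin.castSucc_le_castSucc_iff.2 h))
    (fun i => h2 _) hE (f ∘ Fin.castSucc) hf' d (a (Fin.last n)) (by omega)
    (fun i => hm (Fin.le_last _)) W (by rw [← e1]; exact hW1) hW2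
  have e4 : (Fin.snoc (α := fun _ => ℕ) (a ∘ Fin.castSucc) (a (Fin.last n)) : Fin (n + 1) → ℕ)
      = a := Fin.snoc_init_self a
  rw [e4, ← e1, ← e2, ← e3] at key
  exact key

end BIG_

theorem p_BIG (h_CMG : T_CMG.{u}) (h_VTW : T_VTW.{u}) : T_BIG.{u} := by
  intro K _ _ n a hm h2 hS hE d N f hf W hW1 hW2 _
  have hS1 : S a (n + 1) = S a n + (a (Fin.last n) - 1) :=
    (t_num (n + 1) a).2.1 n (Nat.lt_succ_self n)
  have h2l := h2 (Fin.last n)
  have hv := h_VTW K (n + 1) f a hf hm h2 d W hW1 hW2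
  by_cases hd1 : d + 1 < a (Fin.last n)
  · exact BIG_.small h_CMG K n a hm h2 hE f hf d hd1 W hW1 hW2
  · by_cases hd2 : S a (n + 1) ≤ d
    · exact hv.2.1 hd2
    · have hdd : d + (S a (n + 1) - 1 - d) + 1 = S a (n + 1) := by omega
      have hD := p_DUA K (n + 1) f a hf hm d (S a (n + 1) - 1 - d) hdd W hW1 hW2
      refine hv.2.2 (S a (n + 1) - 1 - d) hdd ?_
      exact BIG_.small h_CMG K n a hm h2 hE f hf _ (by omega) _ hD.1 hD.2.1

end Pool.Agent.EGT
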