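import Pool.Agent.EGT.Targets

set_option autoImplicit false
open MvPolynomial hiding R

/-!
# EGT: the target CLB (Clements-Lindström for at most two variables)
-/

namespace Pool.Agent.EGT

open Pool.Agent.EGU Pool.Agent.EGS

namespace CLB_

/-- first coordinates of the standard monomials of degree `d` -/
def I (p q d : ℕ) : Finset ℕ := (Finset.range (d + 1)).filter (fun t => t < p ∧ d < q + t)

theorem mem_I {p q d t : ℕ} : t ∈ I p q d ↔ t ≤ d ∧ t < p ∧ d < q + t := by
  unfold I
  rw [Finset.mem_filter, Finset.mem_range]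
  omega

open Classical in
/-- first coordinates of the shadow -/
noncomputable def sh (p q d : ℕ) (A : Finset ℕ) : Finset ℕ :=
  (I p q (d + 1)).filter (fun t => t ∈ A ∨ ∃ s ∈ A, t = s + 1)

theorem mem_sh {p q d t : ℕ} {A : Finset ℕ} : t ∈ sh p q d A ↔
    (t ≤ d + 1 ∧ t < p ∧ d + 1 < q + t) ∧ (t ∈ A ∨ ∃ s ∈ A, t = s + 1) := by
  unfold sh
  rw [Finset.mem_filter, mem_I]

/-- the statement about sets of integers -/
theorem nat {p q d : ℕ} (hpq : p ≤ q) {A B : Finset ℕ} (hA : A ⊆ I p q d) (hB : B ⊆ I p q d)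
    (hs : ∀ t ∈ B, ∀ s ∈ I p q d, t < s → s ∈ B) (hc : B.card ≤ A.card) :
    (sh p q d B).card ≤ (sh p q d A).card := by
  classical
  rcases Nat.lt_or_ge (d + 1) p with h1 | h1
  · -- no upper bound
    rcases A.eq_empty_or_nonempty with h0 | h0
    · have hB0 : B = ∅ := by
        rw [h0, Finset.card_empty, Nat.le_zero, Finset.card_eq_zero] at hc
        exact hc
      rw [h0, hB0]
    · have e1 : sh p q d B ⊆ insert (d + 1) B := by
        intro t ht
        rw [mem_sh] at ht
        obtain ⟨⟨h2, h3, h4⟩, h5⟩ := ht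
        rw [Finset.mem_insert]
        rcases h5 with h5 | ⟨s, hs1, hs2⟩
        · exact Or.inr h5
        · rcases Nat.lt_or_ge d t with h6 | h6
          · left; omega
          · right
            refine hs s hs1 t (mem_I.2 ⟨h6, h3, by omega⟩) (by omega)
      have e2 : insert (A.min' h0) (A.image (· + 1)) ⊆ sh p q d A := by
        intro t ht
        rw [Finset.mem_insert, Finset.mem_image] at ht
        rw [mem_sh]
        rcases ht with ht | ⟨s, hs1, hs2⟩
        · have h2 : t ∈ A := by rw [ht]; exact A.min'_mem h0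
          have h3 := mem_I.1 (hA h2)
          exact ⟨⟨by omega, by omega, by omega⟩, Or.inl h2⟩
        · have h3 := mem_I.1 (hA hs1)
          have h4 : t = s + 1 := hs2.symm
          exact ⟨⟨by omega, by omega, by omega⟩, Or.inr ⟨s, hs1, h4⟩⟩
      have e3 : A.min' h0 ∉ A.image (· + 1) := by
        intro h
        obtain ⟨s, hs1, hs2⟩ := Finset.mem_image.1 h
        have h2 := A.min'_le s hs1
        have h3 : s + 1 = A.min' h0 := hs2
        omega
      have e4 := Finset.card_le_card e1
      have e5 := Finset.card_le_card e2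
      rw [Finset.card_insert_of_notMem e3,
        Finset.card_image_of_injective _ (add_left_injective 1)] at e5
      have e6 := Finset.card_insert_le (d + 1) B
      omega
  · have e1 : sh p q d B ⊆ B := by
      intro t ht
      rw [mem_sh] at ht
      obtain ⟨⟨h2, h3, h4⟩, h5⟩ := ht
      rcases h5 with h5 | ⟨s, hs1, hs2⟩
      · exact h5
      · exact hs s hs1 t (mem_I.2 ⟨by omega, h3, by omega⟩) (by omega)
    have e2 := Finset.card_le_card e1
    by_cases hd : ∀ t ∈ A, d + 1 < q + t
    · have e3 : A ⊆ sh p q d A := by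
        intro t ht
        have h3 := mem_I.1 (hA ht)
        exact mem_sh.2 ⟨⟨by omega, h3.2.1, hd t ht⟩, Or.inl ht⟩
      exact e2.trans (hc.trans (Finset.card_le_card e3))
    · push Not at hd
      obtain ⟨l, hl, hl1⟩ := hd
      have hl2 := mem_I.1 (hA hl)
      by_cases hI : I p q d ⊆ A
      · refine Finset.card_le_card ?_
        intro t ht
        rw [mem_sh] at ht ⊢
        refine ⟨ht.1, ?_⟩
        rcases ht.2 with h5 | ⟨s, hs1, hs2⟩
        · exact Or.inl (hI (hB h5))
        · exact Or.inr ⟨s, hI (hB hs1), hs2⟩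
      · have hne : (I p q d \ A).Nonempty := by
          rw [Finset.nonempty_iff_ne_empty]
          intro h
          exact hI (Finset.sdiff_eq_empty_iff_subset.1 h)
        obtain ⟨m, hm, hmin⟩ : ∃ m ∈ I p q d \ A, ∀ s ∈ I p q d \ A, m ≤ s :=
          ⟨_, Finset.min'_mem _ hne, fun s hs => Finset.min'_le _ s hs⟩
        rw [Finset.mem_sdiff] at hm
        have hm1 := mem_I.1 hm.1
        have hml : m ≠ l := by
          rintro rfl
          exact hm.2 hl
        have hm2 : m - 1 ∈ A := by
          by_contra hcon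
          have h6 := hmin (m - 1) (Finset.mem_sdiff.2 ⟨mem_I.2 ⟨by omega, by omega, by omega⟩,
            hcon⟩)
          omega
        have e3 : insert m (A.erase l) ⊆ sh p q d A := by
          intro t ht
          rw [Finset.mem_insert, Finset.mem_erase] at ht
          rw [mem_sh]
          rcases ht with ht | ⟨ht1, ht2⟩
          · subst ht
            exact ⟨⟨by omega, by omega, by omega⟩, Or.inr ⟨t - 1, hm2, by omega⟩⟩
          · have h3 := mem_I.1 (hA ht2)
            exact ⟨⟨by omega, by omega, by omega⟩, Or.inl ht2⟩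
        have e4 := Finset.card_le_card e3
        have e5 : m ∉ A.erase l := fun h => hm.2 (Finset.mem_of_mem_erase h)
        rw [Finset.card_insert_of_notMem e5, Finset.card_erase_of_mem hl] at e4
        have e6 : 0 < A.card := Finset.card_pos.2 ⟨l, hl⟩
        omega

theorem mem_std {a : Fin 2 → ℕ} {d : ℕ} {x : Fin 2 →₀ ℕ} :
    x ∈ Std a d ↔ x 0 + x 1 = d ∧ x 0 < a 0 ∧ x 1 < a 1 := by
  unfold Std
  rw [Finset.mem_filter, Finset.mem_finsuppAntidiag]
  simp only [Fin.forall_fin_two, Fin.sum_univ_two, Finset.subset_univ, and_true]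

/-- the exponent vector `(s, t)` -/
noncomputable def mk (s t : ℕ) : Fin 2 →₀ ℕ := Finsupp.equivFunOnFinite.symm ![s, t]

theorem mk0 (s t : ℕ) : mk s t 0 = s := rfl
theorem mk1 (s t : ℕ) : mk s t 1 = t := rfl

theorem inj (a : Fin 2 → ℕ) (d : ℕ) {x y : Fin 2 →₀ ℕ} (hx : x ∈ Std a d) (hy : y ∈ Std a d)
    (h : x 0 = y 0) : x = y := by
  rw [mem_std] at hx hy
  ext i
  fin_cases i
  · exact h
  · show x 1 = y 1
    omega

theorem le_iff {x y : Fin 2 →₀ ℕ} : y ≤ x ↔ y 0 ≤ x 0 ∧ y 1 ≤ x 1 := by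
  rw [Finsupp.le_def, Fin.forall_fin_two]

open Classical in
theorem card_shadow (a : Fin 2 → ℕ) (d : ℕ) (M : Finset (Fin 2 →₀ ℕ)) (hM : M ⊆ Std a d) :
    (shadow a d M).card = (sh (a 0) (a 1) d (M.image fun x => x 0)).card := by
  have h1 : (shadow a d M).image (fun x => x 0) = sh (a 0) (a 1) d (M.image fun x => x 0) := by
    ext t
    rw [Finset.mem_image, mem_sh]
    constructor
    · rintro ⟨x, hx, rfl⟩
      unfold shadow at hx
      rw [Finset.mem_filter, mem_std] at hx
      obtain ⟨⟨h2, h3, h4⟩, y, hy, hyx⟩ := hx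
      rw [le_iff] at hyx
      have h5 := mem_std.1 (hM hy)
      refine ⟨⟨by omega, h3, by omega⟩, ?_⟩
      rcases Nat.eq_or_lt_of_le hyx.1 with h6 | h6
      · exact Or.inl (Finset.mem_image.2 ⟨y, hy, h6⟩)
      · exact Or.inr ⟨y 0, Finset.mem_image_of_mem _ hy, by omega⟩
    · rintro ⟨⟨h2, h3, h4⟩, h5⟩
      refine ⟨mk t (d + 1 - t), ?_, mk0 _ _⟩
      unfold shadow
      rw [Finset.mem_filter, mem_std, mk0, mk1]
      refine ⟨⟨by omega, h3, by omega⟩, ?_⟩
      rcases h5 with h5 | ⟨s, hs, hst⟩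
      · obtain ⟨y, hy, hyt⟩ := Finset.mem_image.1 h5
        have h6 := mem_std.1 (hM hy)
        refine ⟨y, hy, ?_⟩
        rw [le_iff, mk0, mk1]
        have h7 : y 0 = t := hyt
        omega
      · obtain ⟨y, hy, hyt⟩ := Finset.mem_image.1 hs
        have h6 := mem_std.1 (hM hy)
        refine ⟨y, hy, ?_⟩
        rw [le_iff, mk0, mk1]
        have h7 : y 0 = s := hyt
        omega
  rw [← h1, Finset.card_image_of_injOn]
  intro x hx y hy hxy
  have hx' : x ∈ Std a (d + 1) := (Finset.mem_filter.1 (Finset.mem_coe.1 hx)).1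
  have hy' : y ∈ Std a (d + 1) := (Finset.mem_filter.1 (Finset.mem_coe.1 hy)).1
  exact inj a (d + 1) hx' hy' hxy

theorem two (a : Fin 2 → ℕ) (ha : Monotone a) : CL a := by
  classical
  intro d F M hF hM hc
  have hM' := hM.1
  have ic : ∀ G : Finset (Fin 2 →₀ ℕ), G ⊆ Std a d → (G.image fun x => x 0).card = G.card := by
    intro G hG
    refine Finset.card_image_of_injOn ?_
    intro x hx y hy hxy
    exact inj a d (hG hx) (hG hy) hxy
  have is : ∀ G : Finset (Fin 2 →₀ ℕ), G ⊆ Std a d → (G.image fun x => x 0) ⊆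
      I (a 0) (a 1) d := by
    intro G hG t ht
    obtain ⟨x, hx, rfl⟩ := Finset.mem_image.1 ht
    have h1 := mem_std.1 (hG hx)
    rw [mem_I]
    omega
  rw [card_shadow a d M hM', card_shadow a d F hF]
  refine nat (ha (Fin.zero_le 1)) (is F hF) (is M hM') ?_ (by rw [ic F hF, ic M hM']; exact hc)
  intro t ht s hs hts
  obtain ⟨x, hx, hxt⟩ := Finset.mem_image.1 ht
  rw [mem_I] at hs
  have h1 : mk s (d - s) ∈ Std a d := by
    rw [mem_std, mk0, mk1]
    omega
  refine Finset.mem_image.2 ⟨mk s (d - s), hM.2 x hx _ h1 ⟨0, ?_, ?_⟩, mk0 _ _⟩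
  · intro k hk
    exact absurd hk (Fin.not_lt_zero k)
  · rw [mk0]
    have h2 : x 0 = t := hxt
    omega

/-- at most one standard monomial in every degree -/
theorem one {n : ℕ} (a : Fin n → ℕ) (h : ∀ d, ∀ x ∈ Std a d, ∀ y ∈ Std a d, x = y) : CL a := by
  intro d F M hF hM hc
  rcases M.eq_empty_or_nonempty with h0 | ⟨x, hx⟩
  · subst h0
    have : shadow a d ∅ = ∅ := by
      unfold shadow
      refine Finset.filter_eq_empty_iff.2 ?_
      rintro z - ⟨y, hy, -⟩
      exact absurd hy (Finset.notMem_empty y)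
    rw [this, Finset.card_empty]
    exact Nat.zero_le _
  · have h1 : 0 < F.card := lt_of_lt_of_le (Finset.card_pos.2 ⟨x, hx⟩) hc
    obtain ⟨y, hy⟩ := Finset.card_pos.1 h1
    refine Finset.card_le_card ?_
    intro z hz
    unfold shadow at hz ⊢
    rw [Finset.mem_filter] at hz ⊢
    obtain ⟨h2, w, hw, hwz⟩ := hz
    refine ⟨h2, y, hy, ?_⟩
    rw [h d y (hF hy) w (hM.1 hw)]
    exact hwz

end CLB_

theorem p_CLB : T_CLB := by
  intro n a hn ha
  match n, a, hn, ha with
  | 0, a, _, _ =>
    refine CLB_.one a ?_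
    intro d x _ y _
    exact Subsingleton.elim x y
  | 1, a, _, _ =>
    refine CLB_.one a ?_
    intro d x hx y hy
    unfold Std at hx hy
    rw [Finset.mem_filter, Finset.mem_finsuppAntidiag] at hx hy
    have h1 := hx.1.1
    have h2 := hy.1.1
    rw [Fin.sum_univ_one] at h1 h2
    refine Finsupp.ext fun i => ?_
    rw [Fin.fin_one_eq_zero i, h1, h2]
  | 2, a, _, ha => exact CLB_.two a ha

end Pool.Agent.EGT
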