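import Pool.Agent.EGT.Targets
import Pool.Agent.EGU.P_SEGA

/-!
The theorem of Clements and Lindström: `T_CLT`.
-/

set_option autoImplicit false
open MvPolynomial hiding R

namespace Pool.Agent.EGT

open Pool.Agent.EGU Pool.Agent.EGS

universe u

namespace CLT_

/-- the shadow is monotone -/
theorem shadow_mono {n : ℕ} (a : Fin n → ℕ) (d : ℕ) {M F : Finset (Fin n →₀ ℕ)} (h : M ⊆ F) :
    shadow a d M ⊆ shadow a d F := by
  intro x hx
  unfold shadow at hx ⊢
  rw [Finset.mem_filter] at hx ⊢
  obtain ⟨h1, y, hy, hyx⟩ := hx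
  exact ⟨h1, y, h hy, hyx⟩

/-- a best set: no set is better -/
theorem exists_best {n : ℕ} (a : Fin n → ℕ) (d : ℕ) (F : Finset (Fin n →₀ ℕ))
    (hF : F ⊆ Std a d) : ∃ F' : Finset (Fin n →₀ ℕ), F' ⊆ Std a d ∧ F'.card = F.card ∧
      (shadow a d F').card ≤ (shadow a d F).card ∧ ∀ F'', ¬ Btr a d F' F'' := by
  classical
  set P : Finset (Finset (Fin n →₀ ℕ)) := (Std a d).powerset.filter
    (fun F' => F'.card = F.card ∧ (shadow a d F').card ≤ (shadow a d F).card) with hP
  have hne : P.Nonempty := by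
    refine ⟨F, ?_⟩
    rw [hP, Finset.mem_filter, Finset.mem_powerset]
    exact ⟨hF, rfl, le_refl _⟩
  obtain ⟨F', hF'P, hmax⟩ := Finset.exists_max_image P (wt a d) hne
  have hF'2 := hF'P
  rw [hP, Finset.mem_filter, Finset.mem_powerset] at hF'2
  obtain ⟨h1, h2, h3⟩ := hF'2
  refine ⟨F', h1, h2, h3, ?_⟩
  intro F'' hB
  obtain ⟨b1, b2, b3, b4⟩ := hB
  have hF''P : F'' ∈ P := by
    rw [hP, Finset.mem_filter, Finset.mem_powerset]
    exact ⟨b1, b2.trans h2, b3.trans h3⟩
  exact absurd (hmax F'' hF''P) (not_le.mpr b4)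

end CLT_

open CLT_ in
theorem p_CLT (h_CMP : T_CMP) (h_SWP : T_SWP) (h_CLB : T_CLB) : T_CLT := by
  intro n
  induction n with
  | zero => exact fun a ha => h_CLB 0 a (by omega) ha
  | succ n ih =>
    intro a ha
    by_cases hn : n + 1 ≤ 2
    · exact h_CLB (n + 1) a hn ha
    · intro d F M hF hM hcard
      obtain ⟨F', h1, h2, h3, hbest⟩ := exists_best a d F hF
      have hcmp : ∀ i, Cmp a d i F' := by
        intro i
        by_contra hc
        have hmono : Monotone (a ∘ i.succAbove) := ha.comp (Fin.strictMono_succAbove i).monotone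
        obtain ⟨F'', hB⟩ := h_CMP n a i (ih _ hmono) d F' h1 hc
        exact hbest F'' hB
      have hseg : IsSeg a d F' := by
        by_contra hc
        obtain ⟨F'', hB⟩ := h_SWP (n + 1) a (by omega) d F' h1 hcmp hc
        exact hbest F'' hB
      have hsub : M ⊆ F' := by
        have := (t_sega (n + 1) a d).2.2.2.2 M F' hM hseg (by rw [h2]; exact hcard)
        exact this
      exact (Finset.card_le_card (shadow_mono a d hsub)).trans h3

end Pool.Agent.EGT
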