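import Pool.Agent.EGT.Targets

set_option autoImplicit false
open MvPolynomial hiding R

/-!
Target CMG of the project EGT: growth for `n` forms in `n + 1` variables.
-/

namespace Pool.Agent.EGT

open Pool.Agent.EGU Pool.Agent.EGS

universe u

noncomputable section

namespace CMG_

theorem fmono {K : Type u} [Field K] {n d : ℕ} {W W' : Submodule K (R K n)} (h : W ≤ W')
    (h' : W' ≤ Rd K n d) : Module.finrank K W ≤ Module.finrank K W' := by
  have := (t_dimr K n d).1
  have : Module.Finite K W' := Submodule.finiteDimensional_of_le h'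
  exact Submodule.finrank_mono h

section comb

variable {n : ℕ}

theorem mem_std {a : Fin n → ℕ} {d : ℕ} {x : Fin n →₀ ℕ} :
    x ∈ Std a d ↔ (∑ i, x i) = d ∧ ∀ i, x i < a i := by
  unfold Std
  rw [Finset.mem_filter, Finset.mem_finsuppAntidiag]
  constructor
  · rintro ⟨⟨h1, _⟩, h2⟩
    exact ⟨h1, h2⟩
  · rintro ⟨h1, h2⟩
    exact ⟨⟨h1, Finset.subset_univ _⟩, h2⟩

theorem mem_shadow {a : Fin n → ℕ} {d : ℕ} {M : Finset (Fin n →₀ ℕ)} {t : Fin n →₀ ℕ} :
    t ∈ shadow a d M ↔ t ∈ Std a (d + 1) ∧ ∃ y ∈ M, y ≤ t := by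
  unfold shadow
  rw [Finset.mem_filter]

theorem shadow_mono {a : Fin n → ℕ} {d : ℕ} {M M' : Finset (Fin n →₀ ℕ)} (h : M ⊆ M') :
    shadow a d M ⊆ shadow a d M' := by
  intro t ht
  rw [mem_shadow] at ht ⊢
  obtain ⟨h1, y, hy, h2⟩ := ht
  exact ⟨h1, y, h hy, h2⟩

/-- the vector `y` followed by the last coordinate `c` -/
def ex (c : ℕ) (y : Fin n →₀ ℕ) : Fin (n + 1) →₀ ℕ :=
  Finsupp.equivFunOnFinite.symm (Fin.snoc (α := fun _ => ℕ) y c)

theorem ex_cast (c : ℕ) (y : Fin n →₀ ℕ) (i : Fin n) : ex c y i.castSucc = y i := by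
  show Fin.snoc (α := fun _ => ℕ) (⇑y) c i.castSucc = y i
  rw [Fin.snoc_castSucc]

theorem ex_last (c : ℕ) (y : Fin n →₀ ℕ) : ex c y (Fin.last n) = c := by
  show Fin.snoc (α := fun _ => ℕ) (⇑y) c (Fin.last n) = c
  rw [Fin.snoc_last]

theorem ex_inj (c : ℕ) : Function.Injective (ex (n := n) c) := by
  intro y y' h
  ext i
  rw [← ex_cast c y i, h, ex_cast]

theorem ex_sum (c : ℕ) (y : Fin n →₀ ℕ) : (∑ i, ex c y i) = (∑ i, y i) + c := by
  rw [Fin.sum_univ_castSucc, ex_last]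
  congr 1
  exact Finset.sum_congr rfl fun i _ => ex_cast c y i

/-- the first coordinates -/
def dr (x : Fin (n + 1) →₀ ℕ) : Fin n →₀ ℕ :=
  Finsupp.equivFunOnFinite.symm fun i => x i.castSucc

theorem dr_apply (x : Fin (n + 1) →₀ ℕ) (i : Fin n) : dr x i = x i.castSucc := rfl

theorem ex_dr (x : Fin (n + 1) →₀ ℕ) : ex (x (Fin.last n)) (dr x) = x := by
  ext i
  refine Fin.lastCases ?_ (fun i => ?_) i
  · rw [ex_last]
  · rw [ex_cast, dr_apply]

theorem std_snoc {a : Fin n → ℕ} {M d : ℕ} {x : Fin (n + 1) →₀ ℕ} :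
    x ∈ Std (Fin.snoc (α := fun _ => ℕ) a M) d ↔
      (∑ i, dr x i) + x (Fin.last n) = d ∧ (∀ i, dr x i < a i) ∧ x (Fin.last n) < M := by
  rw [mem_std, Fin.sum_univ_castSucc]
  constructor
  · rintro ⟨h1, h2⟩
    refine ⟨h1, fun i => ?_, ?_⟩
    · have h3 := h2 i.castSucc
      rw [Fin.snoc_castSucc] at h3
      exact h3
    · have h3 := h2 (Fin.last n)
      rw [Fin.snoc_last] at h3
      exact h3
  · rintro ⟨h1, h2, h3⟩
    refine ⟨h1, fun i => ?_⟩
    refine Fin.lastCases ?_ (fun i => ?_) i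
    · rw [Fin.snoc_last]
      exact h3
    · rw [Fin.snoc_castSucc]
      exact h2 i

theorem mono_snoc {a : Fin n → ℕ} {M : ℕ} (ha : Monotone a) (hM : ∀ i, a i ≤ M) :
    Monotone (Fin.snoc (α := fun _ => ℕ) a M : Fin (n + 1) → ℕ) := by
  intro i j
  refine Fin.lastCases ?_ (fun j => ?_) j
  · intro _
    rw [Fin.snoc_last]
    refine Fin.lastCases ?_ (fun i => ?_) i
    · rw [Fin.snoc_last]
    · rw [Fin.snoc_castSucc]
      exact hM i
  · refine Fin.lastCases ?_ (fun i => ?_) i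
    · intro h
      exact absurd h (not_le.2 (Fin.castSucc_lt_last j))
    · intro h
      rw [Fin.snoc_castSucc, Fin.snoc_castSucc]
      exact ha (Fin.castSucc_le_castSucc_iff.1 h)

/-- the union of the layers -/
def uni (d : ℕ) (m : ℕ → Finset (Fin n →₀ ℕ)) : Finset (Fin (n + 1) →₀ ℕ) :=
  (Finset.range d).biUnion fun j => (m j).image (ex j)

theorem mem_uni {d : ℕ} {m : ℕ → Finset (Fin n →₀ ℕ)} {x : Fin (n + 1) →₀ ℕ} :
    x ∈ uni d m ↔ x (Fin.last n) < d ∧ dr x ∈ m (x (Fin.last n)) := by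
  unfold uni
  rw [Finset.mem_biUnion]
  constructor
  · rintro ⟨j, hj, hx⟩
    rw [Finset.mem_image] at hx
    obtain ⟨y, hy, rfl⟩ := hx
    have h1 : dr (ex j y) = y := by
      ext i
      rw [dr_apply, ex_cast]
    rw [ex_last, h1]
    exact ⟨Finset.mem_range.1 hj, hy⟩
  · rintro ⟨h1, h2⟩
    exact ⟨_, Finset.mem_range.2 h1, Finset.mem_image.2 ⟨_, h2, ex_dr x⟩⟩

theorem card_uni (d : ℕ) (m : ℕ → Finset (Fin n →₀ ℕ)) :
    (uni d m).card = ∑ j ∈ Finset.range d, (m j).card := by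
  unfold uni
  rw [Finset.card_biUnion]
  · exact Finset.sum_congr rfl fun j _ => Finset.card_image_of_injective _ (ex_inj j)
  · intro i _ j _ hij
    rw [Function.onFun, Finset.disjoint_left]
    intro x hx hx'
    rw [Finset.mem_image] at hx hx'
    obtain ⟨y, _, rfl⟩ := hx
    obtain ⟨y', _, h⟩ := hx'
    apply hij
    have h1 := ex_last j y'
    rw [h, ex_last] at h1
    exact h1

/-- the layers of the shadow -/
def G (a : Fin n → ℕ) (d : ℕ) (m : ℕ → Finset (Fin n →₀ ℕ)) (j : ℕ) : Finset (Fin n →₀ ℕ) :=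
  (if j ≤ d then shadow a (d - j) (m j) else ∅) ∪ (if 1 ≤ j then m (j - 1) else ∅)

theorem shadow_sub {a : Fin n → ℕ} {M d : ℕ} {m : ℕ → Finset (Fin n →₀ ℕ)}
    (hm : ∀ j, j ≤ d → m j ⊆ Std a (d - j)) :
    shadow (Fin.snoc (α := fun _ => ℕ) a M) d (uni (d + 1) m) ⊆ uni (d + 2) (G a d m) := by
  intro x hx
  rw [mem_shadow, std_snoc] at hx
  obtain ⟨⟨h1, h2, h3⟩, y, hy, hyx⟩ := hx
  rw [mem_uni] at hy ⊢
  obtain ⟨hy1, hy2⟩ := hy
  set c := x (Fin.last n) with hc
  set j := y (Fin.last n) with hj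
  have hjd : j ≤ d := by omega
  have hys := mem_std.1 (hm j hjd hy2)
  have hle : ∀ i, dr y i ≤ dr x i := fun i => hyx i.castSucc
  have hjc : j ≤ c := hyx (Fin.last n)
  have hsum : ∑ i, dr y i ≤ ∑ i, dr x i := Finset.sum_le_sum fun i _ => hle i
  have hcj : c ≤ j + 1 := by omega
  refine ⟨by omega, ?_⟩
  unfold G
  rw [Finset.mem_union]
  rcases Nat.lt_or_ge j c with hlt | hge
  · right
    have hc1 : c = j + 1 := by omega
    rw [if_pos (by omega)]
    have h4 : dr y = dr x := by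
      have h5 : ∑ i, dr y i = ∑ i, dr x i := by omega
      have h6 := (Finset.sum_eq_sum_iff_of_le fun i _ => hle i).1 h5
      ext i
      exact h6 i (Finset.mem_univ i)
    have h7 : c - 1 = j := by omega
    rw [h7, ← h4]
    exact hy2
  · left
    have hc1 : c = j := by omega
    rw [if_pos (by omega), mem_shadow, mem_std, hc1]
    refine ⟨⟨by omega, h2⟩, dr y, hy2, hle⟩

/-- the main combinatorial statement -/
theorem comb (hCL : T_CLT) (a : Fin n → ℕ) (ha : Monotone a) (d M : ℕ) (hd : d + 2 ≤ M)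
    (haM : ∀ i, a i ≤ M) (m : ℕ → Finset (Fin n →₀ ℕ)) (hm : ∀ j, j ≤ d → IsSeg a (d - j) (m j))
    (v : ℕ → ℕ) (hv1 : ∀ j, j ≤ d → (shadow a (d - j) (m j)).card ≤ v j)
    (hv2 : ∀ j, j ≤ d → (m j).card ≤ v (j + 1)) :
    Sh (Fin.snoc (α := fun _ => ℕ) a M) d (∑ j ∈ Finset.range (d + 1), (m j).card)
      (∑ j ∈ Finset.range (d + 2), v j) := by
  set a' : Fin (n + 1) → ℕ := Fin.snoc (α := fun _ => ℕ) a M with ha'
  obtain ⟨-, -, -, hex, -⟩ := t_sega (n + 1) a' d
  set F := uni (d + 1) m with hF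
  have hFs : F ⊆ Std a' d := by
    intro x hx
    rw [hF, mem_uni] at hx
    have h1 := mem_std.1 ((hm _ (by omega)).1 hx.2)
    rw [ha', std_snoc]
    refine ⟨by omega, h1.2, by omega⟩
  have hFc : F.card = ∑ j ∈ Finset.range (d + 1), (m j).card := card_uni _ _
  obtain ⟨N, hN, hNc⟩ := hex F.card (Finset.card_le_card hFs)
  refine ⟨N, hN, hNc.trans hFc, ?_⟩
  have h1 := hCL (n + 1) a' (mono_snoc ha haM) d F N hFs hN hNc.le
  refine h1.trans ((Finset.card_le_card (shadow_sub fun j hj => (hm j hj).1)).trans ?_)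
  rw [card_uni]
  refine Finset.sum_le_sum fun j hj => ?_
  rw [Finset.mem_range] at hj
  unfold G
  by_cases h0 : j ≤ d
  · rw [if_pos h0]
    by_cases h2 : 1 ≤ j
    · rw [if_pos h2]
      have hs1 : IsSeg a (d - j + 1) (shadow a (d - j) (m j)) := by
        obtain ⟨mi, -, -, -, h3⟩ := t_segb n
        exact h3 a (d - j) (m j) (hm j h0)
      have hs2 : IsSeg a (d - j + 1) (m (j - 1)) := by
        have h3 := hm (j - 1) (by omega)
        have h4 : d - (j - 1) = d - j + 1 := by omega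
        rw [h4] at h3
        exact h3
      have hv2' := hv2 (j - 1) (by omega)
      have h5 : j - 1 + 1 = j := by omega
      rw [h5] at hv2'
      obtain ⟨-, -, -, -, hnest⟩ := t_sega n a (d - j + 1)
      rcases le_total (shadow a (d - j) (m j)).card (m (j - 1)).card with hle | hle
      · rw [Finset.union_eq_right.2 (hnest _ _ hs1 hs2 hle)]
        exact hv2'
      · rw [Finset.union_eq_left.2 (hnest _ _ hs2 hs1 hle)]
        exact hv1 j h0
    · rw [if_neg h2, Finset.union_empty]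
      exact hv1 j h0
  · rw [if_neg h0, if_pos (by omega), Finset.empty_union]
    have hv2' := hv2 (j - 1) (by omega)
    have h5 : j - 1 + 1 = j := by omega
    rw [h5] at hv2'
    exact hv2'

end comb

end CMG_

open CMG_ in
theorem p_CMG (h_CLT : T_CLT) (h_GLF : T_GLF.{u}) (h_LAY : T_LAY.{u}) : T_CMG.{u} := by
  intro K _ _ n a hmono ha2 hEG f hf d M hd haM W hW1 hW2
  obtain ⟨l, θ, hl, hθ1, hθ2, hθ3, hθ4, hCI, hθ5⟩ := h_GLF K n f a hf
  have hup := t_upl K (n + 1) n f a hf.hom d W hW2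
  obtain ⟨hL1, hL2, hL3⟩ := h_LAY K n f a hf l θ hl hθ1 hθ2 hθ3 hθ4 hCI hθ5 d W hW1 hW2
  obtain ⟨hV1, -, -⟩ := h_LAY K n f a hf l θ hl hθ1 hθ2 hθ3 hθ4 hCI hθ5 (d + 1)
    (up f d W) hup.1 hup.2.1
  -- the segments
  have hseg : ∀ j, j ≤ d → ∃ m : Finset (Fin n →₀ ℕ), IsSeg a (d - j) m ∧
      m.card = Module.finrank K (lay l θ d W j) -
        Module.finrank K (Jd (fun i => θ (f i)) (d - j)) ∧
      (shadow a (d - j) m).card ≤
        Module.finrank K (up (fun i => θ (f i)) (d - j) (lay l θ d W j)) -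
          Module.finrank K (Jd (fun i => θ (f i)) (d - j + 1)) := by
    intro j hj
    obtain ⟨h1, h2, -, -⟩ := hL1 j hj
    exact hEG (d - j) (Module.finrank K (Rd K n 2)) (fun i => θ (f i)) hCI _ h1 h2
      (Nat.le_add_left _ _)
  choose! m hm1 hm2 hm3 using hseg
  -- the layers of `up f d W`
  let v : ℕ → ℕ := fun j => Module.finrank K (lay l θ (d + 1) (up f d W) j) -
    Module.finrank K (Jd (fun i => θ (f i)) (d + 1 - j))
  have hv1 : ∀ j, j ≤ d → (shadow a (d - j) (m j)).card ≤ v j := by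
    intro j hj
    obtain ⟨-, -, h3, -⟩ := hL1 j hj
    obtain ⟨-, h5, -, -⟩ := hV1 j (by omega)
    have h6 := fmono h3 h5
    have h7 := hm3 j hj
    have h8 : d - j + 1 = d + 1 - j := by omega
    rw [h8] at h7
    show _ ≤ Module.finrank K (lay l θ (d + 1) (up f d W) j) -
      Module.finrank K (Jd (fun i => θ (f i)) (d + 1 - j))
    omega
  have hv2 : ∀ j, j ≤ d → (m j).card ≤ v (j + 1) := by
    intro j hj
    obtain ⟨-, -, -, h4⟩ := hL1 j hj
    obtain ⟨-, h5, -, -⟩ := hV1 (j + 1) (by omega)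
    have h6 := fmono h4 h5
    have h7 := hm2 j hj
    have h8 : d + 1 - (j + 1) = d - j := by omega
    show _ ≤ Module.finrank K (lay l θ (d + 1) (up f d W) (j + 1)) -
      Module.finrank K (Jd (fun i => θ (f i)) (d + 1 - (j + 1)))
    rw [h8]
    omega
  have key := comb h_CLT a hmono d M hd haM m hm1 v hv1 hv2
  have e1 : ∑ j ∈ Finset.range (d + 1), (m j).card =
      Module.finrank K W - Module.finrank K (Jd f d) := by
    have h1 : ∑ j ∈ Finset.range (d + 1), (m j).card +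
        ∑ j ∈ Finset.range (d + 1), Module.finrank K (Jd (fun i => θ (f i)) (d - j)) =
        ∑ j ∈ Finset.range (d + 1), Module.finrank K (lay l θ d W j) := by
      rw [← Finset.sum_add_distrib]
      refine Finset.sum_congr rfl fun j hj => ?_
      rw [Finset.mem_range] at hj
      obtain ⟨h2, h3, -, -⟩ := hL1 j (by omega)
      have h4 := fmono h2 h3
      have h5 := hm2 j (by omega)
      omega
    omega
  have e2 : ∑ j ∈ Finset.range (d + 2), v j =
      Module.finrank K (up f d W) - Module.finrank K (Jd f (d + 1)) := by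
    have h1 : ∑ j ∈ Finset.range (d + 2), v j +
        ∑ j ∈ Finset.range (d + 2), Module.finrank K (Jd (fun i => θ (f i)) (d + 1 - j)) =
        ∑ j ∈ Finset.range (d + 2), Module.finrank K (lay l θ (d + 1) (up f d W) j) := by
      rw [← Finset.sum_add_distrib]
      refine Finset.sum_congr rfl fun j hj => ?_
      rw [Finset.mem_range] at hj
      obtain ⟨h2, h3, -, -⟩ := hV1 j (by omega)
      have h4 := fmono h2 h3
      show Module.finrank K (lay l θ (d + 1) (up f d W) j) -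
        Module.finrank K (Jd (fun i => θ (f i)) (d + 1 - j)) + _ = _
      omega
    omega
  rw [e1, e2] at key
  exact key

end

end Pool.Agent.EGT
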