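import Pool.Agent.EGT.Targets

set_option autoImplicit false
open MvPolynomial hiding R

/-!
Target CMP of the project EGT: compression in one direction.
-/

namespace Pool.Agent.EGT

open Pool.Agent.EGU Pool.Agent.EGS

universe u

namespace CMP_

variable {n : ℕ}

theorem mem_Std (a : Fin n → ℕ) (d : ℕ) (x : Fin n →₀ ℕ) :
    x ∈ Std a d ↔ (∑ i, x i) = d ∧ ∀ i, x i < a i := by
  unfold Std
  rw [Finset.mem_filter, Finset.mem_finsuppAntidiag]
  constructor
  · rintro ⟨⟨h1, -⟩, h2⟩
    exact ⟨h1, h2⟩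
  · rintro ⟨h1, h2⟩
    exact ⟨⟨h1, Finset.subset_univ _⟩, h2⟩

theorem mem_shadow (a : Fin n → ℕ) (d : ℕ) (M : Finset (Fin n →₀ ℕ)) (x : Fin n →₀ ℕ) :
    x ∈ shadow a d M ↔ x ∈ Std a (d + 1) ∧ ∃ y ∈ M, y ≤ x := by
  classical
  unfold shadow
  rw [Finset.mem_filter]

theorem ins_same (i : Fin (n + 1)) (c : ℕ) (y : Fin n →₀ ℕ) : ins i c y i = c := by
  simp [ins]

theorem ins_sA (i : Fin (n + 1)) (c : ℕ) (y : Fin n →₀ ℕ) (j : Fin n) :
    ins i c y (i.succAbove j) = y j := by
  simp [ins]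

theorem rmv_apply (i : Fin (n + 1)) (x : Fin (n + 1) →₀ ℕ) (j : Fin n) :
    rmv i x j = x (i.succAbove j) := rfl

theorem rmv_ins (i : Fin (n + 1)) (c : ℕ) (y : Fin n →₀ ℕ) : rmv i (ins i c y) = y := by
  ext j
  rw [rmv_apply, ins_sA]

theorem ins_rmv (i : Fin (n + 1)) (x : Fin (n + 1) →₀ ℕ) : ins i (x i) (rmv i x) = x := by
  ext j
  rcases Fin.eq_self_or_eq_succAbove i j with h | ⟨k, h⟩
  · rw [h, ins_same]
  · rw [h, ins_sA, rmv_apply]

theorem ins_Std (a : Fin (n + 1) → ℕ) (i : Fin (n + 1)) (e c : ℕ) (y : Fin n →₀ ℕ) (hc : c ≤ e)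
    (hc' : c < a i) (hy : y ∈ Std (a ∘ i.succAbove) (e - c)) : ins i c y ∈ Std a e := by
  rw [mem_Std] at hy ⊢
  refine ⟨?_, fun j => ?_⟩
  · rw [Fin.sum_univ_succAbove _ i, ins_same]
    simp only [ins_sA]
    rw [hy.1]
    omega
  · rcases Fin.eq_self_or_eq_succAbove i j with h | ⟨k, h⟩
    · rw [h, ins_same]
      exact hc'
    · rw [h, ins_sA]
      exact hy.2 k

theorem rmv_Std (a : Fin (n + 1) → ℕ) (i : Fin (n + 1)) (e : ℕ) (x : Fin (n + 1) →₀ ℕ)
    (hx : x ∈ Std a e) :
    x i ≤ e ∧ x i < a i ∧ rmv i x ∈ Std (a ∘ i.succAbove) (e - x i) := by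
  rw [mem_Std] at hx
  have h := hx.1
  rw [Fin.sum_univ_succAbove _ i] at h
  refine ⟨by omega, hx.2 i, ?_⟩
  rw [mem_Std]
  refine ⟨?_, fun j => hx.2 _⟩
  simp only [rmv_apply]
  omega

theorem sumU (a : Fin (n + 1) → ℕ) (i : Fin (n + 1)) (e : ℕ) (H : ℕ → Finset (Fin n →₀ ℕ))
    (hH : ∀ c, c ≤ e → c < a i → H c ⊆ Std (a ∘ i.succAbove) (e - c))
    (f : (Fin (n + 1) →₀ ℕ) → ℕ) :
    ∑ x ∈ (Std a e).filter (fun x => rmv i x ∈ H (x i)), f x =
      ∑ c ∈ (Finset.range (e + 1)).filter (fun c => c < a i), ∑ y ∈ H c, f (ins i c y) := by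
  have hmaps : ∀ x ∈ (Std a e).filter (fun x => rmv i x ∈ H (x i)),
      x i ∈ (Finset.range (e + 1)).filter (fun c => c < a i) := by
    intro x hx
    have h := rmv_Std a i e x (Finset.mem_filter.1 hx).1
    rw [Finset.mem_filter, Finset.mem_range]
    exact ⟨by omega, h.2.1⟩
  rw [← Finset.sum_fiberwise_of_maps_to hmaps]
  refine Finset.sum_congr rfl fun c hc => ?_
  rw [Finset.mem_filter, Finset.mem_range] at hc
  refine Finset.sum_nbij' (rmv i) (ins i c) ?_ ?_ ?_ ?_ ?_
  · intro x hx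
    rw [Finset.mem_filter, Finset.mem_filter] at hx
    rw [← hx.2]
    exact hx.1.2
  · intro y hy
    rw [Finset.mem_filter, Finset.mem_filter, rmv_ins, ins_same]
    exact ⟨⟨ins_Std a i e c y (by omega) hc.2 (hH c (by omega) hc.2 hy), hy⟩, rfl⟩
  · intro x hx
    rw [Finset.mem_filter] at hx
    have h := ins_rmv i x
    rw [hx.2] at h
    exact h
  · intro y _
    exact rmv_ins i c y
  · intro x hx
    rw [Finset.mem_filter] at hx
    have h := ins_rmv i x
    rw [hx.2] at h
    rw [h]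

/-- the layers of the shadow -/
noncomputable def HH (a' : Fin n → ℕ) (d : ℕ) (G : ℕ → Finset (Fin n →₀ ℕ)) (c : ℕ) :
    Finset (Fin n →₀ ℕ) :=
  shadow a' (d - c) (G c) ∪ (if c = 0 then ∅ else G (c - 1))

theorem mem_HH (a' : Fin n → ℕ) (d : ℕ) (G : ℕ → Finset (Fin n →₀ ℕ)) (c : ℕ)
    (y : Fin n →₀ ℕ) :
    y ∈ HH a' d G c ↔ y ∈ shadow a' (d - c) (G c) ∨ (c ≠ 0 ∧ y ∈ G (c - 1)) := by
  unfold HH
  rw [Finset.mem_union]
  by_cases hc : c = 0
  · simp [hc]
  · simp [hc]

/-- the conditions for a family of layers -/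
structure Fam (a : Fin (n + 1) → ℕ) (i : Fin (n + 1)) (d : ℕ)
    (G : ℕ → Finset (Fin n →₀ ℕ)) : Prop where
  sub : ∀ c, G c ⊆ Std (a ∘ i.succAbove) (d - c)
  le : ∀ c, (G c).Nonempty → c ≤ d

theorem HH_sub (a : Fin (n + 1) → ℕ) (i : Fin (n + 1)) (d : ℕ)
    (G : ℕ → Finset (Fin n →₀ ℕ)) (hG : Fam a i d G) (c : ℕ) :
    HH (a ∘ i.succAbove) d G c ⊆ Std (a ∘ i.succAbove) (d + 1 - c) := by
  intro y hy
  rw [mem_HH, mem_shadow] at hy
  rcases hy with ⟨h1, z, hz, -⟩ | ⟨h1, h2⟩
  · have h3 := hG.le c ⟨z, hz⟩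
    rwa [show d + 1 - c = d - c + 1 by omega]
  · have h3 := hG.le (c - 1) ⟨y, h2⟩
    have h4 := hG.sub _ h2
    rwa [show d + 1 - c = d - (c - 1) by omega]

theorem shadowU (a : Fin (n + 1) → ℕ) (i : Fin (n + 1)) (d : ℕ)
    (G : ℕ → Finset (Fin n →₀ ℕ)) (hG : Fam a i d G) :
    shadow a d ((Std a d).filter (fun x => rmv i x ∈ G (x i))) =
      (Std a (d + 1)).filter (fun x => rmv i x ∈ HH (a ∘ i.succAbove) d G (x i)) := by
  ext x
  rw [mem_shadow, Finset.mem_filter]
  refine and_congr_right fun hx => ?_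
  have hx' := rmv_Std a i (d + 1) x hx
  have hxs := (mem_Std a (d + 1) x).1 hx
  have hsx := hxs.1
  rw [Fin.sum_univ_succAbove _ i] at hsx
  rw [mem_HH, mem_shadow]
  constructor
  · rintro ⟨y, hy, hle⟩
    rw [Finset.mem_filter] at hy
    obtain ⟨hy1, hy2⟩ := hy
    have hy' := rmv_Std a i d y hy1
    have hys := (mem_Std a d y).1 hy1
    have hsy := hys.1
    rw [Fin.sum_univ_succAbove _ i] at hsy
    have hi := hle i
    have hrest : (∑ j, y (i.succAbove j)) ≤ ∑ j, x (i.succAbove j) :=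
      Finset.sum_le_sum fun j _ => hle _
    rcases Nat.lt_or_ge (y i) (x i) with h | h
    · right
      have h1 : x i = y i + 1 := by omega
      have h2 : rmv i y = rmv i x := by
        have h3 : (∑ j, y (i.succAbove j)) = ∑ j, x (i.succAbove j) := by omega
        have h4 := (Finset.sum_eq_sum_iff_of_le (fun j _ => hle (i.succAbove j))).1 h3
        ext j
        exact h4 j (Finset.mem_univ _)
      refine ⟨by omega, ?_⟩
      rw [h1, Nat.add_sub_cancel, ← h2]
      exact hy2
    · left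
      have h1 : x i = y i := by omega
      refine ⟨?_, rmv i y, ?_, fun j => hle _⟩
      · have h5 := hx'.2.2
        rwa [show d + 1 - x i = d - x i + 1 by omega] at h5
      · rw [h1]
        exact hy2
  · rintro (⟨h1, z, hz, hzx⟩ | ⟨h1, h2⟩)
    · have h3 := hG.le _ ⟨z, hz⟩
      refine ⟨ins i (x i) z, ?_, ?_⟩
      · rw [Finset.mem_filter, rmv_ins, ins_same]
        exact ⟨ins_Std a i d (x i) z h3 hx'.2.1 (hG.sub _ hz), hz⟩
      · intro j
        rcases Fin.eq_self_or_eq_succAbove i j with h | ⟨k, h⟩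
        · rw [h, ins_same]
        · rw [h, ins_sA]
          exact hzx k
    · have h3 := hG.le _ ⟨_, h2⟩
      refine ⟨ins i (x i - 1) (rmv i x), ?_, ?_⟩
      · rw [Finset.mem_filter, rmv_ins, ins_same]
        refine ⟨ins_Std a i d (x i - 1) _ h3 ?_ (hG.sub _ h2), h2⟩
        have := hx'.2.1
        omega
      · intro j
        rcases Fin.eq_self_or_eq_succAbove i j with h | ⟨k, h⟩
        · rw [h, ins_same]
          omega
        · rw [h, ins_sA, rmv_apply]

theorem lexgt_ins (i : Fin (n + 1)) (c : ℕ) (x y : Fin n →₀ ℕ) (h : lexgt x y) :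
    lexgt (ins i c x) (ins i c y) := by
  obtain ⟨j, h1, h2⟩ := h
  refine ⟨i.succAbove j, fun k hk => ?_, ?_⟩
  · rcases Fin.eq_self_or_eq_succAbove i k with h | ⟨l, h⟩
    · rw [h, ins_same, ins_same]
    · rw [h, ins_sA, ins_sA]
      refine h1 l ?_
      rw [h] at hk
      exact (Fin.succAbove_lt_succAbove_iff).1 hk
  · rw [ins_sA, ins_sA]
    exact h2

theorem lexgt_rmv (i : Fin (n + 1)) (x y : Fin (n + 1) →₀ ℕ) (hi : x i = y i)
    (h : lexgt x y) : lexgt (rmv i x) (rmv i y) := by
  obtain ⟨j, h1, h2⟩ := h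
  rcases Fin.eq_self_or_eq_succAbove i j with h | ⟨l, h⟩
  · rw [h, hi] at h2
    exact absurd h2 (lt_irrefl _)
  · refine ⟨l, fun k hk => ?_, ?_⟩
    · rw [rmv_apply, rmv_apply]
      refine h1 _ ?_
      rw [h]
      exact (Fin.succAbove_lt_succAbove_iff).2 hk
    · rw [rmv_apply, rmv_apply, ← h]
      exact h2

open Classical in
/-- the rank of a monomial -/
noncomputable def rk (a : Fin n → ℕ) (d : ℕ) (x : Fin n →₀ ℕ) : ℕ :=
  ((Std a d).filter fun y => lexgt x y).card

theorem rk_lt (a : Fin n → ℕ) (d : ℕ) (x y : Fin n →₀ ℕ) (hy : y ∈ Std a d)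
    (h : lexgt x y) : rk a d y < rk a d x := by
  classical
  unfold rk
  refine Finset.card_lt_card ?_
  rw [Finset.ssubset_iff_of_subset]
  · refine ⟨y, ?_, ?_⟩
    · rw [Finset.mem_filter]
      exact ⟨hy, h⟩
    · rw [Finset.mem_filter]
      rintro ⟨-, h1⟩
      exact (t_sega n a d).2.1 y h1
  · intro z hz
    rw [Finset.mem_filter] at hz ⊢
    exact ⟨hz.1, (t_sega n a d).2.2.1 _ _ _ h hz.2⟩

/-- the comparison of two sets of the same size -/
theorem sum_cmp {α : Type} [DecidableEq α] (A B : Finset α) (f : α → ℕ)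
    (hc : A.card = B.card) (h : ∀ x ∈ A \ B, ∀ y ∈ B \ A, f y < f x) :
    ∑ x ∈ B, f x ≤ ∑ x ∈ A, f x ∧ (A ≠ B → ∑ x ∈ B, f x < ∑ x ∈ A, f x) := by
  have e1 : ∑ x ∈ A ∩ B, f x + ∑ x ∈ A \ B, f x = ∑ x ∈ A, f x :=
    Finset.sum_inter_add_sum_sdiff A B f
  have e2 : ∑ x ∈ B ∩ A, f x + ∑ x ∈ B \ A, f x = ∑ x ∈ B, f x :=
    Finset.sum_inter_add_sum_sdiff B A f
  have e3 : (A \ B).card = (B \ A).card := by
    have h1 := Finset.card_sdiff_add_card_inter A B
    have h2 := Finset.card_sdiff_add_card_inter B A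
    rw [Finset.inter_comm B A] at h2
    omega
  rw [Finset.inter_comm B A] at e2
  have key : (A \ B).Nonempty → ∑ x ∈ B \ A, f x < ∑ x ∈ A \ B, f x := by
    intro hne
    obtain ⟨x0, hx0, hmin⟩ := Finset.exists_min_image (A \ B) f hne
    have h1 : (A \ B).card * f x0 ≤ ∑ x ∈ A \ B, f x := by
      have := Finset.card_nsmul_le_sum (A \ B) f (f x0) hmin
      simpa using this
    have h2 : ∑ y ∈ B \ A, (f y + 1) ≤ (B \ A).card * f x0 := by
      have := Finset.sum_le_card_nsmul (B \ A) (fun y => f y + 1) (f x0)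
        (fun y hy => h x0 hx0 y hy)
      simpa using this
    rw [Finset.sum_add_distrib] at h2
    have h3 : 0 < (A \ B).card := Finset.card_pos.2 hne
    simp only [Finset.sum_const, smul_eq_mul, mul_one] at h2
    rw [← e3] at h2
    omega
  rcases Finset.eq_empty_or_nonempty (A \ B) with h0 | h0
  · have h1 : B \ A = ∅ := by
      rw [← Finset.card_eq_zero, ← e3, h0, Finset.card_empty]
    have h2 : A = B := by
      apply Finset.Subset.antisymm
      · rwa [← Finset.sdiff_eq_empty_iff_subset]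
      · rwa [← Finset.sdiff_eq_empty_iff_subset]
    rw [h2]
    exact ⟨le_refl _, fun h => absurd rfl h⟩
  · have := key h0
    constructor
    · omega
    · intro _
      omega

theorem main : T_CMP := by
  classical
  intro n a i hCL d F hF hcmp
  set a' := a ∘ i.succAbove with ha'
  set L : ℕ → Finset (Fin n →₀ ℕ) := fun c => (F.filter fun x => x i = c).image (rmv i) with hL
  have memL : ∀ c y, y ∈ L c ↔ ins i c y ∈ F := by
    intro c y
    simp only [hL, Finset.mem_image, Finset.mem_filter]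
    constructor
    · rintro ⟨x, ⟨hx, hxc⟩, rfl⟩
      rw [← hxc, ins_rmv]
      exact hx
    · intro h
      exact ⟨ins i c y, ⟨h, ins_same i c y⟩, rmv_ins i c y⟩
  have famL : Fam a i d L := by
    constructor
    · intro c y hy
      rw [memL] at hy
      have h := rmv_Std a i d _ (hF hy)
      rw [rmv_ins, ins_same] at h
      exact h.2.2
    · rintro c ⟨y, hy⟩
      rw [memL] at hy
      have h := rmv_Std a i d _ (hF hy)
      rw [ins_same] at h
      exact h.1
  have FL : F = (Std a d).filter (fun x => rmv i x ∈ L (x i)) := by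
    ext x
    rw [Finset.mem_filter, memL, ins_rmv]
    exact ⟨fun h => ⟨hF h, h⟩, fun h => h.2⟩
  have hM : ∀ c, ∃ M, IsSeg a' (d - c) M ∧ M.card = (L c).card := fun c =>
    (t_sega n a' (d - c)).2.2.2.1 _ (Finset.card_le_card (famL.sub c))
  choose M hMs hMc using hM
  have famM : Fam a i d M := by
    constructor
    · intro c
      exact (hMs c).1
    · intro c hc
      refine famL.le c ?_
      rw [← Finset.card_pos, ← hMc c, Finset.card_pos]
      exact hc
  -- sums over the layers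
  have sumd : ∀ (G : ℕ → Finset (Fin n →₀ ℕ)), Fam a i d G → ∀ f : (Fin (n + 1) →₀ ℕ) → ℕ,
      ∑ x ∈ (Std a d).filter (fun x => rmv i x ∈ G (x i)), f x =
        ∑ c ∈ (Finset.range (d + 1)).filter (fun c => c < a i), ∑ y ∈ G c, f (ins i c y) :=
    fun G hG f => sumU a i d G (fun c _ _ => hG.sub c) f
  have cards : ∀ (G : ℕ → Finset (Fin n →₀ ℕ)), Fam a i d G →
      (shadow a d ((Std a d).filter (fun x => rmv i x ∈ G (x i)))).card =
        ∑ c ∈ (Finset.range (d + 1 + 1)).filter (fun c => c < a i), (HH a' d G c).card := by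
    intro G hG
    rw [shadowU a i d G hG, Finset.card_eq_sum_ones,
      sumU a i (d + 1) (HH a' d G) (fun c _ _ => HH_sub a i d G hG c) (fun _ => 1)]
    refine Finset.sum_congr rfl fun c _ => ?_
    rw [← Finset.card_eq_sum_ones]
  refine ⟨(Std a d).filter (fun x => rmv i x ∈ M (x i)), Finset.filter_subset _ _, ?_, ?_, ?_⟩
  · conv_rhs => rw [FL]
    rw [Finset.card_eq_sum_ones, Finset.card_eq_sum_ones, sumd M famM, sumd L famL]
    refine Finset.sum_congr rfl fun c _ => ?_
    rw [← Finset.card_eq_sum_ones, ← Finset.card_eq_sum_ones, hMc]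
  · conv_rhs => rw [FL]
    rw [cards M famM, cards L famL]
    refine Finset.sum_le_sum fun c _ => ?_
    obtain ⟨mi, -, -, -, hmi⟩ := t_segb n
    have hs0 := hmi a' (d - c) (M c) (hMs c)
    have hsc : (shadow a' (d - c) (M c)).card ≤ (shadow a' (d - c) (L c)).card :=
      hCL (d - c) (L c) (M c) (famL.sub c) (hMs c) (hMc c).le
    have hLs : shadow a' (d - c) (L c) ⊆ HH a' d L c := fun y hy => by
      rw [mem_HH]
      exact Or.inl hy
    have hsc' := hsc.trans (Finset.card_le_card hLs)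
    by_cases hc0 : c = 0
    · have h1 : HH a' d M c ⊆ shadow a' (d - c) (M c) := by
        intro y hy
        rw [mem_HH] at hy
        rcases hy with hy | hy
        · exact hy
        · exact absurd hc0 hy.1
      exact (Finset.card_le_card h1).trans hsc'
    · have hLc : L (c - 1) ⊆ HH a' d L c := fun y hy => by
        rw [mem_HH]
        exact Or.inr ⟨hc0, hy⟩
      have hcc : (M (c - 1)).card ≤ (HH a' d L c).card := by
        rw [hMc]
        exact Finset.card_le_card hLc
      rcases Nat.lt_or_ge d c with hdc | hdc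
      · have h1 : HH a' d M c ⊆ M (c - 1) := by
          intro y hy
          rw [mem_HH, mem_shadow] at hy
          rcases hy with ⟨-, z, hz, -⟩ | hy
          · have := famM.le c ⟨z, hz⟩
            omega
          · exact hy.2
        exact (Finset.card_le_card h1).trans hcc
      · have hs1 : IsSeg a' (d - c + 1) (M (c - 1)) := by
          have := hMs (c - 1)
          rwa [show d - (c - 1) = d - c + 1 by omega] at this
        have hn := (t_sega n a' (d - c + 1)).2.2.2.2
        rcases le_total (shadow a' (d - c) (M c)).card (M (c - 1)).card with h | h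
        · have h2 := hn _ _ hs0 hs1 h
          have h1 : HH a' d M c ⊆ M (c - 1) := by
            intro y hy
            rw [mem_HH] at hy
            rcases hy with hy | hy
            · exact h2 hy
            · exact hy.2
          exact (Finset.card_le_card h1).trans hcc
        · have h2 := hn _ _ hs1 hs0 h
          have h1 : HH a' d M c ⊆ shadow a' (d - c) (M c) := by
            intro y hy
            rw [mem_HH] at hy
            rcases hy with hy | hy
            · exact hy
            · exact h2 hy.2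
          exact (Finset.card_le_card h1).trans hsc'
  · have hwt : ∀ G : Finset (Fin (n + 1) →₀ ℕ), wt a d G = ∑ x ∈ G, rk a d x := fun G => rfl
    rw [hwt, hwt]
    conv_lhs => rw [FL]
    rw [sumd M famM, sumd L famL]
    have key : ∀ c ∈ (Finset.range (d + 1)).filter (fun c => c < a i),
        ∑ y ∈ L c, rk a d (ins i c y) ≤ ∑ y ∈ M c, rk a d (ins i c y) ∧
        (M c ≠ L c → ∑ y ∈ L c, rk a d (ins i c y) < ∑ y ∈ M c, rk a d (ins i c y)) := by
      intro c hc
      rw [Finset.mem_filter, Finset.mem_range] at hc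
      refine sum_cmp (M c) (L c) (fun y => rk a d (ins i c y)) (hMc c) ?_
      intro x hx y hy
      rw [Finset.mem_sdiff] at hx hy
      have hyS := famL.sub c hy.1
      have hne : x ≠ y := fun h => hx.2 (h ▸ hy.1)
      refine rk_lt a d _ _ (ins_Std a i d c y (by omega) hc.2 hyS) (lexgt_ins i c x y ?_)
      rcases (t_sega n a' (d - c)).1 x y hne with h | h
      · exact h
      · exact absurd ((hMs c).2 x hx.1 y hyS h) hy.2
    -- some layer is not a segment
    have hex : ∃ c ∈ (Finset.range (d + 1)).filter (fun c => c < a i), M c ≠ L c := by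
      by_contra hcon
      push Not at hcon
      apply hcmp
      intro y hy x hx hxy hlt
      have hy' := rmv_Std a i d y (hF hy)
      have hx' := rmv_Std a i d x hx
      have hmem : y i ∈ (Finset.range (d + 1)).filter (fun c => c < a i) := by
        rw [Finset.mem_filter, Finset.mem_range]
        exact ⟨by omega, hy'.2.1⟩
      have hML := hcon _ hmem
      have h1 : rmv i y ∈ M (y i) := by
        rw [hML, memL, ins_rmv]
        exact hy
      have h2 : rmv i x ∈ M (y i) := by
        refine (hMs (y i)).2 _ h1 _ ?_ (lexgt_rmv i x y hxy hlt)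
        rw [← hxy]
        exact hx'.2.2
      rw [hML, memL, ← hxy, ins_rmv] at h2
      exact h2
    obtain ⟨c, hc, hne⟩ := hex
    exact Finset.sum_lt_sum (fun c hc => (key c hc).1) ⟨c, hc, (key c hc).2 hne⟩

end CMP_

theorem p_CMP : T_CMP := CMP_.main

end Pool.Agent.EGT
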