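import Pool.Agent.EGT.Targets
import Pool.Agent.EGS.P_AVO
import Pool.Agent.EGS.P_ACY
import Pool.Agent.EGS.P_RED

set_option autoImplicit false
open MvPolynomial hiding R

/-!
# Project EGT, target GLF: a generic linear form for `n` forms in `n + 1` variables
-/

namespace Pool.Agent.EGT

open Pool.Agent.EGU Pool.Agent.EGS

universe u

namespace GLF_

variable {K : Type u} [Field K] {N : ℕ}

/-- The constant coefficient of the elements of `J f` is zero. -/
theorem one_notMem {m : ℕ} (f : Fin m → R K N) (a : Fin m → ℕ) (hf : CI f a) :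
    (1 : R K N) ∉ J f := by
  intro h
  have h1 : J f ≤ RingHom.ker (constantCoeff (R := K) (σ := Fin N)) := by
    unfold J
    rw [Ideal.span_le]
    rintro q ⟨i, rfl⟩
    rw [SetLike.mem_coe, RingHom.mem_ker, constantCoeff_eq]
    refine (hf.hom i).coeff_eq_zero ?_
    have h2 := hf.pos i
    simp
    omega
  have h3 := h1 h
  rw [RingHom.mem_ker, map_one] at h3
  exact one_ne_zero h3

/-- A linear form which is a nonzerodivisor modulo `J f` is a nonzerodivisor modulo the ideal of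
all but the last element; homogeneous case. -/
theorem homog {m : ℕ} (f : Fin (m + 1) → R K N) (a : Fin (m + 1) → ℕ) (hf : CI f a)
    (l : R K N) (hl : ∀ p, l * p ∈ J f → p ∈ J f) :
    ∀ e : ℕ, ∀ p : R K N, p.IsHomogeneous e → l * p ∈ J (f ∘ Fin.castSucc) →
      p ∈ J (f ∘ Fin.castSucc) := by
  obtain ⟨hJ, hci⟩ := t_cir K N m f a
  obtain ⟨hc1, ha, hg, hreg⟩ := hci.mp hf
  intro e
  induction e using Nat.strong_induction_on with
  | _ e ih =>
    intro p hp hlp
    have h1 : p ∈ J f := by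
      apply hl
      rw [hJ]
      exact Ideal.mem_sup_left hlp
    rw [hJ] at h1
    obtain ⟨y, hy, z, hz, hyz⟩ := Submodule.mem_sup.mp h1
    obtain ⟨c, hc⟩ := Ideal.mem_span_singleton'.mp hz
    have h2 := (t_jd K N m (f ∘ Fin.castSucc) (a ∘ Fin.castSucc) hc1.hom).2 y hy e
    have h3 : homogeneousComponent e p = p := homogeneousComponent_eq_self hp
    have h4 : p = homogeneousComponent e y +
        (if a (Fin.last m) ≤ e then homogeneousComponent (e - a (Fin.last m)) c else 0) *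
          f (Fin.last m) := by
      rw [← JD_homComp_mul c (f (Fin.last m)) (a (Fin.last m)) hg e, ← map_add, hc, hyz, h3]
    by_cases hle : a (Fin.last m) ≤ e
    · rw [if_pos hle] at h4
      have h5 : (l * homogeneousComponent (e - a (Fin.last m)) c) * f (Fin.last m) ∈
          J (f ∘ Fin.castSucc) := by
        have h6 : (l * homogeneousComponent (e - a (Fin.last m)) c) * f (Fin.last m) =
            l * p - l * homogeneousComponent e y := by
          rw [h4]
          ring
        rw [h6]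
        exact Ideal.sub_mem _ hlp (Ideal.mul_mem_left _ _ h2)
      have h7 := ih (e - a (Fin.last m)) (by omega) _
        (homogeneousComponent_isHomogeneous _ c) (hreg _ h5)
      rw [h4]
      exact Ideal.add_mem _ h2 (Ideal.mul_mem_right _ _ h7)
    · rw [if_neg hle, zero_mul, add_zero] at h4
      rw [h4]
      exact h2

/-- The general case. -/
theorem gen {m : ℕ} (f : Fin (m + 1) → R K N) (a : Fin (m + 1) → ℕ) (hf : CI f a)
    (l : R K N) (hl1 : l.IsHomogeneous 1) (hl : ∀ p, l * p ∈ J f → p ∈ J f) (p : R K N)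
    (hp : l * p ∈ J (f ∘ Fin.castSucc)) : p ∈ J (f ∘ Fin.castSucc) := by
  have hc1 := ((t_cir K N m f a).2.mp hf).1
  rw [← sum_homogeneousComponent p]
  refine Ideal.sum_mem _ fun e _ => ?_
  refine homog f a hf l hl e _ (homogeneousComponent_isHomogeneous e p) ?_
  have h1 := (t_jd K N m (f ∘ Fin.castSucc) (a ∘ Fin.castSucc) hc1.hom).2 _ hp (e + 1)
  rw [mul_comm, JD_homComp_mul p l 1 hl1 (e + 1), if_pos (by omega), Nat.add_sub_cancel,
    mul_comm] at h1
  exact h1

section
variable {n : ℕ} (l : R K (n + 1)) (θ : R K (n + 1) →ₐ[K] R K n)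

/-- The ideals correspond. -/
theorem iff_mem (hs : Function.Surjective θ) (hk : ∀ p, θ p = 0 ↔ ∃ q, p = l * q) {m : ℕ}
    (f : Fin m → R K (n + 1)) (p : R K (n + 1)) :
    θ p ∈ J (fun i => θ (f i)) ↔ ∃ q, p - l * q ∈ J f := by
  have h0 : J (fun i => θ (f i)) = (J f).map θ := by
    unfold J
    rw [Ideal.map_span, ← Set.range_comp]
    rfl
  constructor
  · intro h
    rw [h0] at h
    obtain ⟨p', hp', h1⟩ := (Ideal.mem_map_iff_of_surjective θ hs).mp h
    obtain ⟨q, hq⟩ := (hk (p - p')).mp (by rw [map_sub, h1, sub_self])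
    refine ⟨q, ?_⟩
    rw [← hq, sub_sub_cancel]
    exact hp'
  · rintro ⟨q, hq⟩
    have h1 : θ (l * q) = 0 := (hk _).mpr ⟨q, rfl⟩
    have h2 : θ p = θ (p - l * q) := by rw [map_sub, h1, sub_zero]
    rw [h2, h0]
    exact Ideal.mem_map_of_mem θ hq

/-- The images form a regular sequence. -/
theorem ci_map (hs : Function.Surjective θ) (hk : ∀ p, θ p = 0 ↔ ∃ q, p = l * q)
    (hd : ∀ d, ∀ p : R K (n + 1), p.IsHomogeneous d → (θ p).IsHomogeneous d)
    (hl1 : l.IsHomogeneous 1) : ∀ (m : ℕ) (f : Fin m → R K (n + 1)) (a : Fin m → ℕ), CI f a →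
      (∀ p, l * p ∈ J f → p ∈ J f) → CI (fun i => θ (f i)) a := by
  intro m
  induction m with
  | zero =>
    intro f a _ _
    exact ⟨fun i => i.elim0, fun i => i.elim0, fun i => i.elim0⟩
  | succ m ih =>
    intro f a hf hl
    obtain ⟨hJ, hci⟩ := t_cir K (n + 1) m f a
    obtain ⟨hc1, ha, hg, hreg⟩ := hci.mp hf
    have hci' := (t_cir K n m (fun i => θ (f i)) a).2
    have hl' := gen f a hf l hl1 hl
    refine hci'.mpr ⟨ih (f ∘ Fin.castSucc) (a ∘ Fin.castSucc) hc1 hl', ha, hd _ _ hg, ?_⟩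
    intro p hp
    obtain ⟨p', rfl⟩ := hs p
    have h1 : θ (p' * f (Fin.last m)) ∈ J (fun i => θ ((f ∘ Fin.castSucc) i)) := by
      rw [map_mul]
      exact hp
    obtain ⟨q, hq⟩ := (iff_mem l θ hs hk (f ∘ Fin.castSucc) _).mp h1
    have h2 : q ∈ J f := by
      apply hl
      rw [hJ]
      have h3 : l * q = p' * f (Fin.last m) - (p' * f (Fin.last m) - l * q) := by ring
      rw [h3]
      exact Ideal.sub_mem _ (Ideal.mem_sup_right (Ideal.mul_mem_left _ _
        (Ideal.mem_span_singleton_self _))) (Ideal.mem_sup_left hq)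
    rw [hJ] at h2
    obtain ⟨y, hy, z, hz, hyz⟩ := Submodule.mem_sup.mp h2
    obtain ⟨c, hc⟩ := Ideal.mem_span_singleton'.mp hz
    have h4 : (p' - l * c) * f (Fin.last m) ∈ J (f ∘ Fin.castSucc) := by
      have h5 : (p' - l * c) * f (Fin.last m) = (p' * f (Fin.last m) - l * q) + l * y := by
        rw [← hyz, ← hc]
        ring
      rw [h5]
      exact Ideal.add_mem _ hq (Ideal.mul_mem_left _ _ hy)
    exact (iff_mem l θ hs hk (f ∘ Fin.castSucc) p').mpr ⟨c, hreg _ h4⟩

end

/-- A linear form which is a nonzerodivisor. -/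
theorem ex_lin [Infinite K] (n : ℕ) (f : Fin n → R K (n + 1)) (a : Fin n → ℕ) (hf : CI f a) :
    ∃ l ∈ Rd K (n + 1) 1, ∀ p, l * p ∈ J f → p ∈ J f := by
  by_contra hcon
  push Not at hcon
  obtain ⟨h, hh, hv⟩ := p_AVO K (n + 1) (J f) (Rd K (n + 1) 1) (fun v hv => by
    obtain ⟨p, hp, hp'⟩ := hcon v hv
    exact ⟨p, hp', hp⟩)
  have hX := t_xci K (n + 1) (fun _ => 1) (fun _ => le_refl 1)
  have hex := p_ACY K (n + 1) (n + 1) n (fun i => (X i : R K (n + 1)) ^ 1) (fun _ => 1) f a hX hf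
    0 (by omega)
  obtain ⟨b, hb⟩ := hex (fun _ => h) (by
    intro T _ hT
    obtain ⟨t, rfl⟩ := Finset.card_eq_one.mp hT
    unfold cob
    rw [Finset.sum_singleton]
    refine Ideal.mul_mem_left _ _ (hv _ ?_)
    change (X t : R K (n + 1)) ^ 1 ∈ Rd K (n + 1) 1
    rw [pow_one]
    exact isHomogeneous_X K t)
  have h1 := hb ∅ (Finset.empty_subset _) Finset.card_empty
  unfold cob at h1
  rw [Finset.sum_empty, sub_zero] at h1
  exact hh h1

end GLF_

open GLF_ in
theorem p_GLF : T_GLF.{u} := by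
  intro K _ _ n f a hf
  obtain ⟨l, hl1, hl⟩ := ex_lin n f a hf
  have hne : l ≠ 0 := by
    intro h
    apply one_notMem f a hf
    apply hl
    rw [h, zero_mul]
    exact Ideal.zero_mem _
  obtain ⟨c, hc⟩ := RED_.lin l hl1
  obtain ⟨i0, h0⟩ : ∃ i0, c i0 ≠ 0 := by
    by_contra h
    push Not at h
    apply hne
    rw [hc]
    exact Finset.sum_eq_zero fun i _ => by rw [h i, zero_smul]
  have hk : ∀ p, RED_.el c i0 p = 0 ↔ ∃ q, p = l * q := by
    intro p
    constructor
    · intro h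
      have h1 := RED_.sub_mem c i0 h0 p
      rw [h, map_zero, sub_zero, ← hc] at h1
      obtain ⟨q, hq⟩ := Ideal.mem_span_singleton'.mp h1
      exact ⟨q, by rw [mul_comm]; exact hq.symm⟩
    · rintro ⟨q, rfl⟩
      rw [map_mul, hc, RED_.el_lin c i0 h0, zero_mul]
  have hs : Function.Surjective (RED_.el c i0) := fun q => ⟨RED_.sc i0 q, RED_.el_sc c i0 q⟩
  exact ⟨l, RED_.el c i0, hl1, fun d p hp => RED_.el_deg c i0 d p hp,
    fun d q hq => ⟨RED_.sc i0 q, RED_.sc_deg i0 d q hq, RED_.el_sc c i0 q⟩, hk, hl,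
    ci_map l _ hs hk (fun d p hp => RED_.el_deg c i0 d p hp) hl1 n f a hf hl,
    iff_mem l _ hs hk f⟩

end Pool.Agent.EGT
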