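import Pool.Agent.EGT.Targets

set_option autoImplicit false

namespace Pool.Agent.EGT

open Pool.Agent.EGU Pool.Agent.EGS

universe u

namespace HTW_

open Finset

theorem mem {n : ℕ} {a : Fin n → ℕ} {x : Fin n →₀ ℕ} (h : x ∈ Std a 2) :
    (∑ i, x i = 2) ∧ ∀ i, x i < a i := by
  unfold Std at h
  rw [Finset.mem_filter, Finset.mem_finsuppAntidiag] at h
  exact ⟨h.1.1, h.2⟩

/-- The support has one or two elements and determines the exponent vector. -/
theorem supp {n : ℕ} {x : Fin n →₀ ℕ} (h : ∑ i, x i = 2) :
    (∃ i, x.support = {i} ∧ x i = 2) ∨ (x.support.card = 2 ∧ ∀ i ∈ x.support, x i = 1) := by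
  have hs : ∑ i ∈ x.support, x i = 2 := by
    rw [← h]
    apply Finset.sum_subset (Finset.subset_univ _)
    intro i _ hi
    exact Finsupp.notMem_support_iff.mp hi
  have h1 : ∀ i ∈ x.support, 1 ≤ x i := by
    intro i hi
    exact Nat.one_le_iff_ne_zero.mpr (Finsupp.mem_support_iff.mp hi)
  have hc : x.support.card ≤ 2 := by
    have := Finset.sum_le_sum h1
    simp only [Finset.sum_const, smul_eq_mul, mul_one] at this
    omega
  have hp : 0 < x.support.card := by
    rcases Nat.eq_zero_or_pos x.support.card with h0 | h0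
    · rw [Finset.card_eq_zero] at h0
      rw [h0] at hs
      simp at hs
    · exact h0
  rcases Nat.lt_or_ge x.support.card 2 with h2 | h2
  · left
    have h3 : x.support.card = 1 := by omega
    obtain ⟨i, hi⟩ := Finset.card_eq_one.mp h3
    refine ⟨i, hi, ?_⟩
    rw [hi] at hs
    simpa using hs
  · right
    have h3 : x.support.card = 2 := by omega
    refine ⟨h3, ?_⟩
    obtain ⟨i, j, hij, hi⟩ := Finset.card_eq_two.mp h3
    rw [hi] at hs
    rw [Finset.sum_pair hij] at hs
    have hxi := h1 i (by rw [hi]; simp)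
    have hxj := h1 j (by rw [hi]; simp)
    intro k hk
    rw [hi] at hk
    simp only [Finset.mem_insert, Finset.mem_singleton] at hk
    rcases hk with rfl | rfl <;> omega

theorem inj {n : ℕ} {x y : Fin n →₀ ℕ} (hx : ∑ i, x i = 2) (hy : ∑ i, y i = 2)
    (h : x.support = y.support) : x = y := by
  ext k
  by_cases hk : k ∈ x.support
  · have hk' : k ∈ y.support := h ▸ hk
    rcases supp hx with ⟨i, hi, hi2⟩ | ⟨hc, h1⟩
    · rcases supp hy with ⟨j, hj, hj2⟩ | ⟨hc', _⟩
      · rw [hi] at hk
        rw [hj] at hk'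
        simp only [Finset.mem_singleton] at hk hk'
        subst hk
        subst hk'
        omega
      · rw [← h, hi] at hc'
        simp at hc'
    · rcases supp hy with ⟨j, hj, _⟩ | ⟨_, h1'⟩
      · rw [h, hj] at hc
        simp at hc
      · rw [h1 k hk, h1' k hk']
  · have hk' : k ∉ y.support := h ▸ hk
    rw [Finsupp.notMem_support_iff.mp hk, Finsupp.notMem_support_iff.mp hk']

theorem main (n : ℕ) (a : Fin n → ℕ) :
    (Std a 2).card ≤ n.choose 2 + (Finset.univ.filter fun i : Fin n => 3 ≤ a i).card := by
  have h1 : (Std a 2).card = ((Std a 2).image fun x => x.support).card := by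
    rw [Finset.card_image_of_injOn]
    intro x hx y hy hxy
    exact inj (mem (Finset.mem_coe.mp hx)).1 (mem (Finset.mem_coe.mp hy)).1 hxy
  rw [h1]
  have h2 : (Std a 2).image (fun x => x.support) ⊆
      Finset.powersetCard 2 Finset.univ ∪
        (Finset.univ.filter fun i : Fin n => 3 ≤ a i).image fun i => {i} := by
    intro s hs
    rw [Finset.mem_image] at hs
    obtain ⟨x, hx, rfl⟩ := hs
    obtain ⟨hx1, hx2⟩ := mem hx
    rw [Finset.mem_union]
    rcases supp hx1 with ⟨i, hi, hi2⟩ | ⟨hc, _⟩
    · right
      rw [Finset.mem_image]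
      refine ⟨i, ?_, hi.symm⟩
      rw [Finset.mem_filter]
      have := hx2 i
      exact ⟨Finset.mem_univ _, by omega⟩
    · left
      rw [Finset.mem_powersetCard]
      exact ⟨Finset.subset_univ _, hc⟩
  refine (Finset.card_le_card h2).trans ((Finset.card_union_le _ _).trans ?_)
  rw [Finset.card_powersetCard, Finset.card_univ, Fintype.card_fin]
  exact Nat.add_le_add_left Finset.card_image_le _

end HTW_

theorem p_HTW : T_HTW := by
  intro n a ha
  have h1 := HTW_.main n a
  have h2 : (Finset.univ.filter fun i : Fin n => 3 ≤ a i).card + n ≤ S a n := by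
    unfold S
    have h3 : (Finset.univ.filter fun i : Fin n => (i : ℕ) < n) = Finset.univ := by
      rw [Finset.filter_eq_self]
      intro i _
      exact i.2
    rw [h3, Finset.card_filter]
    have h4 : ∑ _i : Fin n, 1 = n := by simp
    have h5 : (∑ i : Fin n, if 3 ≤ a i then 1 else 0) + ∑ _i : Fin n, 1 ≤
        ∑ i : Fin n, (a i - 1) := by
      rw [← Finset.sum_add_distrib]
      apply Finset.sum_le_sum
      intro i _
      have := ha i
      split_ifs <;> omega
    rw [h4] at h5
    exact h5
  omega

end Pool.Agent.EGT
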