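import Pool.Agent.EGT.Targets

set_option autoImplicit false
open MvPolynomial hiding R

/-!
Target IDG of the project EGT: from the growth inequality to ideals, all degrees.
-/

namespace Pool.Agent.EGT

open Pool.Agent.EGU Pool.Agent.EGS

universe u

namespace IDG_

lemma sh_mono {n : ℕ} {a : Fin n → ℕ} {d v G G' : ℕ} (h : Sh a d v G) (hG : G ≤ G') :
    Sh a d v G' := by
  obtain ⟨M, h1, h2, h3⟩ := h
  exact ⟨M, h1, h2, h3.trans hG⟩

section
variable {K : Type u} [Field K] {n : ℕ}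

lemma mul_hom {p q : R K n} {e k m : ℕ} (hp : p ∈ Rd K n e) (hq : q ∈ Rd K n k)
    (h : e + k = m) : p * q ∈ Rd K n m := by
  have h1 : (p * q).IsHomogeneous (e + k) := MvPolynomial.IsHomogeneous.mul hp hq
  rw [h] at h1
  exact h1

/-- The linked space is stable: `R_1 W' + J ≤ orth I_d`. -/
lemma up_orth (f : Fin n → R K n) (I : Ideal (R K n)) (hfI : ∀ i, f i ∈ I) (d d' : ℕ) :
    up f d' (orth f d' (Rd K n (d + 1) ⊓ I.restrictScalars K)) ≤
      orth f (d' + 1) (Rd K n d ⊓ I.restrictScalars K) := by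
  have hJ : J f ≤ I := by
    unfold J
    rw [Ideal.span_le]
    rintro _ ⟨i, rfl⟩
    exact hfI i
  unfold up
  refine sup_le ?_ ?_
  · refine Submodule.mul_le.mpr fun p hp q hq => ?_
    refine ⟨mul_hom hp hq.1 (by omega), fun w hw => ?_⟩
    have h9 : q * (p * w) ∈ J f :=
      hq.2 _ ⟨mul_hom hp hw.1 (by omega), I.mul_mem_left p hw.2⟩
    have h10 : p * q * w = q * (p * w) := by ring
    rw [h10]
    exact h9
  · intro x hx
    exact ⟨hx.1, fun w _ => Ideal.mul_mem_right _ _ hx.2⟩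

/-- Forms of degree `2` of `I` annihilate the linked space. -/
lemma two_orth (h_SOK : T_SOK.{u}) (f : Fin n → R K n) (a : Fin n → ℕ) (hf : CI f a)
    (hm : Monotone a) (I : Ideal (R K n)) (d d' : ℕ) (hdd : d + d' + 1 = S a n) :
    Rd K n 2 ⊓ I.restrictScalars K ≤
      orth f 2 (orth f d' (Rd K n (d + 1) ⊓ I.restrictScalars K)) := by
  obtain ⟨s1, s2⟩ := h_SOK K n f a hf hm
  rintro h ⟨hh1, hh2⟩
  refine ⟨hh1, fun w hw => ?_⟩
  have hdeg : h * w ∈ Rd K n (d' + 2) := mul_hom hh1 hw.1 (by omega)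
  by_cases hc : d' + 2 ≤ S a n
  · refine s1 (S a n - (d' + 2)) (d' + 2) (by omega) _ hdeg fun b hb => ?_
    have h1 : w * (b * h) ∈ J f :=
      hw.2 _ ⟨mul_hom hb hh1 (by omega), I.mul_mem_left b hh2⟩
    have h2 : b * (h * w) = w * (b * h) := by ring
    rw [h2]
    exact h1
  · have h3 := s2 (d' + 2) (by omega)
    have h4 : h * w ∈ Jd f (d' + 2) := by
      rw [h3]
      exact hdeg
    exact h4.2

end

end IDG_

open IDG_ in
theorem p_IDG (h_SOK : T_SOK.{u}) : T_IDG.{u} := by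
  intro K _ n N a hm h2a hEA f hf I hfI hdim d
  have h1a : ∀ i, 1 ≤ a i := fun i => le_trans (by norm_num) (h2a i)
  have hs : ∀ e, vI f I e + qI I e = (Std a e).card := by
    intro e
    obtain ⟨h3, h4, h5⟩ := basic t_dimr f I hfI e
    have := a_hf K n f a hf e
    omega
  by_cases hnd : S a n ≤ d
  · have h1 := (t_std n a h1a).2.2.2 (d + 1) (by omega)
    have h2 := hs d
    obtain ⟨M, hM1, hM2⟩ := (t_sega n a d).2.2.2.1 (vI f I d) (by omega)
    refine ⟨M, hM1, hM2, ?_⟩
    have h3 : shadow a d M ⊆ Std a (d + 1) := Finset.filter_subset _ _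
    have h4 := Finset.card_le_card h3
    rw [h1, Finset.card_empty] at h4
    omega
  · obtain ⟨d', hdd⟩ : ∃ d', d + d' + 1 = S a n := ⟨S a n - 1 - d, by omega⟩
    obtain ⟨b1, b2, b3⟩ := basic t_dimr f I hfI d
    obtain ⟨b4, b5, b6⟩ := basic t_dimr f I hfI (d + 1)
    have p1 := a_perf K n f a hf hm (d + 1) d' (by omega) _ b4 inf_le_left
    have p2 := a_perf K n f a hf hm d (d' + 1) (by omega) _ b1 inf_le_left
    have e1 : hI I d = Module.finrank K ↥(Rd K n d ⊓ I.restrictScalars K) := rfl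
    have e2 : hI I (d + 1) = Module.finrank K ↥(Rd K n (d + 1) ⊓ I.restrictScalars K) := rfl
    have u1 := (t_upl K n n f a hf.hom (d + 1) (Rd K n (d + 1) ⊓ I.restrictScalars K)
      inf_le_left).2.2.2.2.2.2.1 d'
    have u2 := (t_upl K n n f a hf.hom d (Rd K n d ⊓ I.restrictScalars K)
      inf_le_left).2.2.2.2.2.2.1 (d' + 1)
    have u3 := (t_upl K n n f a hf.hom d'
      (orth f d' (Rd K n (d + 1) ⊓ I.restrictScalars K)) u1.2).1
    have u4 := (t_upl K n n f a hf.hom d'
      (orth f d' (Rd K n (d + 1) ⊓ I.restrictScalars K)) u1.2).2.2.2.2.2.2.1 2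
    have f1 := fin_le t_dimr u2.2
    have f2 := fin_le t_dimr u4.2
    have h9 := Submodule.finrank_mono (up_orth f I hfI d d')
    have h10 := Submodule.finrank_mono (two_orth h_SOK f a hf hm I d d' hdd)
    have hG := hEA d' f hf _ u1.1 u1.2 (by omega)
    unfold GoodA at hG
    have e3 : Module.finrank K ↥(orth f d' (Rd K n (d + 1) ⊓ I.restrictScalars K)) -
        Module.finrank K ↥(Jd f d') = qI I (d + 1) := by omega
    rw [e3] at hG
    have hG' : Sh a d' (qI I (d + 1)) (qI I d) := sh_mono hG (by omega)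
    have h7 := a_shd n a d d' (vI f I d) (qI I (d + 1)) (qI I d) h1a
      (by omega) hG' (by rw [hs d])
    have h8 : (Std a (d + 1)).card - qI I (d + 1) = vI f I (d + 1) := by
      have := hs (d + 1)
      omega
    rwa [h8] at h7

end Pool.Agent.EGT
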