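import Pool.Agent.EGT.Targets

set_option autoImplicit false
open MvPolynomial hiding R

/-!
Target KCG of the project EGT: the combination of the tails.
-/

namespace Pool.Agent.EGT

open Pool.Agent.EGU Pool.Agent.EGS

universe u

namespace KCG_

variable {n : ℕ}

theorem mem_Std (a : Fin n → ℕ) (d : ℕ) (x : Fin n →₀ ℕ) :
    x ∈ Std a d ↔ (∑ i, x i) = d ∧ ∀ i, x i < a i := by
  unfold Std
  rw [Finset.mem_filter, Finset.mem_finsuppAntidiag]
  constructor
  · rintro ⟨⟨h1, -⟩, h2⟩
    exact ⟨h1, h2⟩
  · rintro ⟨h1, h2⟩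
    exact ⟨⟨h1, Finset.subset_univ _⟩, h2⟩

theorem mem_shadow (a : Fin n → ℕ) (d : ℕ) (M : Finset (Fin n →₀ ℕ)) (x : Fin n →₀ ℕ) :
    x ∈ shadow a d M ↔ x ∈ Std a (d + 1) ∧ ∃ y ∈ M, y ≤ x := by
  classical
  unfold shadow
  rw [Finset.mem_filter]

theorem cons_mem_Std (a : Fin (n + 1) → ℕ) (d c : ℕ) (y : Fin n →₀ ℕ)
    (hy : y ∈ Std (a ∘ Fin.succ) d) (hc : c < a 0) : Finsupp.cons c y ∈ Std a (d + c) := by
  rw [mem_Std] at hy ⊢
  refine ⟨?_, ?_⟩
  · rw [Fin.sum_univ_succ, Finsupp.cons_zero]
    simp only [Finsupp.cons_succ]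
    rw [hy.1]
    ring
  · intro i
    refine Fin.cases ?_ (fun j => ?_) i
    · rw [Finsupp.cons_zero]
      exact hc
    · rw [Finsupp.cons_succ]
      exact hy.2 j

theorem tail_mem_Std (a : Fin (n + 1) → ℕ) (d c : ℕ) (x : Fin (n + 1) →₀ ℕ)
    (hx : x ∈ Std a (d + c)) (hc : x 0 = c) : Finsupp.tail x ∈ Std (a ∘ Fin.succ) d := by
  rw [mem_Std] at hx ⊢
  refine ⟨?_, ?_⟩
  · have h := hx.1
    rw [Fin.sum_univ_succ, hc] at h
    simp only [Finsupp.tail_apply]
    omega
  · intro j
    rw [Finsupp.tail_apply]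
    exact hx.2 j.succ

theorem main (h_CLT : T_CLT) : T_KCG := by
  classical
  intro n a ha h2 d k0 k1 u0 u1 hS0 hS1
  obtain ⟨M0, hM0, hk0, hu0⟩ := hS0
  obtain ⟨M1, hM1, hk1, hu1⟩ := hS1
  have ha0 := h2 0
  obtain ⟨c, hc⟩ : ∃ c, a 0 = c + 2 := ⟨a 0 - 2, by omega⟩
  have hc1 : a 0 - 1 = c + 1 := by omega
  rw [hc1]
  set f0 : (Fin n →₀ ℕ) → (Fin (n + 1) →₀ ℕ) := fun y => Finsupp.cons (c + 1) y with hf0
  set f1 : (Fin n →₀ ℕ) → (Fin (n + 1) →₀ ℕ) := fun y => Finsupp.cons c y with hf1
  have inj0 : Function.Injective f0 := fun x y h => by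
    have := congrArg Finsupp.tail h
    simpa [hf0] using this
  have inj1 : Function.Injective f1 := fun x y h => by
    have := congrArg Finsupp.tail h
    simpa [hf1] using this
  set F : Finset (Fin (n + 1) →₀ ℕ) := M0.image f0 ∪ M1.image f1 with hF
  have hFs : F ⊆ Std a (d + (c + 1)) := by
    intro x hx
    rw [hF, Finset.mem_union, Finset.mem_image, Finset.mem_image] at hx
    rcases hx with ⟨y, hy, rfl⟩ | ⟨y, hy, rfl⟩
    · exact cons_mem_Std a d (c + 1) y (hM0.1 hy) (by omega)
    · have := cons_mem_Std a (d + 1) c y (hM1.1 hy) (by omega)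
      rw [show d + (c + 1) = d + 1 + c by ring]
      exact this
  have hdis : Disjoint (M0.image f0) (M1.image f1) := by
    rw [Finset.disjoint_left]
    intro x hx hx'
    rw [Finset.mem_image] at hx hx'
    obtain ⟨y, -, rfl⟩ := hx
    obtain ⟨z, -, hz⟩ := hx'
    have h0 := congrArg (fun w : Fin (n + 1) →₀ ℕ => w 0) hz
    simp only [hf0, hf1, Finsupp.cons_zero] at h0
    omega
  have hFc : F.card = k0 + k1 := by
    rw [hF, Finset.card_union_of_disjoint hdis, Finset.card_image_of_injective _ inj0,
      Finset.card_image_of_injective _ inj1, hk0, hk1]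
  obtain ⟨M, hM, hMc⟩ := (t_sega (n + 1) a (d + (c + 1))).2.2.2.1 (k0 + k1)
    (hFc ▸ Finset.card_le_card hFs)
  refine ⟨M, hM, hMc, ?_⟩
  have hcl := h_CLT (n + 1) a ha (d + (c + 1)) F M hFs hM (by omega)
  refine hcl.trans ?_
  -- the shadow of `F`
  set U : Finset (Fin n →₀ ℕ) := shadow (a ∘ Fin.succ) d M0 ∪ M1 with hU
  have hsub : shadow a (d + (c + 1)) F ⊆
      U.image f0 ∪ (shadow (a ∘ Fin.succ) (d + 1) M1).image f1 := by
    intro x hx
    rw [mem_shadow] at hx
    obtain ⟨hx, y, hy, hle⟩ := hx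
    have hxs := (mem_Std _ _ _).1 hx
    have hx0 : x 0 < c + 2 := by
      have := hxs.2 0
      omega
    rw [hF, Finset.mem_union, Finset.mem_image, Finset.mem_image] at hy
    rw [Finset.mem_union, Finset.mem_image, Finset.mem_image]
    rcases hy with ⟨z, hz, rfl⟩ | ⟨z, hz, rfl⟩
    · left
      have h0 : c + 1 ≤ x 0 := by
        have := hle 0
        simpa [hf0] using this
      have h0' : x 0 = c + 1 := by omega
      refine ⟨Finsupp.tail x, ?_, ?_⟩
      · rw [hU, Finset.mem_union, mem_shadow]
        left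
        refine ⟨tail_mem_Std a (d + 1) (c + 1) x ?_ h0', z, hz, ?_⟩
        · rw [show d + 1 + (c + 1) = d + (c + 1) + 1 by ring]
          exact hx
        · intro j
          have := hle j.succ
          rw [Finsupp.tail_apply]
          simpa [hf0] using this
      · simp only [hf0]
        rw [← h0']
        exact Finsupp.cons_tail x
    · have h0 : c ≤ x 0 := by
        have := hle 0
        simpa [hf1] using this
      have hzt : z ≤ Finsupp.tail x := by
        intro j
        have := hle j.succ
        rw [Finsupp.tail_apply]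
        simpa [hf1] using this
      rcases Nat.lt_or_ge c (x 0) with h | h
      · left
        have h0' : x 0 = c + 1 := by omega
        refine ⟨Finsupp.tail x, ?_, ?_⟩
        · rw [hU, Finset.mem_union]
          right
          have hs1 : Finsupp.tail x ∈ Std (a ∘ Fin.succ) (d + 1) := by
            refine tail_mem_Std a (d + 1) (c + 1) x ?_ h0'
            rw [show d + 1 + (c + 1) = d + (c + 1) + 1 by ring]
            exact hx
          have hs2 := hM1.1 hz
          rw [mem_Std] at hs1 hs2
          have heq : z = Finsupp.tail x := by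
            by_contra hne
            have hex : ∃ j, z j < (Finsupp.tail x) j := by
              by_contra hcon
              push Not at hcon
              exact hne (le_antisymm hzt (fun j => hcon j))
            obtain ⟨j, hj⟩ := hex
            have := Finset.sum_lt_sum (s := Finset.univ) (f := fun i => z i)
              (g := fun i => (Finsupp.tail x) i) (fun i _ => hzt i) ⟨j, Finset.mem_univ _, hj⟩
            rw [hs1.1, hs2.1] at this
            exact lt_irrefl _ this
          rw [← heq]
          exact hz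
        · simp only [hf0]
          rw [← h0']
          exact Finsupp.cons_tail x
      · right
        have h0' : x 0 = c := by omega
        refine ⟨Finsupp.tail x, ?_, ?_⟩
        · rw [mem_shadow]
          refine ⟨tail_mem_Std a (d + 1 + 1) c x ?_ h0', z, hz, hzt⟩
          rw [show d + 1 + 1 + c = d + (c + 1) + 1 by ring]
          exact hx
        · simp only [hf1]
          rw [← h0']
          exact Finsupp.cons_tail x
  have hUc : U.card ≤ max u0 k1 := by
    obtain ⟨mi, -, -, -, hmi⟩ := t_segb n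
    have hs0 := hmi (a ∘ Fin.succ) d M0 hM0
    have hn := (t_sega n (a ∘ Fin.succ) (d + 1)).2.2.2.2
    rcases le_total (shadow (a ∘ Fin.succ) d M0).card M1.card with h | h
    · have := hn _ _ hs0 hM1 h
      rw [hU, Finset.union_eq_right.2 this, hk1]
      exact le_max_right _ _
    · have := hn _ _ hM1 hs0 h
      rw [hU, Finset.union_eq_left.2 this]
      exact hu0.trans (le_max_left _ _)
  calc (shadow a (d + (c + 1)) F).card
      ≤ (U.image f0 ∪ (shadow (a ∘ Fin.succ) (d + 1) M1).image f1).card :=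
        Finset.card_le_card hsub
    _ ≤ (U.image f0).card + ((shadow (a ∘ Fin.succ) (d + 1) M1).image f1).card :=
        Finset.card_union_le _ _
    _ ≤ U.card + (shadow (a ∘ Fin.succ) (d + 1) M1).card :=
        Nat.add_le_add Finset.card_image_le Finset.card_image_le
    _ ≤ max u0 k1 + u1 := Nat.add_le_add hUc hu1

end KCG_

theorem p_KCG (h_CLT : T_CLT) : T_KCG := KCG_.main h_CLT

end Pool.Agent.EGT
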