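import Pool.Agent.EGT.Targets

set_option autoImplicit false
open MvPolynomial hiding R

/-!
# Project EGT: the known sequences, and the theorem
-/

namespace Pool.Agent.EGT

open Pool.Agent.EGU Pool.Agent.EGS

universe u

namespace KNW_

theorem S_cast {n : ℕ} (a : Fin (n + 1) → ℕ) (j : ℕ) (hj : j ≤ n) :
    S (a ∘ Fin.castSucc) j = S a j := by
  have h := (t_num (n + 1) a).2.2.2.2.2.2.2.1 n (Nat.le_succ n) j hj
  exact h

theorem S_last {n : ℕ} (a : Fin (n + 1) → ℕ) :
    S a (n + 1) = S a n + (a (Fin.last n) - 1) := (t_num (n + 1) a).2.1 n (Nat.lt_succ_self n)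

/-- The sum without the first term. -/
theorem S_tail : ∀ (n : ℕ) (a : Fin (n + 1) → ℕ), S a (n + 1) = S (a ∘ Fin.succ) n + (a 0 - 1) := by
  intro n
  induction n with
  | zero =>
    intro a
    rw [S_last a, (t_num 1 a).1, (t_num 0 (a ∘ Fin.succ)).1]
    rfl
  | succ n ih =>
    intro a
    rw [S_last a, S_last (a ∘ Fin.succ)]
    have h1 : S a (n + 1) = S (a ∘ Fin.castSucc) (n + 1) := (S_cast a (n + 1) le_rfl).symm
    have h2 : S (a ∘ Fin.succ) n = S ((a ∘ Fin.succ) ∘ Fin.castSucc) n :=
      (S_cast (a ∘ Fin.succ) n le_rfl).symm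
    rw [h1, ih (a ∘ Fin.castSucc), h2]
    have h3 : (a ∘ Fin.castSucc) ∘ Fin.succ = (a ∘ Fin.succ) ∘ Fin.castSucc := by
      funext i
      show a (Fin.castSucc (Fin.succ i)) = a (Fin.succ (Fin.castSucc i))
      rw [Fin.succ_castSucc]
    rw [h3]
    have h4 : (a ∘ Fin.castSucc) 0 = a 0 := rfl
    have h5 : (a ∘ Fin.succ) (Fin.last n) = a (Fin.last (n + 1)) := rfl
    rw [h4, h5]
    omega

end KNW_

open KNW_ in
theorem p_KNW (h_BIG : T_BIG.{u}) (h_NTH : T_NTH.{u}) (h_ASG : T_ASG.{u}) (h_VTW : T_VTW.{u}) :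
    T_KNW.{u} := by
  intro K _ _ n
  have hinf : Infinite K := inferInstance
  induction n with
  | zero =>
    intro a hm h2 _ d N f hf W h1 h3 _
    have hS : S a 0 = 0 := (t_num 0 a).1
    exact (h_VTW K 0 f a hf hm h2 d W h1 h3).2.1 (by rw [hS]; exact Nat.zero_le d)
  | succ n ih =>
    intro a hm h2 hk
    have hmc : Monotone (a ∘ Fin.castSucc) := fun i j hij => hm (by simpa using hij)
    have hms : Monotone (a ∘ Fin.succ) := fun i j hij => hm (by simpa using hij)
    have h2c : ∀ i, 2 ≤ (a ∘ Fin.castSucc) i := fun i => h2 _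
    have h2s : ∀ i, 2 ≤ (a ∘ Fin.succ) i := fun i => h2 _
    obtain ⟨m, hmn, hm3, hbig⟩ := hk
    rcases Nat.lt_or_ge m (n + 1) with hlt | hge
    · refine h_BIG K n a hm h2 ?_ (ih _ hmc h2c ⟨m, by omega, ?_, ?_⟩)
      · exact hbig n (Nat.lt_succ_self n) (by omega)
      · rcases hm3 with h | h
        · exact Or.inl h
        · right
          rw [S_cast a m (by omega)]
          exact h
      · intro j hj hmj
        rw [S_cast a j (by omega)]
        exact hbig j (by omega) hmj
    · have hmeq : m = n + 1 := le_antisymm hmn hge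
      subst hmeq
      rcases Nat.lt_or_ge n 2 with hn | hn
      · refine h_BIG K n a hm h2 ?_ (ih _ hmc h2c ⟨n, le_rfl, Or.inl (by omega), ?_⟩)
        · interval_cases n
          · rw [(t_num 1 a).1]
            have := h2 (Fin.last 0)
            omega
          · have h5 := S_last (n := 0) (a ∘ Fin.castSucc)
            rw [S_cast a 1 le_rfl, (t_num 1 (a ∘ Fin.castSucc)).1] at h5
            have h6 : (a ∘ Fin.castSucc) (Fin.last 0) ≤ a (Fin.last 1) := hm (by simp)
            have h7 := h2 (Fin.last 1)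
            have h8 : S a 1 = 0 + ((a ∘ Fin.castSucc) (Fin.last 0) - 1) := h5
            omega
        · intro j hj hmj
          omega
      · by_cases hn2 : n = 2
        · subst hn2
          exact h_NTH K a hm h2
        · have hS : S a (n + 1) ≤ 6 := by
            rcases hm3 with h | h
            · omega
            · exact h
          refine h_ASG K n a (by omega) hm h2 hS (ih _ hms h2s ⟨n, le_rfl, Or.inr ?_, ?_⟩)
          · have := S_tail n a
            omega
          · intro j hj hmj
            omega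

end Pool.Agent.EGT
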