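import Pool.Agent.EGT.Targets

set_option autoImplicit false
open MvPolynomial hiding R

/-!
# Project EGT, target LAY: the layers of a space of forms
-/

namespace Pool.Agent.EGT

open Pool.Agent.EGU Pool.Agent.EGS

universe u

namespace LAY_

section

variable {K : Type u} [Field K] {n : ℕ}

/-- A regular sequence generates a proper ideal. -/
theorem one_not_mem {m : ℕ} (f : Fin m → R K n) (a : Fin m → ℕ) (hf : CI f a) :
    (1 : R K n) ∉ J f := by
  intro h
  have h1 : (1 : R K n) ∈ Jd f 0 := ⟨isHomogeneous_one _ _, h⟩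
  obtain ⟨y, hy, e⟩ := ((t_jd K n m f a hf.hom).1 0 1).1 h1
  have h2 : ∀ k, y k = 0 := by
    intro k
    have h3 := hy k
    have h4 := hf.pos k
    unfold Rm at h3
    rw [if_neg (by omega)] at h3
    exact (Submodule.mem_bot K).1 h3
  simp only [h2, zero_mul, Finset.sum_const_zero] at e
  exact one_ne_zero e

theorem pow_mem (l : R K n) (hl : l ∈ Rd K n 1) (j k : ℕ) (g : R K n) (hg : g ∈ Rd K n k) :
    l ^ j * g ∈ Rd K n (j + k) := by
  have h1 : (l ^ j).IsHomogeneous (1 * j) := IsHomogeneous.pow hl j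
  rw [one_mul] at h1
  exact h1.mul hg

variable (l : R K (n + 1)) (θ : R K (n + 1) →ₐ[K] R K n)

/-- The space of the `g ∈ R_{e-j}` with `l ^ j * g ∈ U`. -/
theorem mem_lay (e : ℕ) (U : Submodule K (R K (n + 1))) (j : ℕ) (q : R K n) :
    q ∈ lay l θ e U j ↔ ∃ g ∈ Rd K (n + 1) (e - j), l ^ j * g ∈ U ∧ θ g = q := by
  unfold lay
  constructor
  · rintro ⟨g, ⟨h1, h2⟩, h3⟩
    exact ⟨g, h1, h2, h3⟩
  · rintro ⟨g, h1, h2, h3⟩
    exact ⟨g, ⟨h1, h2⟩, h3⟩

theorem lay_mono (e : ℕ) (U V : Submodule K (R K (n + 1))) (h : U ≤ V) (j : ℕ) :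
    lay l θ e U j ≤ lay l θ e V j := by
  intro q hq
  rw [mem_lay] at hq ⊢
  obtain ⟨g, h1, h2, h3⟩ := hq
  exact ⟨g, h1, h h2, h3⟩

/-- The dimension is the sum of the dimensions of the layers. -/
theorem dim_lay (hl : l ∈ Rd K (n + 1) 1) (hl0 : l ≠ 0)
    (hker : ∀ p, θ p = 0 ↔ ∃ q, p = l * q) :
    ∀ (e : ℕ) (U : Submodule K (R K (n + 1))), U ≤ Rd K (n + 1) e →
      Module.finrank K U = ∑ j ∈ Finset.range (e + 1), Module.finrank K (lay l θ e U j) := by
  intro e
  induction e with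
  | zero =>
    intro U hU
    have fR := (t_dimr K (n + 1) 0).1
    have fU : Module.Finite K U := Submodule.finiteDimensional_of_le hU
    have h1 := SPLIT_.finrank_map_add θ.toLinearMap U
    have h2 : (U ⊓ LinearMap.ker θ.toLinearMap : Submodule K (R K (n + 1))) = ⊥ := by
      rw [eq_bot_iff]
      rintro p ⟨hp, hp'⟩
      obtain ⟨q, hq⟩ := (hker p).1 hp'
      have h3 := EMB_.hc_self (hU hp)
      rw [hq, EMB_.hc_mul q l 1 hl 0] at h3
      unfold EMB_.cmp at h3
      rw [if_neg (by omega), mul_zero] at h3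
      rw [Submodule.mem_bot, hq, ← h3]
    have h4 : lay l θ 0 U 0 = U.map θ.toLinearMap := by
      ext q
      rw [mem_lay]
      constructor
      · rintro ⟨g, -, h2, h3⟩
        rw [pow_zero, one_mul] at h2
        exact ⟨g, h2, h3⟩
      · rintro ⟨g, h2, h3⟩
        refine ⟨g, hU h2, ?_, h3⟩
        rw [pow_zero, one_mul]
        exact h2
    rw [h2, finrank_bot, add_zero] at h1
    rw [Finset.sum_range_one, h4, h1]
  | succ e ih =>
    intro U hU
    have fR := (t_dimr K (n + 1) (e + 1)).1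
    have fU : Module.Finite K U := Submodule.finiteDimensional_of_le hU
    have h1 := SPLIT_.finrank_map_add θ.toLinearMap U
    set U' : Submodule K (R K (n + 1)) := Rd K (n + 1) e ⊓ U.comap (LinearMap.mulLeft K l)
      with hU'
    have hinj : Function.Injective (LinearMap.mulLeft K l) := by
      intro x y hxy
      have h3 : l * x = l * y := hxy
      exact mul_left_cancel₀ hl0 h3
    have h2 : (U ⊓ LinearMap.ker θ.toLinearMap : Submodule K (R K (n + 1))) =
        U'.map (LinearMap.mulLeft K l) := by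
      apply le_antisymm
      · rintro p ⟨hp, hp'⟩
        obtain ⟨q, hq⟩ := (hker p).1 hp'
        have h3 := EMB_.hc_self (hU hp)
        rw [hq, EMB_.hc_mul q l 1 hl (e + 1)] at h3
        unfold EMB_.cmp at h3
        rw [if_pos (by omega), Nat.add_sub_cancel] at h3
        refine ⟨homogeneousComponent e q, ⟨homogeneousComponent_mem _ _, ?_⟩, ?_⟩
        · show l * homogeneousComponent e q ∈ U
          rw [h3, ← hq]
          exact hp
        · show l * homogeneousComponent e q = p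
          rw [h3, ← hq]
      · rintro _ ⟨q, ⟨h3, h4⟩, rfl⟩
        exact ⟨h4, (hker _).2 ⟨q, rfl⟩⟩
    have h3 : Module.finrank K (U'.map (LinearMap.mulLeft K l)) = Module.finrank K U' :=
      (Submodule.equivMapOfInjective _ hinj U').finrank_eq.symm
    have h4 : lay l θ (e + 1) U 0 = U.map θ.toLinearMap := by
      ext q
      rw [mem_lay]
      constructor
      · rintro ⟨g, -, h2, h3⟩
        rw [pow_zero, one_mul] at h2
        exact ⟨g, h2, h3⟩
      · rintro ⟨g, h2, h3⟩
        refine ⟨g, hU h2, ?_, h3⟩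
        rw [pow_zero, one_mul]
        exact h2
    have h5 : ∀ j ∈ Finset.range (e + 1), Module.finrank K (lay l θ (e + 1) U (j + 1)) =
        Module.finrank K (lay l θ e U' j) := by
      intro j hj
      rw [Finset.mem_range] at hj
      have h6 : lay l θ (e + 1) U (j + 1) = lay l θ e U' j := by
        ext q
        rw [mem_lay, mem_lay, Nat.add_sub_add_right]
        constructor
        · rintro ⟨g, g1, g2, g3⟩
          refine ⟨g, g1, ⟨?_, ?_⟩, g3⟩
          · have := pow_mem l hl j (e - j) g g1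
            rwa [show j + (e - j) = e by omega] at this
          · show l * (l ^ j * g) ∈ U
            rw [← mul_assoc, ← pow_succ']
            exact g2
        · rintro ⟨g, g1, ⟨-, g2⟩, g3⟩
          refine ⟨g, g1, ?_, g3⟩
          have g4 : l * (l ^ j * g) ∈ U := g2
          rw [← mul_assoc, ← pow_succ'] at g4
          exact g4
      rw [h6]
    rw [Finset.sum_range_succ', Finset.sum_congr rfl h5, h4, ← ih U' inf_le_left, ← h1, h2, h3,
      add_comm]

/-- The layers of the part of degree `e` of the ideal. -/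
theorem lay_Jd (f : Fin n → R K (n + 1)) (a : Fin n → ℕ) (hf : CI f a)
    (hl : l ∈ Rd K (n + 1) 1)
    (hdeg : ∀ d, ∀ p ∈ Rd K (n + 1) d, θ p ∈ Rd K n d)
    (hsurj : ∀ d, ∀ q ∈ Rd K n d, ∃ p ∈ Rd K (n + 1) d, θ p = q)
    (hker : ∀ p, θ p = 0 ↔ ∃ q, p = l * q) (hnz : ∀ p, l * p ∈ J f → p ∈ J f)
    (hJ : ∀ p, θ p ∈ J (fun i => θ (f i)) ↔ ∃ q, p - l * q ∈ J f) (e j : ℕ) (hj : j ≤ e) :
    lay l θ e (Jd f e) j = Jd (fun i => θ (f i)) (e - j) := by
  have hpow : ∀ (j : ℕ) (p : R K (n + 1)), l ^ j * p ∈ J f → p ∈ J f := by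
    intro j
    induction j with
    | zero =>
      intro p hp
      rwa [pow_zero, one_mul] at hp
    | succ j ih =>
      intro p hp
      rw [pow_succ', mul_assoc] at hp
      exact ih p (hnz _ hp)
  ext q
  rw [mem_lay]
  constructor
  · rintro ⟨g, g1, g2, rfl⟩
    refine ⟨hdeg _ g g1, (hJ g).2 ⟨0, ?_⟩⟩
    rw [mul_zero, sub_zero]
    exact hpow j g g2.2
  · rintro ⟨h1, h2⟩
    obtain ⟨p, hp, rfl⟩ := hsurj _ q h1
    obtain ⟨q, hq⟩ := (hJ p).1 h2
    have h3 := (t_jd K (n + 1) n f a hf.hom).2 _ hq (e - j)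
    rw [map_sub, EMB_.hc_self hp, EMB_.hc_mul q l 1 hl (e - j)] at h3
    set q' := EMB_.cmp (e - j) 1 q with hq'
    have h4 : l * q' ∈ Rd K (n + 1) (e - j) := by
      rw [hq', ← EMB_.hc_mul q l 1 hl (e - j)]
      exact homogeneousComponent_mem _ _
    have h5 : θ (l * q') = 0 := (hker _).2 ⟨q', rfl⟩
    refine ⟨p - l * q', Submodule.sub_mem _ hp h4, ⟨?_, ?_⟩, ?_⟩
    · have := pow_mem l hl j (e - j) (p - l * q') (Submodule.sub_mem _ hp h4)
      rwa [show j + (e - j) = e by omega] at this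
    · exact Ideal.mul_mem_left _ _ h3
    · rw [map_sub, h5, sub_zero]

end

end LAY_

open LAY_ in
theorem p_LAY : T_LAY.{u} := by
  intro K _ n f a hf l θ hl hdeg hsurj hker hnz hCI hJ d W hJW hWR
  have hl0 : l ≠ 0 := by
    rintro rfl
    refine one_not_mem f a hf (hnz 1 ?_)
    rw [zero_mul]
    exact Ideal.zero_mem _
  obtain ⟨hup1, hup2, -⟩ := t_upl K (n + 1) n f a hf.hom d W hWR
  have hLJ := lay_Jd l θ f a hf hl hdeg hsurj hker hnz hJ
  have hdim := dim_lay l θ hl hl0 hker
  have hRR : ∀ m w : R K (n + 1), m ∈ Rd K (n + 1) 1 → w ∈ W → m * w ∈ up f d W := by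
    intro m w hm hw
    exact (le_sup_left : Rd K (n + 1) 1 * W ≤ up f d W) (Submodule.mul_mem_mul hm hw)
  refine ⟨fun j hj => ⟨?_, ?_, ?_, ?_⟩, ?_, ?_⟩
  · rw [← hLJ d j hj]
    exact lay_mono l θ d _ _ hJW j
  · intro q hq
    rw [mem_lay] at hq
    obtain ⟨g, g1, -, rfl⟩ := hq
    exact hdeg _ g g1
  · unfold up
    refine sup_le ?_ ?_
    · rw [Submodule.mul_le]
      intro m hm w hw
      rw [mem_lay] at hw ⊢
      obtain ⟨m, hm', rfl⟩ := hsurj 1 m hm
      obtain ⟨g, g1, g2, rfl⟩ := hw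
      refine ⟨m * g, ?_, ?_, map_mul _ _ _⟩
      · have : m * g ∈ Rd K (n + 1) (1 + (d - j)) := IsHomogeneous.mul hm' g1
        rwa [show 1 + (d - j) = d + 1 - j by omega] at this
      · have := hRR m (l ^ j * g) hm' g2
        rwa [show m * (l ^ j * g) = l ^ j * (m * g) by ring] at this
    · rw [show d - j + 1 = d + 1 - j by omega, ← hLJ (d + 1) j (by omega)]
      exact lay_mono l θ (d + 1) _ _ hup1 j
  · intro q hq
    rw [mem_lay] at hq ⊢
    obtain ⟨g, g1, g2, rfl⟩ := hq
    refine ⟨g, ?_, ?_, rfl⟩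
    · rwa [Nat.add_sub_add_right]
    · rw [pow_succ', mul_assoc]
      exact hRR l _ hl g2
  · have h1 := hdim d W hWR
    have h2 := hdim d (Jd f d) inf_le_left
    rw [Finset.sum_congr rfl fun j hj => by
      rw [hLJ d j (by rw [Finset.mem_range] at hj; omega)]] at h2
    rw [h1, h2, add_comm]
  · have h1 := hdim (d + 1) (up f d W) hup2
    have h2 := hdim (d + 1) (Jd f (d + 1)) inf_le_left
    rw [Finset.sum_congr rfl fun j hj => by
      rw [hLJ (d + 1) j (by rw [Finset.mem_range] at hj; omega)]] at h2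
    rw [h1, h2, add_comm]

end Pool.Agent.EGT
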