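import Pool.Agent.EGT.Targets
import Pool.Agent.EGH.All

set_option autoImplicit false
open MvPolynomial hiding R

/-!
# EGT: three variables, from the theorem of project EGH
-/

namespace Pool.Agent.EGT

open Pool.Agent.EGU Pool.Agent.EGS

universe u

noncomputable section

/-- the triple of exponents -/
def NTH_tr (x : Fin 3 →₀ ℕ) : ℕ × ℕ × ℕ := (x 0, x 1, x 2)

theorem NTH_tr_inj : Function.Injective NTH_tr := by
  intro x y h
  unfold NTH_tr at h
  rw [Prod.mk.injEq, Prod.mk.injEq] at h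
  ext i
  fin_cases i
  · exact h.1
  · exact h.2.1
  · exact h.2.2

theorem NTH_mem_std {a : Fin 3 → ℕ} {d : ℕ} {x : Fin 3 →₀ ℕ} :
    x ∈ Std a d ↔ (x 0 + x 1 + x 2 = d ∧ x 0 < a 0 ∧ x 1 < a 1 ∧ x 2 < a 2) := by
  unfold Std
  rw [Finset.mem_filter, Finset.mem_finsuppAntidiag, Fin.forall_fin_succ, Fin.forall_fin_two,
    Fin.sum_univ_three]
  constructor
  · rintro ⟨⟨h1, -⟩, h2, h3, h4⟩
    exact ⟨h1, h2, h3, h4⟩
  · rintro ⟨h1, h2, h3, h4⟩
    exact ⟨⟨h1, Finset.subset_univ _⟩, h2, h3, h4⟩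

theorem NTH_mem_estd {a b c d : ℕ} {m : ℕ × ℕ × ℕ} :
    m ∈ EGH.Std a b c d ↔ (m.1 + m.2.1 + m.2.2 = d ∧ m.1 < a ∧ m.2.1 < b ∧ m.2.2 < c) := by
  unfold EGH.Std
  rw [Finset.mem_filter, Finset.mem_product, Finset.mem_product, Finset.mem_range,
    Finset.mem_range, Finset.mem_range]
  constructor
  · rintro ⟨⟨h2, h3, h4⟩, h1⟩
    exact ⟨h1, h2, h3, h4⟩
  · rintro ⟨h1, h2, h3, h4⟩
    exact ⟨⟨h2, h3, h4⟩, h1⟩

theorem NTH_tr_mem {a : Fin 3 → ℕ} {d : ℕ} {x : Fin 3 →₀ ℕ} (h : x ∈ Std a d) :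
    NTH_tr x ∈ EGH.Std (a 0) (a 1) (a 2) d :=
  NTH_mem_estd.2 (NTH_mem_std.1 h)

/-- every triple comes from an exponent vector -/
theorem NTH_tr_surj (m : ℕ × ℕ × ℕ) : ∃ x, NTH_tr x = m := by
  refine ⟨Finsupp.equivFunOnFinite.symm ![m.1, m.2.1, m.2.2], ?_⟩
  unfold NTH_tr
  rfl

theorem NTH_ci {K : Type u} [Field K] {f : Fin 3 → R K 3} {a : Fin 3 → ℕ} (h : CI f a) :
    EGH.CI f a := by
  refine ⟨h.pos, h.hom, ?_, ?_, ?_⟩
  · intro h0
    have h1 := h.reg 0 1 (by rw [h0, mul_zero]; exact Ideal.zero_mem _)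
    have h2 : {i : Fin 3 | i < 0} = ∅ := by
      ext i
      simp
    rw [h2, Set.image_empty, Ideal.span_empty] at h1
    exact one_ne_zero (Ideal.mem_bot.1 h1)
  · intro p q hpq
    have h2 : {i : Fin 3 | i < 1} = {0} := by
      ext i
      fin_cases i <;> simp
    have h1 := h.reg 1 p (by
      rw [h2, Set.image_singleton, Ideal.mem_span_singleton']
      exact ⟨q, hpq.symm⟩)
    rw [h2, Set.image_singleton, Ideal.mem_span_singleton'] at h1
    obtain ⟨r, hr⟩ := h1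
    exact ⟨r, hr.symm⟩
  · intro p q r hpq
    have h2 : {i : Fin 3 | i < 2} = {0, 1} := by
      ext i
      fin_cases i <;> simp
    have h1 := h.reg 2 p (by
      rw [h2, Set.image_pair, Ideal.mem_span_pair]
      exact ⟨q, r, hpq.symm⟩)
    rw [h2, Set.image_pair, Ideal.mem_span_pair] at h1
    obtain ⟨q', r', hr⟩ := h1
    exact ⟨q', r', hr.symm⟩

theorem NTH_seg {a : Fin 3 → ℕ} {d : ℕ} {M : Finset (Fin 3 →₀ ℕ)} (hM : IsSeg a d M) :
    EGH.IsSeg (a 0) (a 1) (a 2) d (M.image NTH_tr) := by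
  refine ⟨?_, ?_⟩
  · intro m hm
    obtain ⟨x, hx, rfl⟩ := Finset.mem_image.1 hm
    exact NTH_tr_mem (hM.1 hx)
  · intro m hm m' hm' hge
    obtain ⟨x, hx, rfl⟩ := Finset.mem_image.1 hm
    obtain ⟨y, rfl⟩ := NTH_tr_surj m'
    have hy : y ∈ Std a d := NTH_mem_std.2 (NTH_mem_estd.1 hm')
    rw [Finset.mem_image]
    refine ⟨y, ?_, rfl⟩
    have hxs := NTH_mem_std.1 (hM.1 hx)
    have hys := NTH_mem_std.1 hy
    rcases hge with h0 | ⟨h0, h1⟩
    · change x 0 < y 0 at h0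
      refine hM.2 x hx y hy ⟨0, ?_, h0⟩
      intro k hk
      exact absurd hk (by simp)
    · change y 0 = x 0 at h0
      change x 1 ≤ y 1 at h1
      rcases h1.lt_or_eq with h2 | h2
      · refine hM.2 x hx y hy ⟨1, ?_, h2⟩
        intro k hk
        have hk0 : k = 0 := by
          rw [Fin.lt_def] at hk
          ext
          simp only [Fin.val_one] at hk
          simp only [Fin.val_zero]
          omega
        rw [hk0]
        exact h0.symm
      · have h3 : x 2 = y 2 := by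
          have := hxs.1
          have := hys.1
          omega
        have h4 : y = x := by
          apply NTH_tr_inj
          unfold NTH_tr
          rw [h0, ← h2, ← h3]
        rw [h4]
        exact hx

theorem NTH_shadow {a : Fin 3 → ℕ} {d : ℕ} {M : Finset (Fin 3 →₀ ℕ)} :
    (shadow a d M).card ≤ (EGH.shadow (a 0) (a 1) (a 2) d (M.image NTH_tr)).card := by
  refine Finset.card_le_card_of_injOn NTH_tr ?_ NTH_tr_inj.injOn
  intro x hx
  rw [Finset.mem_coe] at hx ⊢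
  unfold shadow at hx
  unfold EGH.shadow
  rw [Finset.mem_filter] at hx ⊢
  obtain ⟨h1, y, hy, hyx⟩ := hx
  refine ⟨NTH_tr_mem h1, NTH_tr y, Finset.mem_image_of_mem _ hy, ?_⟩
  unfold NTH_tr
  exact ⟨hyx 0, hyx 1, hyx 2⟩

theorem p_NTH : T_NTH.{u} := by
  intro K _ a hm h2 d N f hf W hJW hWR _
  have hcard := a_hf K 3 f a hf d
  obtain ⟨hfin, -, -⟩ := t_dimr K 3 d
  have hle : Module.finrank K W ≤ Module.finrank K (Rd K 3 d) := Submodule.finrank_mono hWR
  have hWfin : Module.Finite K W := Module.Finite.of_injective (Submodule.inclusion hWR)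
    (Submodule.inclusion_injective hWR)
  have hge : Module.finrank K (Jd f d) ≤ Module.finrank K W := Submodule.finrank_mono hJW
  obtain ⟨-, -, -, hseg, -⟩ := t_sega 3 a d
  obtain ⟨M, hM, hMc⟩ := hseg (Module.finrank K W - Module.finrank K (Jd f d)) (by omega)
  refine ⟨M, hM, hMc, ?_⟩
  have hg := EGH.all_growth K f a (NTH_ci hf) (hm (by decide)) (hm (by decide)) d W hJW hWR
    (M.image NTH_tr) (NTH_seg hM) (by
      rw [Finset.card_image_of_injective _ NTH_tr_inj, hMc]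
      exact Nat.sub_add_cancel hge)
  have hs := NTH_shadow (a := a) (d := d) (M := M)
  change _ + Module.finrank K (Jd f (d + 1)) ≤ Module.finrank K (up f d W) at hg
  omega

end

end Pool.Agent.EGT
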