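import Pool.Agent.EGT.Targets
import Pool.Agent.EGS.P_SP2

set_option autoImplicit false
open MvPolynomial hiding R

/-!
Target PSG: the main step for all degree sequences.
-/

namespace Pool.Agent.EGT

open Pool.Agent.EGU Pool.Agent.EGS

universe u

namespace PSG_

theorem sh_mono {n : ℕ} {a : Fin n → ℕ} {d v v' G G' : ℕ} (h : Sh a d v G) (hv : v = v')
    (hG : G ≤ G') : Sh a d v' G' := by
  obtain ⟨M, h1, h2, h3⟩ := h
  exact ⟨M, h1, h2.trans hv, h3.trans hG⟩

theorem fr_mono {K : Type u} [Field K] {n d : ℕ} {U V : Submodule K (R K n)} (h : U ≤ V)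
    (hV : V ≤ Rd K n d) : Module.finrank K U ≤ Module.finrank K V := by
  have h1 : Module.Finite K (Rd K n d) := (t_dimr K n d).1
  have h2 : FiniteDimensional K V := Submodule.finiteDimensional_of_le hV
  exact Submodule.finrank_mono h

theorem jd_low {K : Type u} [Field K] {n m : ℕ} (f : Fin m → R K n) (a : Fin m → ℕ)
    (hf : ∀ i, (f i).IsHomogeneous (a i)) (d : ℕ) (hd : ∀ i, d < a i) : Jd f d = ⊥ := by
  rw [eq_bot_iff]
  intro p hp
  obtain ⟨y, hy, hp2⟩ := ((t_jd K n m f a hf).1 d p).mp hp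
  rw [Submodule.mem_bot, hp2]
  apply Finset.sum_eq_zero
  intro k _
  have h := hy k
  unfold Rm at h
  rw [if_neg (by have := hd k; omega), Submodule.mem_bot] at h
  rw [h, zero_mul]

theorem orth_le {K : Type u} [Field K] {n m : ℕ} (f : Fin m → R K n) (e : ℕ)
    (U W : Submodule K (R K n)) (h : ∀ p : R K n, (∀ w ∈ W, p * w ∈ J f) → ∀ u ∈ U,
      p * u ∈ J f) : Module.finrank K (orth f e W) ≤ Module.finrank K (orth f e U) := by
  apply fr_mono (d := e) (n := n)
  · rintro p ⟨hp1, hp2⟩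
    exact ⟨hp1, h p hp2⟩
  · rintro p ⟨hp1, _⟩
    exact hp1

theorem tag {K : Type u} [Field K] [Infinite K] (h_TAG : T_TAG.{u}) (n e d N : ℕ)
    (a : Fin (n + 1) → ℕ) (hm : Monotone a) (hd : d = e + (a 0 - 1))
    (hE : EA K (a ∘ Fin.succ) e N) (f : Fin (n + 1) → R K (n + 1)) (hf : CI f a)
    (W : Submodule K (R K (n + 1))) (h1 : Jd f d ≤ W) (h2 : W ≤ Rd K (n + 1) d)
    (l : R K (n + 1)) (hl : l ∈ Rd K (n + 1) 1) (hl0 : l ≠ 0) (h3 : ∀ w ∈ W, l * w ∈ J f)
    (h4 : Module.finrank K (Rd K (n + 1) 2) ≤ Module.finrank K (orth f 2 W) + N) :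
    Sh (a ∘ Fin.succ) e (Module.finrank K W - Module.finrank K (Jd f d))
      (Module.finrank K (up f d W) - Module.finrank K (Jd f (d + 1))) := by
  subst hd
  exact h_TAG K n e N a hm hE f hf W h1 h2 l hl hl0 h3 h4

theorem mul_killed {K : Type u} [Field K] {n m : ℕ} (f : Fin m → R K n) (d : ℕ)
    (W : Submodule K (R K n)) (l l' : R K n) (h2 : ∀ w ∈ W, l' * (l * w) ∈ J f) :
    ∀ w ∈ mulW f d l W, l' * w ∈ J f := by
  intro w hw
  obtain ⟨y, hy, z, hz, rfl⟩ := Submodule.mem_sup.mp hw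
  obtain ⟨x, hx, rfl⟩ := Submodule.mem_map.mp hy
  rw [mul_add]
  refine Ideal.add_mem _ ?_ (Ideal.mul_mem_left _ _ hz.2)
  exact h2 x hx

theorem mul_orth {K : Type u} [Field K] {n m : ℕ} (f : Fin m → R K n) (d : ℕ)
    (W : Submodule K (R K n)) (l : R K n) :
    Module.finrank K (orth f 2 W) ≤ Module.finrank K (orth f 2 (mulW f d l W)) := by
  apply orth_le
  intro p hp w hw
  obtain ⟨y, hy, z, hz, rfl⟩ := Submodule.mem_sup.mp hw
  obtain ⟨x, hx, rfl⟩ := Submodule.mem_map.mp hy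
  rw [mul_add]
  refine Ideal.add_mem _ ?_ (Ideal.mul_mem_left _ _ hz.2)
  have h3 : p * (LinearMap.mulLeft K l) x = l * (p * x) := by
    rw [LinearMap.mulLeft_apply]
    ring
  rw [h3]
  exact Ideal.mul_mem_left _ _ (hp x hx)

theorem main {K : Type u} [Field K] [IsAlgClosed K] (h_TAG : T_TAG.{u}) (h_KCG : T_KCG)
    (n N e d : ℕ) (a : Fin (n + 1) → ℕ) (hm : Monotone a) (h2a : ∀ i, 2 ≤ a i)
    (hde : d = e + (a 0 - 1)) (hE : ∀ d, EA K (a ∘ Fin.succ) d N)
    (f : Fin (n + 1) → R K (n + 1)) (hf : CI f a) (W : Submodule K (R K (n + 1)))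
    (hJW : Jd f d ≤ W) (hWR : W ≤ Rd K (n + 1) d)
    (ho : Module.finrank K (Rd K (n + 1) 2) ≤ Module.finrank K (orth f 2 W) + N)
    (l l' : R K (n + 1)) (hl : l ∈ Rd K (n + 1) 1) (hl' : l' ∈ Rd K (n + 1) 1) (hl0 : l ≠ 0)
    (hl0' : l' ≠ 0) (h1 : ∀ w ∈ W, l * (l' * w) ∈ J f) (h2 : ∀ w ∈ W, l' * (l * w) ∈ J f)
    (hk : Module.finrank K (kerW f l' W) ≤ Module.finrank K (kerW f l W)) :
    GoodA a f d W := by
  have hinf : Infinite K := IsAlgClosed.instInfinite
  obtain ⟨s1, s2⟩ := a_split K (n + 1) (n + 1) f _ hf.hom d W hJW hWR l hl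
  obtain ⟨s3, _⟩ := a_split K (n + 1) (n + 1) f _ hf.hom d W hJW hWR l' hl'
  have s4 := p_SP2 K (n + 1) (n + 1) f _ hf.hom d W hJW hWR l hl l' hl' h1
  obtain ⟨u1, u2, u3, u4, u5, u6, u7, u8⟩ := t_upl K (n + 1) (n + 1) f _ hf.hom d W hWR
  have hkJ : Jd f d ≤ kerW f l W := u6 l hl hJW
  have hkW : kerW f l W ≤ W := inf_le_left
  have hkR : kerW f l W ≤ Rd K (n + 1) d := hkW.trans hWR
  have hmJ : Jd f (d + 1) ≤ mulW f d l W := le_sup_right
  have hmR : mulW f d l W ≤ Rd K (n + 1) (d + 1) := (u5 l hl).2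
  have t0 := tag h_TAG n e d N a hm hde (hE e) f hf (kerW f l W) hkJ hkR l hl hl0
    (fun w hw => hw.2) (ho.trans (Nat.add_le_add_right (orth_le f 2 (kerW f l W) W
      (fun p hp w hw => hp w (hkW hw))) N))
  have t1 := tag h_TAG n (e + 1) (d + 1) N a hm (by omega) (hE (e + 1)) f hf (mulW f d l W) hmJ
    hmR l' hl' hl0' (mul_killed f d W l l' h2)
    (ho.trans (Nat.add_le_add_right (mul_orth f d W l) N))
  have t2 := h_KCG n a hm h2a e _ _ _ _ t0 t1
  rw [← hde] at t2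
  have a1 := fr_mono hkJ hkR
  have a2 := fr_mono hmJ hmR
  obtain ⟨v1, v2, _⟩ := t_upl K (n + 1) (n + 1) f _ hf.hom d (kerW f l W) hkR
  obtain ⟨w1, w2, _⟩ := t_upl K (n + 1) (n + 1) f _ hf.hom (d + 1) (mulW f d l W) hmR
  have a3 := fr_mono v1 v2
  have a4 := fr_mono w1 w2
  have e3 : d + 1 + 1 = d + 2 := rfl
  rw [e3] at a4 t2
  unfold GoodA
  refine sh_mono t2 ?_ ?_
  · omega
  · have m1 := max_le_iff (a := Module.finrank K (up f d (kerW f l W)) -
      Module.finrank K (Jd f (d + 1))) (b := Module.finrank K (mulW f d l W) -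
      Module.finrank K (Jd f (d + 1))) (c := Module.finrank K (up f d W) -
      Module.finrank K (Jd f (d + 1)) - (Module.finrank K (up f (d + 1) (mulW f d l W)) -
      Module.finrank K (Jd f (d + 2))))
    have m2 := m1.mpr ⟨by omega, by omega⟩
    have m3 := fr_mono u1 u2
    have m4 := s4
    omega

/-- low degrees: the dimension is at most one -/
theorem low {K : Type u} [Field K] [IsAlgClosed K] (h_TAG : T_TAG.{u})
    (n N d : ℕ) (a : Fin (n + 1) → ℕ) (hm : Monotone a)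
    (hd : d + 1 < a 0) (hE : ∀ d, EA K (a ∘ Fin.succ) d N)
    (f : Fin (n + 1) → R K (n + 1)) (hf : CI f a) (W : Submodule K (R K (n + 1)))
    (hJW : Jd f d ≤ W) (hWR : W ≤ Rd K (n + 1) d)
    (ho : Module.finrank K (Rd K (n + 1) 2) ≤ Module.finrank K (orth f 2 W) + N)
    (l l' : R K (n + 1)) (hl : l ∈ Rd K (n + 1) 1) (hl' : l' ∈ Rd K (n + 1) 1) (hl0 : l ≠ 0)
    (hl0' : l' ≠ 0) (h2 : ∀ w ∈ W, l' * (l * w) ∈ J f) :
    Module.finrank K W ≤ 1 := by
  have hinf : Infinite K := IsAlgClosed.instInfinite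
  have ha : ∀ i, a 0 ≤ a i := fun i => hm (Fin.zero_le i)
  have j1 : Jd f (d + 1) = ⊥ := jd_low f a hf.hom _ (fun i => by have := ha i; omega)
  have mulR : ∀ (e : ℕ) (x y : R K (n + 1)), x ∈ Rd K (n + 1) 1 → y ∈ Rd K (n + 1) e →
      x * y ∈ Rd K (n + 1) (e + 1) := by
    intro e x y hx hy
    rw [mem_homogeneousSubmodule] at hx hy ⊢
    have := hx.mul hy
    rwa [add_comm 1 e] at this
  have hinj : ∀ w ∈ W, l * w = 0 → w = 0 := by
    intro w _ h
    rcases mul_eq_zero.mp h with h | h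
    · exact absurd h hl0
    · exact h
  rcases Nat.lt_or_ge (d + 2) (a 0) with hd2 | hd2
  · have j2 : Jd f (d + 2) = ⊥ := jd_low f a hf.hom _ (fun i => by have := ha i; omega)
    have hW : W = ⊥ := by
      rw [eq_bot_iff]
      intro w hw
      have h3 : l' * (l * w) ∈ Jd f (d + 2) := by
        refine ⟨mulR (d + 1) _ _ hl' (mulR d _ _ hl (hWR hw)), ?_⟩
        exact h2 w hw
      rw [j2, Submodule.mem_bot] at h3
      rcases mul_eq_zero.mp h3 with h | h
      · exact absurd h hl0'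
      · rw [Submodule.mem_bot]
        exact hinj w hw h
    rw [hW, finrank_bot]
    exact Nat.zero_le _
  · have hde : d + 1 = 0 + (a 0 - 1) := by omega
    obtain ⟨u1, u2, u3, u4, u5, u6, u7, u8⟩ := t_upl K (n + 1) (n + 1) f _ hf.hom d W hWR
    have hmJ : Jd f (d + 1) ≤ mulW f d l W := le_sup_right
    have hmR : mulW f d l W ≤ Rd K (n + 1) (d + 1) := (u5 l hl).2
    have t1 := tag h_TAG n 0 (d + 1) N a hm hde (hE 0) f hf (mulW f d l W) hmJ
      hmR l' hl' hl0' (mul_killed f d W l l' h2)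
      (ho.trans (Nat.add_le_add_right (mul_orth f d W l) N))
    obtain ⟨M, hM1, hM2, _⟩ := t1
    have h3 : M.card ≤ 1 := by
      refine (Finset.card_le_card hM1.1).trans ?_
      unfold Std
      refine (Finset.card_filter_le _ _).trans ?_
      rw [Finset.finsuppAntidiag_zero]
      exact (Finset.card_singleton _).le
    have h4 : Module.finrank K (mulW f d l W) ≤ 1 := by
      rw [j1, finrank_bot] at hM2
      omega
    have hfR : Module.Finite K (Rd K (n + 1) (d + 1)) := (t_dimr K (n + 1) (d + 1)).1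
    have hfm : Module.Finite K (mulW f d l W) := Submodule.finiteDimensional_of_le hmR
    have h5 : Module.finrank K W = Module.finrank K (W.map (LinearMap.mulLeft K l)) := by
      have hi : Function.Injective (LinearMap.mulLeft K l) := by
        intro x y hxy
        rw [LinearMap.mulLeft_apply, LinearMap.mulLeft_apply] at hxy
        exact mul_left_cancel₀ hl0 hxy
      exact (Submodule.equivMapOfInjective _ hi W).finrank_eq
    rw [h5]
    refine le_trans (Submodule.finrank_mono ?_) h4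
    exact le_sup_left

end PSG_

theorem p_PSG (h_TAG : T_TAG.{u}) (h_KCG : T_KCG) (h_VTW : T_VTW.{u})
    (h_PRD : Pool.Agent.EGS.T_PRD.{u}) : T_PSG.{u} := by
  intro K _ _ n N a hm h2a hN hE d f hf W hJW hWR ho
  obtain ⟨l, hl, l', hl', hl0, hl0', h⟩ := h_PRD K n f W (by omega)
  have h' : ∀ w ∈ W, l' * (l * w) ∈ J f := by
    intro w hw
    rw [mul_left_comm]
    exact h w hw
  rcases Nat.lt_or_ge (d + 1) (a 0) with hd | hd
  · have h1 := PSG_.low h_TAG n N d a hm hd hE f hf W hJW hWR ho l l' hl hl' hl0 hl0' h'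
    exact (h_VTW K (n + 1) f a hf hm h2a d W hJW hWR).1 (by omega)
  · obtain ⟨e, he⟩ : ∃ e, d = e + (a 0 - 1) := ⟨d - (a 0 - 1), by omega⟩
    rcases le_total (Module.finrank K (kerW f l' W)) (Module.finrank K (kerW f l W)) with hk | hk
    · exact PSG_.main h_TAG h_KCG n N e d a hm h2a he hE f hf W hJW hWR ho l l' hl hl' hl0 hl0'
        h h' hk
    · exact PSG_.main h_TAG h_KCG n N e d a hm h2a he hE f hf W hJW hWR ho l' l hl' hl hl0' hl0
        h' h hk

end Pool.Agent.EGT
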