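import Pool.Agent.EGT.Targets
import Pool.Agent.EGS.P_ACY
import Pool.Agent.EGS.P_AVO

set_option autoImplicit false
open MvPolynomial hiding R

/-!
Target RSG: completing a linear form to a regular sequence, all degrees.
-/

namespace Pool.Agent.EGT

open Pool.Agent.EGU Pool.Agent.EGS

universe u

namespace RSG_

variable {K : Type u} [Field K] {N : ℕ}

/-- Level zero of the acyclicity. -/
theorem acy0 {m k : ℕ} {f : Fin m → R K N} {a : Fin m → ℕ} {g : Fin k → R K N} {b : Fin k → ℕ}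
    (hf : CI f a) (hg : CI g b) (hk : k < m) {h : R K N} (hh : ∀ i, f i * h ∈ J g) :
    h ∈ J g := by
  obtain ⟨c, hc⟩ := p_ACY K N m k f a g b hf hg 0 (by omega) (fun _ => h) (by
    intro T _ hT
    obtain ⟨t, rfl⟩ := Finset.card_eq_one.1 hT
    unfold cob
    rw [Finset.sum_singleton]
    exact Ideal.mul_mem_left _ _ (hh t))
  have h1 := hc ∅ (Finset.empty_subset _) rfl
  unfold cob at h1
  rwa [Finset.sum_empty, sub_zero] at h1

/-- All forms of degree `e` are enough. -/
theorem iter {k : ℕ} {g : Fin k → R K N} {b : Fin k → ℕ} (hg : CI g b) (hk : k < N) (e : ℕ) :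
    ∀ p : R K N, (∀ q ∈ Rd K N e, q * p ∈ J g) → p ∈ J g := by
  have hX : CI (fun i : Fin N => (X i : R K N) ^ ((fun _ : Fin N => 1) i)) (fun _ => 1) :=
    t_xci K N (fun _ => 1) fun _ => le_rfl
  induction e with
  | zero =>
    intro p hp
    have h1 := hp 1 (by
      rw [mem_homogeneousSubmodule]
      exact isHomogeneous_one _ _)
    rwa [one_mul] at h1
  | succ e ih =>
    intro p hp
    refine acy0 hX hg hk fun i => ?_
    refine ih _ fun q hq => ?_
    have h1 : q * ((X i : R K N) ^ 1 * p) = (q * X i) * p := by ring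
    show q * ((X i : R K N) ^ 1 * p) ∈ J g
    rw [h1]
    refine hp _ ?_
    rw [mem_homogeneousSubmodule] at hq ⊢
    exact hq.mul (isHomogeneous_X K i)

/-- One step: a nonzerodivisor of the right degree. -/
theorem step [Infinite K] {n k : ℕ} (f : Fin (n + 1) → R K (n + 1)) (a : Fin (n + 1) → ℕ)
    (hf : CI f a) (hmono : Monotone a) (hk : k + 1 < n + 1) (g : Fin (k + 1) → R K (n + 1))
    (b : Fin (k + 1) → ℕ) (hg : CI g b) :
    ∃ v ∈ Jd f (a ⟨k + 1, hk⟩), ∀ p, p * v ∈ J g → p ∈ J g := by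
  by_contra hcon
  push Not at hcon
  obtain ⟨h, hh, hV⟩ := p_AVO K (n + 1) (J g) (Jd f (a ⟨k + 1, hk⟩)) fun v hv => by
    obtain ⟨p, hp1, hp2⟩ := hcon v hv
    exact ⟨p, hp2, by rwa [mul_comm]⟩
  apply hh
  have hk2 : k + 2 ≤ n + 1 := hk
  have hci := TRU_.ci_cast hk2 f a hf
  refine acy0 hci hg (by omega) fun i => ?_
  show f (Fin.castLE hk2 i) * h ∈ J g
  have hi : a (Fin.castLE hk2 i) ≤ a ⟨k + 1, hk⟩ := by
    apply hmono
    rw [Fin.le_def]
    show (i : ℕ) ≤ k + 1
    omega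
  refine iter hg hk (a ⟨k + 1, hk⟩ - a (Fin.castLE hk2 i)) _ fun q hq => ?_
  rw [← mul_assoc]
  refine hV _ ⟨?_, ?_⟩
  · show q * f (Fin.castLE hk2 i) ∈ Rd K (n + 1) (a ⟨k + 1, hk⟩)
    rw [mem_homogeneousSubmodule] at hq ⊢
    have h1 := hq.mul (hf.hom (Fin.castLE hk2 i))
    rwa [Nat.sub_add_cancel hi] at h1
  · exact Ideal.mul_mem_left _ _ (Ideal.subset_span ⟨_, rfl⟩)

/-- The degrees of the new sequence. -/
def deg {n : ℕ} (a : Fin (n + 1) → ℕ) (i : ℕ) : ℕ :=
  if i = 0 then 1 else if h : i < n + 1 then a ⟨i, h⟩ else 1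

theorem build [Infinite K] {n : ℕ} (f : Fin (n + 1) → R K (n + 1)) (a : Fin (n + 1) → ℕ)
    (hf : CI f a) (hmono : Monotone a) (l : R K (n + 1)) (hl : l ∈ Rd K (n + 1) 1)
    (hl0 : l ≠ 0) (k : ℕ) (hk : k < n + 1) :
    ∃ g : Fin (k + 1) → R K (n + 1), g 0 = l ∧ CI g (fun i => deg a i) ∧
      ∀ i, i ≠ 0 → g i ∈ J f := by
  induction k with
  | zero =>
    refine ⟨fun _ => l, rfl, ⟨fun i => ?_, fun i => ?_, fun j p hp => ?_⟩, fun i hi => ?_⟩
    · simp [deg]
    · have : (i : ℕ) = 0 := by omega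
      simp only [deg, this, if_true]
      exact hl
    · have h1 : {i : Fin (0 + 1) | i < j} = ∅ := by
        ext i
        simp only [Set.mem_ofPred_eq, Set.mem_empty_iff_false, iff_false, not_lt]
        omega
      rw [h1, Set.image_empty, Ideal.span_empty, Ideal.mem_bot] at hp ⊢
      exact (mul_eq_zero.1 hp).resolve_right hl0
    · exact absurd (Fin.ext (by simp)) hi
  | succ k ih =>
    obtain ⟨g, hg0, hg, hgJ⟩ := ih (by omega)
    obtain ⟨v, hv, hreg⟩ := step f a hf hmono hk g _ hg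
    have e1 : (Fin.snoc g v : Fin (k + 2) → R K (n + 1)) ∘ Fin.castSucc = g := by
      funext i
      simp
    have e2 : (Fin.snoc g v : Fin (k + 2) → R K (n + 1)) (Fin.last (k + 1)) = v := by simp
    have e3 : deg a (k + 1) = a ⟨k + 1, hk⟩ := by
      unfold deg
      rw [if_neg (by omega), dif_pos hk]
    refine ⟨(Fin.snoc g v : Fin (k + 2) → R K (n + 1)), ?_, ?_, fun i hi => ?_⟩
    · rw [← hg0]
      simp
    · rw [(t_cir K (n + 1) (k + 1) _ _).2, e1, e2]
      refine ⟨hg, ?_, ?_, hreg⟩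
      · show 1 ≤ deg a (k + 1)
        rw [e3]
        exact hf.pos _
      · show v.IsHomogeneous (deg a (k + 1))
        rw [e3]
        exact hv.1
    · refine Fin.lastCases ?_ (fun j => ?_) i (motive := fun i => i ≠ 0 →
        (Fin.snoc g v : Fin (k + 2) → R K (n + 1)) i ∈ J f) hi
      · intro _
        rw [e2]
        exact hv.2
      · intro hj
        have h1 := congrFun e1 j
        rw [Function.comp_apply] at h1
        rw [h1]
        refine hgJ j fun h => hj ?_
        rw [h]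
        rfl

end RSG_

open RSG_

theorem p_RSG : T_RSG.{u} := by
  intro K _ _ n f a hf hmono l hl hl0
  obtain ⟨g, h0, hg, hJ⟩ := build f a hf hmono l hl hl0 n (Nat.lt_succ_self n)
  refine ⟨g, h0, ?_, fun i => hJ _ (Fin.succ_ne_zero i)⟩
  have h1 : (fun i : Fin (n + 1) => deg a i) = Fin.cons 1 (a ∘ Fin.succ) := by
    funext i
    refine Fin.cases ?_ (fun j => ?_) i
    · simp [deg]
    · rw [Fin.cons_succ, Function.comp_apply]
      unfold deg
      rw [if_neg (by simp), dif_pos (by simp)]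
  rw [← h1]
  exact hg

end Pool.Agent.EGT
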