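import Pool.Agent.EGT.Targets

set_option autoImplicit false
open MvPolynomial hiding R

/-!
Target SWP of the project EGT: the exchange in the theorem of Clements and Lindström.
-/

namespace Pool.Agent.EGT

open Pool.Agent.EGU Pool.Agent.EGS

universe u

namespace SWP_

variable {n : ℕ}

theorem mem_std {a : Fin n → ℕ} {d : ℕ} {x : Fin n →₀ ℕ} :
    x ∈ Std a d ↔ (∑ i, x i) = d ∧ ∀ i, x i < a i := by
  unfold Std
  rw [Finset.mem_filter, Finset.mem_finsuppAntidiag]
  constructor
  · rintro ⟨⟨h1, _⟩, h2⟩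
    exact ⟨h1, h2⟩
  · rintro ⟨h1, h2⟩
    exact ⟨⟨h1, Finset.subset_univ _⟩, h2⟩

theorem mem_shadow {a : Fin n → ℕ} {d : ℕ} {M : Finset (Fin n →₀ ℕ)} {t : Fin n →₀ ℕ} :
    t ∈ shadow a d M ↔ t ∈ Std a (d + 1) ∧ ∃ y ∈ M, y ≤ t := by
  unfold shadow
  rw [Finset.mem_filter]

theorem sum_two {f g : Fin n → ℕ} {i j : Fin n} (hij : i ≠ j)
    (h : ∀ k, k ≠ i → k ≠ j → f k = g k) :
    ∑ k, f k + (g i + g j) = ∑ k, g k + (f i + f j) := by
  have key : ∀ u : Fin n → ℕ,
      ∑ k, u k = u i + (u j + ∑ k ∈ (Finset.univ.erase i).erase j, u k) := by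
    intro u
    rw [Finset.add_sum_erase _ u (Finset.mem_erase.2 ⟨hij.symm, Finset.mem_univ j⟩),
      Finset.add_sum_erase _ u (Finset.mem_univ i)]
  have h1 : ∑ k ∈ (Finset.univ.erase i).erase j, f k =
      ∑ k ∈ (Finset.univ.erase i).erase j, g k := by
    refine Finset.sum_congr rfl fun k hk => ?_
    rw [Finset.mem_erase, Finset.mem_erase] at hk
    exact h k hk.2.1 hk.1
  rw [key f, key g, h1]
  omega

/-- replace two coordinates -/
theorem repl {a : Fin n → ℕ} {d : ℕ} {x : Fin n →₀ ℕ} (hx : x ∈ Std a d) {i j : Fin n}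
    (hij : i ≠ j) {u v : ℕ} (hu : u < a i) (hv : v < a j) (huv : u + v = x i + x j) :
    ∃ z ∈ Std a d, z i = u ∧ z j = v ∧ ∀ k, k ≠ i → k ≠ j → z k = x k := by
  classical
  let z : Fin n →₀ ℕ :=
    Finsupp.equivFunOnFinite.symm (Function.update (Function.update x i u) j v)
  have hz : ∀ k, z k = Function.update (Function.update x i u) j v k := fun k => rfl
  have hzj : z j = v := by rw [hz, Function.update_self]
  have hzi : z i = u := by rw [hz, Function.update_of_ne hij, Function.update_self]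
  have hzk : ∀ k, k ≠ i → k ≠ j → z k = x k := by
    intro k h1 h2
    rw [hz, Function.update_of_ne h2, Function.update_of_ne h1]
  rw [mem_std] at hx
  refine ⟨z, ?_, hzi, hzj, hzk⟩
  rw [mem_std]
  constructor
  · have h := sum_two (f := z) (g := x) hij hzk
    rw [hzi, hzj, hx.1] at h
    omega
  · intro k
    by_cases h1 : k = i
    · rw [h1, hzi]
      exact hu
    · by_cases h2 : k = j
      · rw [h2, hzj]
        exact hv
      · rw [hzk k h1 h2]
        exact hx.2 k

theorem one_step {d : ℕ} {w t : Fin n →₀ ℕ} (hw : ∑ k, w k = d) (ht : ∑ k, t k = d + 1)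
    (hle : w ≤ t) : ∃ i, t i = w i + 1 ∧ ∀ k, k ≠ i → t k = w k := by
  have h0 : ∃ i, w i < t i := by
    by_contra hcon
    push Not at hcon
    have h1 : ∑ k, t k ≤ ∑ k, w k := Finset.sum_le_sum fun k _ => hcon k
    omega
  obtain ⟨i, hi⟩ := h0
  have h1 : t i + ∑ k ∈ Finset.univ.erase i, t k = ∑ k, t k :=
    Finset.add_sum_erase _ (fun k => t k) (Finset.mem_univ i)
  have h2 : w i + ∑ k ∈ Finset.univ.erase i, w k = ∑ k, w k :=
    Finset.add_sum_erase _ (fun k => w k) (Finset.mem_univ i)
  have h3 : ∑ k ∈ Finset.univ.erase i, w k ≤ ∑ k ∈ Finset.univ.erase i, t k :=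
    Finset.sum_le_sum fun k _ => hle k
  refine ⟨i, by omega, ?_⟩
  have h4 : ∑ k ∈ Finset.univ.erase i, w k = ∑ k ∈ Finset.univ.erase i, t k := by omega
  rw [Finset.sum_eq_sum_iff_of_le fun k _ => hle k] at h4
  intro k hk
  exact (h4 k (Finset.mem_erase.2 ⟨hk, Finset.mem_univ k⟩)).symm

/-- add one in the coordinate `i` -/
noncomputable def ad (x : Fin n →₀ ℕ) (i : Fin n) : Fin n →₀ ℕ := x + Finsupp.single i 1

theorem ad_self (x : Fin n →₀ ℕ) (i : Fin n) : ad x i i = x i + 1 := by
  simp [ad]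

theorem ad_ne (x : Fin n →₀ ℕ) {i k : Fin n} (h : k ≠ i) : ad x i k = x k := by
  simp [ad, h.symm]

theorem ad_le (x : Fin n →₀ ℕ) (i : Fin n) : x ≤ ad x i := le_self_add

theorem ad_sum (x : Fin n →₀ ℕ) (i : Fin n) : ∑ k, ad x i k = ∑ k, x k + 1 := by
  have h : ∑ k, ad x i k = ∑ k, (x k + Finsupp.single i 1 k) := rfl
  rw [h, Finset.sum_add_distrib]
  congr 1
  simp [Finsupp.single_apply]

theorem ad_eq {x t : Fin n →₀ ℕ} {i : Fin n} (h1 : t i = x i + 1)
    (h2 : ∀ k, k ≠ i → t k = x k) : t = ad x i := by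
  ext k
  by_cases hk : k = i
  · rw [hk, h1, ad_self]
  · rw [h2 k hk, ad_ne x hk]

/-- no element between `x` and `y` shares coordinates with both -/
theorem star {a : Fin n → ℕ} {d : ℕ} {F : Finset (Fin n →₀ ℕ)} (hC : ∀ i, Cmp a d i F)
    {x y z : Fin n →₀ ℕ} (hx : x ∈ Std a d) (hxF : x ∉ F) (hy : y ∈ F) (hz : z ∈ Std a d)
    (h1 : lexgt x z) (h2 : lexgt z y) {i k : Fin n} (hi : z i = x i) (hk : z k = y k) :
    False := by
  by_cases hzF : z ∈ F
  · exact hxF (hC i z hzF x hx hi.symm h1)
  · exact hzF (hC k y hy z hz hk h2)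

/-- the last coordinate of `x` is greater -/
theorem last_gt {m : ℕ} {a : Fin (m + 3) → ℕ} {d : ℕ} {F : Finset (Fin (m + 3) →₀ ℕ)}
    (hF : F ⊆ Std a d) (hC : ∀ i, Cmp a d i F) {x y : Fin (m + 3) →₀ ℕ} (hx : x ∈ Std a d)
    (hxF : x ∉ F) (hy : y ∈ F) (h0 : y 0 < x 0) (hne : ∀ i, x i ≠ y i) :
    y (Fin.last (m + 2)) < x (Fin.last (m + 2)) := by
  have hyS := hF hy
  have hx' := mem_std.1 hx
  have hy' := mem_std.1 hyS
  set l : Fin (m + 3) := Fin.last (m + 2) with hl
  have h0l : (0 : Fin (m + 3)) ≠ l := by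
    rw [hl]
    intro h
    have := congrArg Fin.val h
    simp at this
  have hyz : ∀ z : Fin (m + 3) →₀ ℕ, y 0 < z 0 → lexgt z y := fun z hz =>
    ⟨0, fun k hk => absurd hk (Fin.not_lt_zero k), hz⟩
  by_contra hcon
  have hlt : x l < y l := lt_of_le_of_ne (not_lt.1 hcon) (hne l)
  have hyl : y l < a l := hy'.2 l
  by_cases hex : ∃ j, j ≠ 0 ∧ j ≠ l ∧ y j < x j
  · obtain ⟨j, hj0, hjl, hj⟩ := hex
    have hjl' : j < l := lt_of_le_of_ne (Fin.le_last j) hjl
    have hxj : x j < a j := hx'.2 j
    by_cases hcase : x l + (x j - y j) < a l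
    · obtain ⟨z, hz, hz1, hz2, hz3⟩ := repl hx hjl (u := y j) (v := x l + (x j - y j))
        (by omega) hcase (by omega)
      have h1 : lexgt x z := ⟨j, fun k hk => hz3 k hk.ne (hk.trans hjl').ne, by omega⟩
      have hz0 : z 0 = x 0 := hz3 0 hj0.symm h0l
      exact star hC hx hxF hy hz h1 (hyz z (by omega)) hz0 hz1
    · obtain ⟨z, hz, hz1, hz2, hz3⟩ := repl hx hjl (u := x j - (y l - x l)) (v := y l)
        (by omega) hyl (by omega)
      have h1 : lexgt x z := ⟨j, fun k hk => hz3 k hk.ne (hk.trans hjl').ne, by omega⟩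
      have hz0 : z 0 = x 0 := hz3 0 hj0.symm h0l
      exact star hC hx hxF hy hz h1 (hyz z (by omega)) hz0 hz2
  · have hlt1 : ∀ j, j ≠ 0 → x j < y j := by
      intro j hj
      by_cases hjl : j = l
      · rw [hjl]
        exact hlt
      · by_contra h
        exact hex ⟨j, hj, hjl, lt_of_le_of_ne (not_lt.1 h) (hne j).symm⟩
    have h10 : (1 : Fin (m + 3)) ≠ 0 := by
      intro h
      have := congrArg Fin.val h
      simp at this
    have h1l : (1 : Fin (m + 3)) ≠ l := by
      rw [hl]
      intro h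
      have := congrArg Fin.val h
      simp at this
    -- `x 0 - y 0 > y l - x l`
    have hsum : y 0 + y l < x 0 + x l := by
      have hg : ∀ u : Fin (m + 3) →₀ ℕ,
          ∑ k, u k = u 0 + (u l + ∑ k ∈ (Finset.univ.erase 0).erase l, u k) := by
        intro u
        rw [Finset.add_sum_erase _ (fun k => u k)
          (Finset.mem_erase.2 ⟨h0l.symm, Finset.mem_univ l⟩),
          Finset.add_sum_erase _ (fun k => u k) (Finset.mem_univ 0)]
      have h5 : ∑ k ∈ (Finset.univ.erase (0 : Fin (m + 3))).erase l, x k <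
          ∑ k ∈ (Finset.univ.erase (0 : Fin (m + 3))).erase l, y k := by
        refine Finset.sum_lt_sum_of_nonempty ⟨1, ?_⟩ ?_
        · rw [Finset.mem_erase, Finset.mem_erase]
          exact ⟨h1l, h10, Finset.mem_univ _⟩
        · intro k hk
          rw [Finset.mem_erase, Finset.mem_erase] at hk
          exact hlt1 k hk.2.1
      have h6 := hg x
      have h7 := hg y
      rw [hx'.1] at h6
      rw [hy'.1] at h7
      omega
    have hgt : y l - x l < x 0 - y 0 := by omega
    have hx0 : x 0 < a 0 := hx'.2 0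
    obtain ⟨z, hz, hz1, hz2, hz3⟩ := repl hx h0l (u := x 0 - (y l - x l)) (v := y l)
      (by omega) hyl (by omega)
    have h1 : lexgt x z := ⟨0, fun k hk => absurd hk (Fin.not_lt_zero k), by omega⟩
    exact star hC hx hxF hy hz h1 (hyz z (by omega)) (hz3 1 h10 h1l) hz2

end SWP_

open SWP_ in
/-- SWP. The exchange. -/
theorem p_SWP : T_SWP := by
  classical
  intro n a hn d F hF hC hseg
  obtain ⟨m, rfl⟩ := Nat.exists_eq_add_of_le' hn
  -- a gap
  have hgap : ∃ x0 ∈ F, ∃ y0 ∈ Std a d, lexgt y0 x0 ∧ y0 ∉ F := by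
    by_contra hcon
    push Not at hcon
    exact hseg ⟨hF, fun x hx y hy hlt => hcon x hx y hy hlt⟩
  obtain ⟨x0, hx0, y0, hy0, hlt0, hy0F⟩ := hgap
  -- the smallest element of `F`
  obtain ⟨y, hy, hymin⟩ := Finset.exists_min_image F SEGA_.tl ⟨x0, hx0⟩
  -- the greatest standard monomial outside
  obtain ⟨x, hxm, hxmax⟩ := Finset.exists_max_image (Std a d \ F) SEGA_.tl
    ⟨y0, Finset.mem_sdiff.2 ⟨hy0, hy0F⟩⟩
  rw [Finset.mem_sdiff] at hxm
  obtain ⟨hx, hxF⟩ := hxm
  have hxy : lexgt x y := by
    rw [SEGA_.lt_iff]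
    have h1 := hymin x0 hx0
    have h2 := hxmax y0 (Finset.mem_sdiff.2 ⟨hy0, hy0F⟩)
    rw [SEGA_.lt_iff] at hlt0
    exact lt_of_le_of_lt h1 (lt_of_lt_of_le hlt0 h2)
  have hsmall : ∀ w : Fin (m + 3) →₀ ℕ, lexgt y w → w ∉ F := by
    intro w hw hwF
    rw [SEGA_.lt_iff] at hw
    exact absurd hw (not_lt.2 (hymin w hwF))
  have hbig : ∀ w ∈ Std a d, lexgt w x → w ∈ F := by
    intro w hw hwx
    by_contra hwF
    rw [SEGA_.lt_iff] at hwx
    exact absurd hwx (not_lt.2 (hxmax w (Finset.mem_sdiff.2 ⟨hw, hwF⟩)))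
  have hne : ∀ i, x i ≠ y i := fun i hi => hxF (hC i y hy x hx hi hxy)
  have h0 : y 0 < x 0 := by
    obtain ⟨j, hj1, hj2⟩ := hxy
    by_cases hj : j = 0
    · rw [← hj]
      exact hj2
    · exact absurd (hj1 0 (Fin.pos_of_ne_zero hj)).symm (hne 0)
  have hlast := last_gt hF hC hx hxF hy h0 hne
  set l : Fin (m + 3) := Fin.last (m + 2) with hl
  have hx' := mem_std.1 hx
  have hy' := mem_std.1 (hF hy)
  have hxl := hx'.2 l
  have hxney : x ≠ y := fun h => hne 0 (by rw [h])
  -- the new family
  have hxe : x ∉ F.erase y := fun h => hxF (Finset.mem_of_mem_erase h)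
  refine ⟨insert x (F.erase y), ?_, ?_, ?_, ?_⟩
  · refine Finset.insert_subset hx ((Finset.erase_subset _ _).trans hF)
  · rw [Finset.card_insert_of_notMem hxe, Finset.card_erase_add_one hy]
  · -- the shadow
    have hyS : ad y l ∈ Std a (d + 1) := by
      rw [mem_std, ad_sum, hy'.1]
      refine ⟨rfl, fun k => ?_⟩
      by_cases hk : k = l
      · rw [hk, ad_self]
        omega
      · rw [ad_ne y hk]
        exact hy'.2 k
    have hyin : ad y l ∈ shadow a d F := mem_shadow.2 ⟨hyS, y, hy, ad_le y l⟩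
    have hynot : ad y l ∉ shadow a d (insert x (F.erase y)) := by
      intro h
      obtain ⟨_, w, hw, hwle⟩ := mem_shadow.1 h
      have hwS : w ∈ Std a d := by
        rw [Finset.mem_insert] at hw
        rcases hw with hw | hw
        · rw [hw]
          exact hx
        · exact hF (Finset.mem_of_mem_erase hw)
      obtain ⟨j, hj1, hj2⟩ := one_step (mem_std.1 hwS).1 (mem_std.1 hyS).1 hwle
      by_cases hjl : j = l
      · -- then `w = y`
        have hwy : w = y := by
          ext k
          by_cases hk : k = l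
          · rw [hjl, ad_self] at hj1
            rw [hk]
            omega
          · have h1 := hj2 k (by rw [hjl]; exact hk)
            rw [ad_ne y hk] at h1
            exact h1.symm
        rw [hwy, Finset.mem_insert] at hw
        rcases hw with hw | hw
        · exact hxney hw.symm
        · exact absurd hw (Finset.notMem_erase y F)
      · have hjl' : j < l := lt_of_le_of_ne (Fin.le_last j) hjl
        have hyw : lexgt y w := by
          refine ⟨j, fun k hk => ?_, ?_⟩
          · have h1 := hj2 k hk.ne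
            rw [ad_ne y (hk.trans hjl').ne] at h1
            exact h1.symm
          · rw [ad_ne y hjl] at hj1
            omega
        rw [Finset.mem_insert] at hw
        rcases hw with hw | hw
        · rw [hw] at hyw
          exact SEGA_.irr x (SEGA_.tr x y x hxy hyw)
        · exact hsmall w hyw (Finset.mem_of_mem_erase hw)
    have hsub : shadow a d (insert x (F.erase y)) ⊆
        insert (ad x l) ((shadow a d F).erase (ad y l)) := by
      intro t ht
      have htne : t ≠ ad y l := by
        intro h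
        rw [h] at ht
        exact hynot ht
      obtain ⟨htS, w, hw, hwle⟩ := mem_shadow.1 ht
      rw [Finset.mem_insert]
      rw [Finset.mem_insert] at hw
      rcases hw with hw | hw
      · rw [hw] at hwle
        obtain ⟨i, hi1, hi2⟩ := one_step hx'.1 (mem_std.1 htS).1 hwle
        by_cases hil : i = l
        · left
          rw [← hil]
          exact ad_eq hi1 hi2
        · right
          have hil' : i < l := lt_of_le_of_ne (Fin.le_last i) hil
          have htS' := mem_std.1 htS
          have hti := htS'.2 i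
          obtain ⟨v, hv, hv1, hv2, hv3⟩ := repl hx hil (u := x i + 1) (v := x l - 1)
            (by omega) (by omega) (by omega)
          have hvx : lexgt v x := by
            refine ⟨i, fun k hk => (hv3 k hk.ne (hk.trans hil').ne).symm, by omega⟩
          have hvF := hbig v hv hvx
          refine Finset.mem_erase.2 ⟨htne, mem_shadow.2 ⟨htS, v, hvF, ?_⟩⟩
          intro k
          by_cases hki : k = i
          · rw [hki, hv1, hi1]
          · rw [hi2 k hki]
            by_cases hkl : k = l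
            · rw [hkl, hv2]
              omega
            · rw [hv3 k hki hkl]
      · right
        exact Finset.mem_erase.2 ⟨htne, mem_shadow.2
          ⟨htS, w, Finset.mem_of_mem_erase hw, hwle⟩⟩
    calc (shadow a d (insert x (F.erase y))).card
        ≤ (insert (ad x l) ((shadow a d F).erase (ad y l))).card := Finset.card_le_card hsub
      _ ≤ ((shadow a d F).erase (ad y l)).card + 1 := Finset.card_insert_le _ _
      _ = (shadow a d F).card := Finset.card_erase_add_one hyin
  · -- the weight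
    unfold wt
    rw [Finset.sum_insert hxe]
    rw [← Finset.add_sum_erase F _ hy]
    refine Nat.add_lt_add_right ?_ _
    refine Finset.card_lt_card ?_
    rw [Finset.ssubset_iff_of_subset]
    · refine ⟨y, ?_, ?_⟩
      · rw [Finset.mem_filter]
        exact ⟨hF hy, hxy⟩
      · rw [Finset.mem_filter]
        exact fun h => SEGA_.irr y h.2
    · intro z hz
      rw [Finset.mem_filter] at hz ⊢
      exact ⟨hz.1, SEGA_.tr x y z hxy hz.2⟩

end Pool.Agent.EGT
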