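import Pool.Agent.EGT.Targets
import Pool.Agent.EGS.P_RED
import Pool.Agent.EGS.P_TRW

set_option autoImplicit false
open MvPolynomial hiding R

/-!
The tail lemma, all degrees: `T_TAG`.
-/

namespace Pool.Agent.EGT

open Pool.Agent.EGU Pool.Agent.EGS

universe u

namespace TAG_

theorem sh_mono {n : ℕ} {a : Fin n → ℕ} {d v G G' : ℕ} (h : Sh a d v G) (hG : G ≤ G') :
    Sh a d v G' := by
  obtain ⟨M, h1, h2, h3⟩ := h
  exact ⟨M, h1, h2, h3.trans hG⟩

theorem fin_mono {K : Type u} [Field K] {n e : ℕ} {U V : Submodule K (R K n)}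
    (hUV : U ≤ V) (hV : V ≤ Rd K n e) :
    Module.finrank K U ≤ Module.finrank K V := by
  have h1 : Module.Finite K (Rd K n e) := (t_dimr K n e).1
  have h2 : Module.Finite K V := Submodule.finiteDimensional_of_le hV
  exact Submodule.finrank_mono hUV

end TAG_

/-- Target TAG. -/
theorem p_TAG (h_RSG : T_RSG.{u}) (h_TLH : T_TLH.{u}) : T_TAG.{u} := by
  intro K _ _ n d N a hm hEA f hf W hW1 hW2 l hl hl0 hlW horth
  obtain ⟨g, hg0, hg, hgf⟩ := h_RSG K n f a hf hm l hl hl0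
  obtain ⟨W', hW'1, hW'2, hdim, hup, ho⟩ := h_TLH K n f g a hf hm hg hgf d W hW1 hW2
    (by rw [hg0]; exact hlW)
  obtain ⟨θ, hθ1, hθ2, hθ3, hθ4⟩ := p_RED K n (a ∘ Fin.succ) g hg
  obtain ⟨t1, t2, t3, t4, t5⟩ := p_TRW K n (a ∘ Fin.succ) g hg θ hθ1 hθ2 hθ3 hθ4 d W' hW'1 hW'2
  have t5' := t5 2
  have hgood := hEA _ hθ3 (W'.map θ.toLinearMap) t1 t2 (by omega)
  unfold GoodA at hgood
  -- dimension inequalities
  have hfup := t_upl K (n + 1) (n + 1) f _ hf.hom (d + (a 0 - 1)) W hW2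
  have hgup := t_upl K (n + 1) (n + 1) g _ hg.hom d W' hW'2
  have htup := t_upl K n n _ _ hθ3.hom d (W'.map θ.toLinearMap) t2
  have m1 := TAG_.fin_mono hW1 hW2
  have m2 := TAG_.fin_mono hW'1 hW'2
  have m3 := TAG_.fin_mono t1 t2
  have m4 := TAG_.fin_mono hfup.1 hfup.2.1
  have m5 := TAG_.fin_mono hgup.1 hgup.2.1
  have m6 := TAG_.fin_mono htup.1 htup.2.1
  have e1 : Module.finrank K (W'.map θ.toLinearMap) -
      Module.finrank K (Jd (fun i : Fin n => θ (g i.succ)) d) =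
      Module.finrank K W - Module.finrank K (Jd f (d + (a 0 - 1))) := by omega
  rw [e1] at hgood
  refine TAG_.sh_mono hgood ?_
  omega

end Pool.Agent.EGT
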