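import Pool.Agent.EGT.Targets
import Pool.Agent.EGS.P_SOK

set_option autoImplicit false
open MvPolynomial hiding R

/-!
# EGT, job TLH: the tail space modulo `g`, all degrees
-/

namespace Pool.Agent.EGT

open Pool.Agent.EGU Pool.Agent.EGS

universe u

noncomputable section

namespace TLH_

theorem fr_mono {K : Type u} [Field K] {n d : ℕ} {A B : Submodule K (R K n)} (hAB : A ≤ B)
    (hB : B ≤ Rd K n d) : Module.finrank K A ≤ Module.finrank K B := by
  haveI := (t_dimr K n d).1
  haveI : Module.Finite K B := Submodule.finiteDimensional_of_le hB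
  exact Submodule.finrank_mono hAB

/-- The sums of the two sequences. -/
theorem hS {n : ℕ} (a : Fin (n + 1) → ℕ) :
    S a (n + 1) = S (Fin.cons 1 (a ∘ Fin.succ) : Fin (n + 1) → ℕ) (n + 1) + (a 0 - 1) := by
  unfold S
  rw [Finset.filter_true_of_mem (fun i _ => i.isLt), Fin.sum_univ_succ, Fin.sum_univ_succ]
  simp only [Fin.cons_zero, Fin.cons_succ, Function.comp_apply]
  omega

theorem mono_b {n : ℕ} (a : Fin (n + 1) → ℕ) (ha : Monotone a) (hpos : ∀ i, 1 ≤ a i) :
    Monotone (Fin.cons 1 (a ∘ Fin.succ) : Fin (n + 1) → ℕ) := by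
  intro i j hij
  induction i using Fin.cases with
  | zero =>
    induction j using Fin.cases with
    | zero => exact le_refl _
    | succ j =>
      simp only [Fin.cons_zero, Fin.cons_succ, Function.comp_apply]
      exact hpos _
  | succ i =>
    induction j using Fin.cases with
    | zero => exact absurd hij (by simp)
    | succ j =>
      simp only [Fin.cons_succ, Function.comp_apply]
      exact ha hij

theorem mem_mul {K : Type u} [Field K] {n : ℕ} {a b c : ℕ} {p q : R K n} (hp : p ∈ Rd K n a)
    (hq : q ∈ Rd K n b) (h : a + b = c) : p * q ∈ Rd K n c := by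
  rw [mem_homogeneousSubmodule] at hp hq ⊢
  rw [← h]
  exact hp.mul hq

theorem mem_orth {K : Type u} [Field K] {n m : ℕ} {f : Fin m → R K n} {e : ℕ}
    {W : Submodule K (R K n)} {h : R K n} :
    h ∈ orth f e W ↔ h ∈ Rd K n e ∧ ∀ w ∈ W, h * w ∈ J f := Iff.rfl

theorem mem_Jd {K : Type u} [Field K] {n m : ℕ} {f : Fin m → R K n} {e : ℕ} {h : R K n} :
    h ∈ Jd f e ↔ h ∈ Rd K n e ∧ h ∈ J f := Iff.rfl

end TLH_

open TLH_ in
/-- TLH. -/
theorem p_TLH : T_TLH.{u} := by
  intro K _ n f g a hf haa hg hgJ d W hW1 hW2 hg0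
  have hSab := hS a
  have hmb := mono_b a haa hf.pos
  obtain ⟨sokf1, sokf2⟩ := p_SOK K (n + 1) f a hf haa
  obtain ⟨sokg1, sokg2⟩ := p_SOK K (n + 1) g (Fin.cons 1 (a ∘ Fin.succ)) hg hmb
  obtain ⟨c, hc⟩ : ∃ c, c = a 0 - 1 := ⟨_, rfl⟩
  rw [← hc] at hW1 hW2 hSab ⊢
  obtain ⟨s, hs⟩ : ∃ s, s = S (Fin.cons 1 (a ∘ Fin.succ) : Fin (n + 1) → ℕ) (n + 1) := ⟨_, rfl⟩
  rw [← hs] at hSab sokg1 sokg2
  rw [hSab] at sokf1 sokf2
  -- multiplication by elements of `J g`
  have hJg : ∀ w ∈ W, ∀ p ∈ J g, p * w ∈ J f := by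
    intro w hw p hp
    unfold J at hp
    refine Submodule.span_induction ?_ ?_ ?_ ?_ hp
    · rintro x ⟨i, rfl⟩
      induction i using Fin.cases with
      | zero => exact hg0 w hw
      | succ i => exact Ideal.mul_mem_right _ _ (hgJ i)
    · rw [zero_mul]; exact Ideal.zero_mem _
    · intro x y _ _ hx hy
      rw [add_mul]
      exact Ideal.add_mem _ hx hy
    · intro a x _ hx
      rw [smul_eq_mul, mul_assoc]
      exact Ideal.mul_mem_left _ _ hx
  have hupf := t_upl K (n + 1) (n + 1) f a hf.hom (d + c) W hW2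
  have hJup : Module.finrank K (Jd f (d + c + 1)) ≤ Module.finrank K (up f (d + c) W) :=
    fr_mono hupf.1 hupf.2.1
  rcases Nat.lt_or_ge s d with hnd | hdn
  · -- `s < d`
    have hW : W = Jd f (d + c) := by
      refine le_antisymm ?_ hW1
      rw [sokf2 (d + c) (by omega)]
      exact hW2
    have hJdg : Jd g d ≤ Rd K (n + 1) d := inf_le_left
    have hupg := t_upl K (n + 1) (n + 1) g _ hg.hom d (Jd g d) hJdg
    refine ⟨Jd g d, le_refl _, hJdg, ?_, ?_, ?_⟩
    · rw [hW]
    · rw [hupg.2.2.1]
      omega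
    · have h1 : orth f 2 W ≤ orth g 2 (Jd g d) := by
        intro h hh
        rw [mem_orth] at hh ⊢
        refine ⟨hh.1, fun w hw => ?_⟩
        exact Ideal.mul_mem_left _ _ (mem_Jd.mp hw).2
      exact fr_mono h1 (hupg.2.2.2.2.2.2.1 2).2
  · -- `d ≤ s`
    obtain ⟨e, he⟩ : ∃ e, e + d = s := ⟨s - d, by omega⟩
    have hQ1 : ∀ i, Jd g i ≤ orth f i W := by
      intro i p hp
      rw [mem_Jd] at hp
      rw [mem_orth]
      exact ⟨hp.1, fun w hw => hJg w hw p hp.2⟩
    have hQ2 : ∀ i, orth f i W ≤ Rd K (n + 1) i := fun i p hp => (mem_orth.mp hp).1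
    have hstd := (t_std (n + 1) a hf.pos).1
    rw [hSab] at hstd
    have hW'g := t_upl K (n + 1) (n + 1) g _ hg.hom e (orth f e W) (hQ2 e)
    have hW'1 : Jd g d ≤ orth g d (orth f e W) := (hW'g.2.2.2.2.2.2.1 d).1
    have hW'2 : orth g d (orth f e W) ≤ Rd K (n + 1) d := (hW'g.2.2.2.2.2.2.1 d).2
    have hupg := t_upl K (n + 1) (n + 1) g _ hg.hom d (orth g d (orth f e W)) hW'2
    refine ⟨orth g d (orth f e W), hW'1, hW'2, ?_, ?_, ?_⟩
    · -- the dimension
      have P1 := a_perf K (n + 1) g _ hg hmb e d (by rw [← hs]; exact he) (orth f e W)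
        (hQ1 e) (hQ2 e)
      have P2 := a_perf K (n + 1) f _ hf haa (d + c) e (by rw [hSab]; omega) W
        hW1 hW2
      have H1 := a_hf K (n + 1) f _ hf (d + c)
      have H2 := a_hf K (n + 1) f _ hf e
      have H3 := hstd (d + c) e (by omega)
      omega
    · -- the growth
      rcases Nat.eq_zero_or_pos e with he0 | he0
      · have h1 : up g d (orth g d (orth f e W)) ≤ Jd g (d + 1) := by
          rw [sokg2 (d + 1) (by omega)]
          exact hupg.2.1
        have h2 := fr_mono h1 (inf_le_left : Jd g (d + 1) ≤ Rd K (n + 1) (d + 1))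
        omega
      · obtain ⟨e', rfl⟩ : ∃ e', e = e' + 1 := ⟨e - 1, by omega⟩
        have h1 : up g d (orth g d (orth f (e' + 1) W)) ≤ orth g (d + 1) (orth f e' W) := by
          unfold up
          refine sup_le ?_ ?_
          · rw [Submodule.mul_le]
            intro l hl w' hw'
            rw [mem_orth] at hw' ⊢
            refine ⟨mem_mul hl hw'.1 (by omega), fun q hq => ?_⟩
            rw [mem_orth] at hq
            have h2 : l * q ∈ orth f (e' + 1) W := by
              rw [mem_orth]
              refine ⟨mem_mul hl hq.1 (by omega), fun w hw => ?_⟩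
              rw [mul_assoc]
              exact Ideal.mul_mem_left _ _ (hq.2 w hw)
            have h3 := hw'.2 (l * q) h2
            have h4 : l * w' * q = w' * (l * q) := by ring
            rw [h4]
            exact h3
          · exact ((t_upl K (n + 1) (n + 1) g _ hg.hom e' (orth f e' W)
              (hQ2 e')).2.2.2.2.2.2.1 (d + 1)).1
        have h1' := fr_mono h1 ((t_upl K (n + 1) (n + 1) g _ hg.hom e' (orth f e' W)
              (hQ2 e')).2.2.2.2.2.2.1 (d + 1)).2
        have P3 := a_perf K (n + 1) g _ hg hmb e' (d + 1) (by rw [← hs]; omega)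
          (orth f e' W) (hQ1 e') (hQ2 e')
        have P4 := a_perf K (n + 1) f _ hf haa (d + c + 1) e' (by rw [hSab]; omega)
          (up f (d + c) W) hupf.1 hupf.2.1
        have h5 : orth f e' (up f (d + c) W) ≤ orth f e' W := by
          intro h hh
          rw [mem_orth] at hh ⊢
          refine ⟨hh.1, fun w hw => ?_⟩
          refine sokf1 1 (e' + (d + c)) (by omega) (h * w) (mem_mul hh.1 (hW2 hw) rfl) ?_
          intro l hl
          have h6 : l * w ∈ up f (d + c) W := by
            unfold up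
            exact Submodule.mem_sup_left (Submodule.mul_mem_mul hl hw)
          have h7 := hh.2 (l * w) h6
          have h8 : l * (h * w) = h * (l * w) := by ring
          rw [h8]
          exact h7
        have h5' := fr_mono h5 (hQ2 e')
        have H1 := a_hf K (n + 1) f _ hf (d + c + 1)
        have H2 := a_hf K (n + 1) f _ hf e'
        have H3 := hstd (d + c + 1) e' (by omega)
        omega
    · -- the last claim
      have h1 : orth f 2 W ≤ orth g 2 (orth g d (orth f e W)) := by
        intro h hh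
        rw [mem_orth] at hh ⊢
        refine ⟨hh.1, fun w' hw' => ?_⟩
        rw [mem_orth] at hw'
        have hdeg : h * w' ∈ Rd K (n + 1) (2 + d) := mem_mul hh.1 hw'.1 rfl
        rcases Nat.lt_or_ge s (d + 2) with h2 | h2
        · have h3 := sokg2 (2 + d) (by omega)
          rw [← h3] at hdeg
          exact (mem_Jd.mp hdeg).2
        · obtain ⟨k, hk⟩ : ∃ k, k + 2 = e := ⟨e - 2, by omega⟩
          refine sokg1 k (2 + d) (by omega) (h * w') hdeg ?_
          intro b hb
          have h3 : b * h ∈ orth f e W := by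
            rw [mem_orth]
            refine ⟨mem_mul hb hh.1 hk, fun w hw => ?_⟩
            rw [mul_assoc]
            exact Ideal.mul_mem_left _ _ (hh.2 w hw)
          have h4 := hw'.2 (b * h) h3
          have h5 : b * (h * w') = w' * (b * h) := by ring
          rw [h5]
          exact h4
      exact fr_mono h1 ((t_upl K (n + 1) (n + 1) g _ hg.hom d (orth g d (orth f e W))
        hW'2).2.2.2.2.2.2.1 2).2

end

end Pool.Agent.EGT
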