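import Pool.Agent.EGT.Targets
import Pool.Agent.EGS.Num
import Pool.Agent.EGS.P_DUA

set_option autoImplicit false
open MvPolynomial hiding R

/-!
# Project EGT, target VTW: small and top dimensions, duality
-/

namespace Pool.Agent.EGT

open Pool.Agent.EGU Pool.Agent.EGS

universe u

namespace VTW_

section
variable {K : Type u} [Field K] {n : ℕ} {a : Fin n → ℕ}

/-- Small dimensions. -/
theorem small (f : Fin n → R K n) (hf : CI f a) (hm : Monotone a) (ha : ∀ i, 2 ≤ a i) (d : ℕ)
    (W : Submodule K (R K n)) (h1 : Jd f d ≤ W) (h2 : W ≤ Rd K n d)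
    (h3 : Module.finrank K W ≤ Module.finrank K (Jd f d) + 2) : GoodA a f d W := by
  have f0 := (t_dimr K n d).1
  have f1 := fin_le t_dimr h2
  have e1 := Submodule.finrank_mono h1
  have e2 := Submodule.finrank_mono h2
  have e3 := a_hf K n f a hf d
  obtain ⟨v, hv⟩ : ∃ v, Module.finrank K W = Module.finrank K (Jd f d) + v :=
    ⟨Module.finrank K W - Module.finrank K (Jd f d), by omega⟩
  obtain ⟨G, hG, hgr⟩ := good t_dimr t_upl a_ann a_uni a_tru t_bc1 a_bc2 a_bv a_v2 t_num t_std
    t_shb t_sh1 t_sh2 t_sh3 K n f a hf hm ha d v (by omega) (Or.inl (by omega))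
  have h4 := hgr W h1 h2 hv
  unfold GoodA
  rw [hv, Nat.add_sub_cancel_left]
  exact NU_.sh_mono hG (by omega)

/-- The top degree. -/
theorem top (f : Fin n → R K n) (hf : CI f a) (hm : Monotone a) (ha : ∀ i, 2 ≤ a i) (d : ℕ)
    (W : Submodule K (R K n)) (h1 : Jd f d ≤ W) (h2 : W ≤ Rd K n d) (hd : S a n ≤ d) :
    GoodA a f d W := by
  refine small f hf hm ha d W h1 h2 ?_
  have f0 := (t_dimr K n d).1
  have e2 := Submodule.finrank_mono h2
  have e3 := a_hf K n f a hf d
  obtain ⟨-, -, s3, s4⟩ := t_std n a (fun i => le_trans (by norm_num) (ha i))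
  have e4 : (Std a d).card ≤ 1 := by
    rcases hd.eq_or_lt with h | h
    · rw [← h, s3]
    · rw [s4 d h, Finset.card_empty]
      exact Nat.zero_le 1
  omega

/-- Duality. -/
theorem dual (f : Fin n → R K n) (hf : CI f a) (hm : Monotone a) (ha : ∀ i, 2 ≤ a i)
    (d d' : ℕ) (hd : d + d' + 1 = S a n) (W : Submodule K (R K n)) (h1 : Jd f d ≤ W)
    (h2 : W ≤ Rd K n d) (hg : GoodA a f d' (orth f d' (up f d W))) : GoodA a f d W := by
  obtain ⟨k1, k2, k3, k4⟩ := p_DUA K n f a hf hm d d' hd W h1 h2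
  have hup := t_upl K n n f a hf.hom d W h2
  have hup' := t_upl K n n f a hf.hom d' _ k2
  have f1 := fin_le t_dimr h2
  have f2 := fin_le t_dimr k2
  have f3 := fin_le t_dimr hup.2.1
  have f4 := fin_le t_dimr hup'.2.1
  have e1 := Submodule.finrank_mono h1
  have e2 := Submodule.finrank_mono k1
  have e3 := Submodule.finrank_mono hup.1
  have e4 := Submodule.finrank_mono hup'.1
  have e5 := a_hf K n f a hf d
  have e6 := a_hf K n f a hf (d + 1)
  have f5 := (t_dimr K n d).1
  have e7 := Submodule.finrank_mono h2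
  unfold GoodA at hg
  have h3 := a_shd n a d d' (Module.finrank K W - Module.finrank K (Jd f d)) _ _
    (fun i => le_trans (by norm_num) (ha i)) hd hg (by omega)
  unfold GoodA
  refine NU_.sh_mono h3 ?_
  omega

end

end VTW_

open VTW_ in
/-- Small and top dimensions, duality. -/
theorem p_VTW : T_VTW.{u} := fun _ _ _ f _ hf hm ha d W h1 h2 =>
  ⟨small f hf hm ha d W h1 h2, top f hf hm ha d W h1 h2,
    fun d' hd hg => dual f hf hm ha d d' hd W h1 h2 hg⟩

end Pool.Agent.EGT
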