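import Pool.Agent.EGS.Targets

set_option autoImplicit false
open MvPolynomial hiding R

/-!
# Project EGT (MP_e5dae2_al): Eisenbud-Green-Harris for more degree sequences

The theorem: EGH holds for the degrees `a_1 ≤ ... ≤ a_n` (every field) if for some `m ≤ n`:
`m ≤ 3` or `∑_{i ≤ m} (a_i - 1) ≤ 6`, and `a_j > ∑_{i < j} (a_i - 1)` for all `j > m`; and for all
degrees and all `I` with `dim (R/I)_2 ≤ 2 n0` if the last `n0` degrees satisfy this condition
(`n0 = 3` is always possible). Tools: the theorem of Clements and Lindström (part A), tails for all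
degrees (part B), the extension by a large degree, due to Caviglia and Maclagan (part C).

Everything proved in `Pool/Agent/EGU` and `Pool/Agent/EGS` may be used. Every target has its proof
in the docstring. A job proves `theorem Pool.Agent.EGT.p_XXX (h1 : T_A) ... : T_XXX`.
-/

namespace Pool.Agent.EGT

open Pool.Agent.EGU Pool.Agent.EGS

universe u

noncomputable section

/-! ## A. The theorem of Clements and Lindström -/

/-- The exponent vector `y` with the coordinate `c` inserted at the place `i`. -/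
def ins {n : ℕ} (i : Fin (n + 1)) (c : ℕ) (y : Fin n →₀ ℕ) : Fin (n + 1) →₀ ℕ :=
  Finsupp.equivFunOnFinite.symm (i.insertNth (α := fun _ => ℕ) c y)

/-- The exponent vector `x` without the coordinate at the place `i`. -/
def rmv {n : ℕ} (i : Fin (n + 1)) (x : Fin (n + 1) →₀ ℕ) : Fin n →₀ ℕ :=
  Finsupp.equivFunOnFinite.symm fun j => x (i.succAbove j)

/-- The theorem of Clements and Lindström for the exponents `a`: initial lex segments have the
smallest shadows. -/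
def CL {n : ℕ} (a : Fin n → ℕ) : Prop :=
  ∀ (d : ℕ) (F M : Finset (Fin n →₀ ℕ)), F ⊆ Std a d → IsSeg a d M → M.card ≤ F.card →
    (shadow a d M).card ≤ (shadow a d F).card

open Classical in
/-- The sum of the numbers of smaller standard monomials. -/
def wt {n : ℕ} (a : Fin n → ℕ) (d : ℕ) (F : Finset (Fin n →₀ ℕ)) : ℕ :=
  ∑ x ∈ F, ((Std a d).filter fun y => lexgt x y).card

/-- `F` is compressed in the direction `i`. -/
def Cmp {n : ℕ} (a : Fin n → ℕ) (d : ℕ) (i : Fin n) (F : Finset (Fin n →₀ ℕ)) : Prop :=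
  ∀ y ∈ F, ∀ x ∈ Std a d, x i = y i → lexgt x y → x ∈ F

/-- `F'` is better than `F`. -/
def Btr {n : ℕ} (a : Fin n → ℕ) (d : ℕ) (F F' : Finset (Fin n →₀ ℕ)) : Prop :=
  F' ⊆ Std a d ∧ F'.card = F.card ∧ (shadow a d F').card ≤ (shadow a d F).card ∧
    wt a d F < wt a d F'

/-- CMP. Compression in the direction `i`. PROOF. `a' = a ∘ i.succAbove`. For `c < a i`, `c ≤ d` let
`F_c = {y ∈ Std a' (d - c) | ins i c y ∈ F}` and `M_c` the initial segment of `Std a' (d - c)` with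
`#M_c = #F_c` (T_SEGA). `F'` = the union of the `ins i c '' M_c`. `#F' = #F`. SHADOW: for any family
`(F_c)` an element `x` of the shadow with `x i = c` has `rmv i x ∈ shadow a' (d-c) F_c ∪ F_{c-1}`
(`x = y + e_k`, `k ≠ i` or `k = i`), and conversely. So the shadow of `F` has
`∑_{c < a i} #(shadow F_c ∪ F_{c-1}) ≥ ∑ max (#shadow F_c) (#F_{c-1})` elements, which is at least
`∑ max (#shadow M_c) (#M_{c-1})` by `CL a'`; for the `M_c` the sets `shadow M_c` and `M_{c-1}` are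
both initial segments of `Std a' (d+1-c)` (T_SEGB), so nested (T_SEGA), and this is the number of
elements of the shadow of `F'`. WEIGHT: `lexgt (ins i c x) (ins i c y) ↔ lexgt x y`. General
lemma: if `A`, `B ⊆ Std a d`, `#A = #B`, `A ≠ B` and every element of `A \ B` is greater than every
element of `B \ A` then `wt B < wt A` (the function `x ↦ #{y | lexgt x y}` is strictly monotone on
`Std a d`). Apply it in every layer `x i = c`; since `F` is not compressed some `F_c ≠ M_c`. -/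
def T_CMP : Prop := ∀ (n : ℕ) (a : Fin (n + 1) → ℕ) (i : Fin (n + 1)), CL (a ∘ i.succAbove) →
  ∀ (d : ℕ) (F : Finset (Fin (n + 1) →₀ ℕ)), F ⊆ Std a d → ¬ Cmp a d i F → ∃ F', Btr a d F F'

/-- SWP. The exchange. PROOF. Let `y` be the smallest element of `F`, `x` the greatest element of
`Std a d` which is not in `F`; `lexgt x y` since `F` is not an initial segment. All coordinates of
`x` and `y` differ (`Cmp`), so `x_0 > y_0`. (*) There is no standard `z` of degree `d` with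
`x > z > y` sharing a coordinate with `x` and a coordinate with `y`: if `z ∈ F` then `x ∈ F` by
`Cmp`, if `z ∉ F` then `z ∈ F` by `Cmp`. Let `l = n - 1` be the last index. CLAIM `x_l > y_l`.
Suppose `x_l < y_l`. (α) `x_j > y_j` for some `0 < j < l`. If `x_l + (x_j - y_j) < a_l` let `z` be
`x` with the coordinates `j`, `l` replaced by `y_j`, `x_l + (x_j - y_j)`; it contradicts (*)
(`z_0 = x_0`, `z_j = y_j`). Otherwise `x_j - y_j > y_l - x_l`; let `z` be `x` with the coordinates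
`j`, `l` replaced by `x_j - (y_l - x_l)`, `y_l`; it contradicts (*). (β) `x_j < y_j` for all
`0 < j < l` (there is such a `j`, `n ≥ 3`). As `∑ x = ∑ y`, `x_0 - y_0 > y_l - x_l`. Let `z` be `x`
with the coordinates `0`, `l` replaced by `x_0 - (y_l - x_l) > y_0`, `y_l`; it contradicts (*)
(`z_1 = x_1`, `z_l = y_l`). So `x_l > y_l`. Let `F' = F \ {y} ∪ {x}`. `y + e_l` is standard
(`y_l < x_l < a_l`), is in the shadow of `F`, and is not in the shadow of `F'`: an element `w` with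
`y + e_l = w + e_j`, `w ≠ y` has `j ≠ l` and `w < y`, so `w ∉ F`, `w ≠ x`. If `x + e_i` is
standard and `i < l` then `w = x + e_i - e_l` (`x_l > 0`) is standard, `w > x`, so `w ∈ F`,
`w ≠ y`, and `x + e_i` is in the shadow of `F \ {y}`. So the shadow of `F'` is contained in
(shadow of `F` without `y + e_l`) `∪ {x + e_l}`. The weight: replace `y` by `x > y`. -/
def T_SWP : Prop := ∀ (n : ℕ) (a : Fin n → ℕ), 3 ≤ n → ∀ (d : ℕ) (F : Finset (Fin n →₀ ℕ)),
  F ⊆ Std a d → (∀ i, Cmp a d i F) → ¬ IsSeg a d F → ∃ F', Btr a d F F'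

/-- CLB. At most two variables. PROOF. `n ≤ 1`: `Std a d` has at most one element. `n = 2`: a
standard monomial of degree `d` is determined by its first coordinate, in `[lo, hi]`,
`lo = max 0 (d + 1 - a_1)`, `hi = min d (a_0 - 1)`; `lo'`, `hi'` the same for `d + 1`. Let `A`,
`A_M` be the sets of first coordinates of `F`, `M`, `w = #F ≥ v = #M ≥ 1`; the shadow corresponds to
`(A ∪ (A + 1)) ∩ [lo', hi']`. `#(A ∪ (A+1)) ≥ w + 1`, with equality iff `A` is an interval.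
`A_M = [hi - v + 1, hi]`. (1) `hi < a_0 - 1`: then `hi = d`, `d + 1 < a_0 ≤ a_1`, so `lo = lo' = 0`,
`hi' = d + 1`, the shadows have `≥ w + 1` and `v + 1` elements. (2) `hi = a_0 - 1`: the shadow of
`M` has at most `v` elements (`hi + 1 > hi'`). The shadow of `F` loses at most the two points
`hi + 1` and `lo`. If `w > v`: at least `w - 1 ≥ v`. If `w = v` and only one point is lost: at
least `v`. If both are lost (`lo, hi ∈ A`) and `A` is not an interval: at least `v + 2 - 2`. If `A`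
is an interval containing `lo` and `hi` then `F` is everything, and `M = F`. -/
def T_CLB : Prop := ∀ (n : ℕ) (a : Fin n → ℕ), n ≤ 2 → Monotone a → CL a

/-- CLT. The theorem of Clements and Lindström. PROOF. Induction on `n`; `n ≤ 2`: T_CLB. `n ≥ 3`:
among the finitely many `F' ⊆ Std a d` with `#F' = #F` and `#shadow F' ≤ #shadow F` choose one with
maximal `wt`. By T_CMP (`a ∘ i.succAbove` is monotone) it is compressed in all directions, by T_SWP
it is an initial segment, so it contains `M` (T_SEGA) and its shadow contains the one of `M`. -/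
def T_CLT : Prop := ∀ (n : ℕ) (a : Fin n → ℕ), Monotone a → CL a

/-- KCG. The combination of the tails. PROOF. As T_KKC of EGS (see `Pool/Agent/EGS/P_KKC.lean`):
`M0`, `M1` initial segments of `Std (a ∘ succ) d`, `Std (a ∘ succ) (d+1)` of sizes `k0`, `k1`, and
`F = {(a_0 - 1, y) : y ∈ M0} ∪ {(a_0 - 2, y) : y ∈ M1} ⊆ Std a (d + (a_0 - 1))`. Its shadow is
contained in `{(a_0 - 1, z) : z ∈ shadow M0 ∪ M1} ∪ {(a_0 - 2, z) : z ∈ shadow M1}`; `shadow M0` and
`M1` are nested. T_CLT. -/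
def T_KCG : Prop := ∀ (n : ℕ) (a : Fin (n + 1) → ℕ), Monotone a → (∀ i, 2 ≤ a i) →
  ∀ d k0 k1 u0 u1 : ℕ, Sh (a ∘ Fin.succ) d k0 u0 → Sh (a ∘ Fin.succ) (d + 1) k1 u1 →
  Sh a (d + (a 0 - 1)) (k0 + k1) (max u0 k1 + u1)

/-! ## B. Tails for all degrees -/

/-- The growth inequality for `W` in degree `d`. -/
def GoodA {K : Type u} [Field K] {n : ℕ} (a : Fin n → ℕ) (f : Fin n → R K n) (d : ℕ)
    (W : Submodule K (R K n)) : Prop :=
  Sh a d (Module.finrank K W - Module.finrank K (Jd f d))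
    (Module.finrank K (up f d W) - Module.finrank K (Jd f (d + 1)))

/-- The growth inequality in degree `d` for all regular sequences of degrees `a` and all `W` with
`dim R_2 / (J : W)_2 ≤ N`. -/
def EA (K : Type u) [Field K] {n : ℕ} (a : Fin n → ℕ) (d N : ℕ) : Prop :=
  ∀ f : Fin n → R K n, CI f a → ∀ W : Submodule K (R K n), Jd f d ≤ W → W ≤ Rd K n d →
    Module.finrank K (Rd K n 2) ≤ Module.finrank K (orth f 2 W) + N → GoodA a f d W

/-- The growth inequality for all regular sequences of degrees `a`. -/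
def EG (K : Type u) [Field K] {n : ℕ} (a : Fin n → ℕ) : Prop := ∀ d N, EA K a d N

/-- VTW. Small and top dimensions. PROOF. First: `good` in `Pool/Agent/EGU/Final.lean` with
`Rng a d v` from `v ≤ 2` (all its hypotheses are `t_..`, `a_..` of EGU); `Sh` is monotone in the
last argument. Second: `S a n ≤ d`: `R_{d+1} = J_{d+1}` (`p_SOK` of EGS), `dim W - dim J_d ≤ 1`
(`Std a (S a n)` has one element, T_STD), so it follows from the first part (or directly). Third:
duality, as `ASM_.dual` in `Pool/Agent/EGS/P_ASM.lean`: T_DUA, `a_shd`, `a_hf`. -/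
def T_VTW : Prop := ∀ (K : Type u) [Field K] (n : ℕ) (f : Fin n → R K n) (a : Fin n → ℕ),
  CI f a → Monotone a → (∀ i, 2 ≤ a i) → ∀ (d : ℕ) (W : Submodule K (R K n)), Jd f d ≤ W →
  W ≤ Rd K n d →
  (Module.finrank K W ≤ Module.finrank K (Jd f d) + 2 → GoodA a f d W) ∧
  (S a n ≤ d → GoodA a f d W) ∧
  (∀ d', d + d' + 1 = S a n → GoodA a f d' (orth f d' (up f d W)) → GoodA a f d W)

/-- RSG. Completing a linear form to a regular sequence, all degrees. PROOF. As T_RES (see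
`Pool/Agent/EGS/P_RES.lean`): construct `g : Fin (k+1) → R` with `g 0 = l`,
`CI g (Fin.cons 1 (first k entries of a ∘ succ))`, `g (succ i) ∈ J f`, for `k ≤ n`. Step `k < n`:
let `α = a (k+1)` (the degree of the next form), `V = Jd f α`. If all `v ∈ V` are zero divisors
modulo `J g` then T_AVO gives `h ∉ J g` with `V h ⊆ J g`. For `i ≤ k + 1` (so `a i ≤ α`) and
`q ∈ R_{α - a i}`: `q f_i ∈ V`, so `q (f_i h) ∈ J g`; hence `f_i h ∈ J g`: iterate the statement
`(∀ j, X_j p ∈ J g) → p ∈ J g`, which is T_ACY for the regular sequence `X` (length `n + 1`,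
`t_xci` or `a_lci`) and `g` (length `k + 1 < n + 1`), level `0`. T_ACY for `f_0, ..., f_{k+1}`
(length `k + 2`) and `g`, level `0`: `h ∈ J g`. -/
def T_RSG : Prop := ∀ (K : Type u) [Field K] [Infinite K] (n : ℕ)
  (f : Fin (n + 1) → R K (n + 1)) (a : Fin (n + 1) → ℕ), CI f a → Monotone a →
  ∀ l ∈ Rd K (n + 1) 1, l ≠ 0 →
  ∃ g : Fin (n + 1) → R K (n + 1), g 0 = l ∧ CI g (Fin.cons 1 (a ∘ Fin.succ)) ∧
    ∀ i : Fin n, g i.succ ∈ J f

/-- TLH. The tail space modulo `g`, all degrees. PROOF. As T_TLG (see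
`Pool/Agent/EGS/P_TLG.lean`), with `s = S a (n+1)`, `b = Fin.cons 1 (a ∘ succ)`,
`s' = S b (n+1) = s - (a 0 - 1)`. If `s' < d`: `W = J_{d + (a 0 - 1)} f`, `W' = J_d g`. Otherwise
`e = s' - d`, so `e + (d + (a 0 - 1)) = s`; `Q_i = orth f i W`, `W' = orth g d Q_e`. -/
def T_TLH : Prop := ∀ (K : Type u) [Field K] (n : ℕ) (f g : Fin (n + 1) → R K (n + 1))
  (a : Fin (n + 1) → ℕ), CI f a → Monotone a → CI g (Fin.cons 1 (a ∘ Fin.succ)) →
  (∀ i : Fin n, g i.succ ∈ J f) →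
  ∀ (d : ℕ) (W : Submodule K (R K (n + 1))), Jd f (d + (a 0 - 1)) ≤ W →
  W ≤ Rd K (n + 1) (d + (a 0 - 1)) → (∀ w ∈ W, g 0 * w ∈ J f) →
  ∃ W' : Submodule K (R K (n + 1)), Jd g d ≤ W' ∧ W' ≤ Rd K (n + 1) d ∧
    Module.finrank K W' + Module.finrank K (Jd f (d + (a 0 - 1))) =
      Module.finrank K (Jd g d) + Module.finrank K W ∧
    Module.finrank K (up g d W') + Module.finrank K (Jd f (d + (a 0 - 1) + 1)) ≤
      Module.finrank K (Jd g (d + 1)) + Module.finrank K (up f (d + (a 0 - 1)) W) ∧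
    Module.finrank K (orth f 2 W) ≤ Module.finrank K (orth g 2 W')

/-- TAG. The tail lemma, all degrees. PROOF. As T_TAI (see `Pool/Agent/EGS/P_TAI.lean`), from
T_RSG, T_TLH, and T_RED, T_TRW of EGS. -/
def T_TAG : Prop := ∀ (K : Type u) [Field K] [Infinite K] (n d N : ℕ) (a : Fin (n + 1) → ℕ),
  Monotone a → EA K (a ∘ Fin.succ) d N → ∀ f : Fin (n + 1) → R K (n + 1), CI f a →
  ∀ W : Submodule K (R K (n + 1)), Jd f (d + (a 0 - 1)) ≤ W → W ≤ Rd K (n + 1) (d + (a 0 - 1)) →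
  ∀ l ∈ Rd K (n + 1) 1, l ≠ 0 → (∀ w ∈ W, l * w ∈ J f) →
  Module.finrank K (Rd K (n + 1) 2) ≤ Module.finrank K (orth f 2 W) + N →
  Sh (a ∘ Fin.succ) d (Module.finrank K W - Module.finrank K (Jd f (d + (a 0 - 1))))
    (Module.finrank K (up f (d + (a 0 - 1)) W) -
      Module.finrank K (Jd f (d + (a 0 - 1) + 1)))

/-- PSG. The main step, all degrees. PROOF. As T_PST (see `Pool/Agent/EGS/P_PST.lean`). T_PRD of EGS
gives `l`, `l'` (`N ≤ 2 n`), `dim (kerW f l W) ≥ dim (kerW f l' W)`. (1) `d = e + (a 0 - 1)`: T_TAG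
for `kerW f l W` (degree `e + (a 0 - 1)`) and for `mulW f d l W` (degree `(e+1) + (a 0 - 1)`,
killed by `l'`), T_KCG, T_SPLIT and T_SP2. (2) `d + 1 < a 0`: `J_{d+1} = 0` (all `a i ≥ a 0`), so
`kerW f l W = 0`. If `d + 2 < a 0` then `J_{d+2} = 0` and `l (l' w) ∈ J` gives `W = 0`. If
`d + 2 = a 0`: T_TAG for `mulW f d l W` in degree `0 + (a 0 - 1)` gives a segment of
`Std (a ∘ succ) 0`, which has one element, so `dim W ≤ 1`. T_VTW (dimension `≤ 2`). -/
def T_PSG : Prop := ∀ (K : Type u) [Field K] [IsAlgClosed K] (n N : ℕ) (a : Fin (n + 1) → ℕ),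
  Monotone a → (∀ i, 2 ≤ a i) → N ≤ 2 * n → (∀ d, EA K (a ∘ Fin.succ) d N) → ∀ d, EA K a d N

/-- NTH. Three variables. PROOF. `Pool.Agent.EGH.all_growth` (import `Pool.Agent.EGH.All`).
Translate: `EGH.CI f a` from `CI f a` (`reg` for `j = 0, 1, 2`, the ideals generated by the
previous elements), `EGH.Jd = EGU.Jd`, `EGH.up = EGU.up` (definitional or by unfolding). Let
`v = dim W - dim J_d ≤ (Std a d).card` (`a_hf`), `M` the initial segment of size `v` (T_SEGA);
transport `M` to triples `(x 0, x 1, x 2)`: an initial segment in the sense of EGH with a shadow of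
the same size. -/
def T_NTH : Prop := ∀ (K : Type u) [Field K] (a : Fin 3 → ℕ), Monotone a → (∀ i, 2 ≤ a i) → EG K a

/-- HTW. PROOF. A standard monomial of degree `2` is `e_i + e_j`, `i < j` (`n.choose 2` of them), or
`2 e_i` with `a i ≥ 3`; the number of `i` with `a i ≥ 3` is at most `∑ (a i - 2) = S a n - n`. -/
def T_HTW : Prop := ∀ (n : ℕ) (a : Fin n → ℕ), (∀ i, 2 ≤ a i) →
  (Std a 2).card + n ≤ n.choose 2 + S a n

/-- ASG. Sequences with `∑ (a_i - 1) ≤ 6` in at least four variables. PROOF. `m = n + 1 ≥ 4`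
variables, `s = S a m ≤ 6`, `m ≤ s`. If `m = 6` then `a = tw 6` (all `a i - 1 ≥ 1`): `p_ASM` of
EGS (`GoodA (tw 6)` is `Good`). Let `m ∈ {4, 5}`. T_PSG: `GoodA a f d W` if
`dim R_2 - dim (orth f 2 W) ≤ 2 n`. `h2 = (Std a 2).card ≤ m.choose 2 + 6 - m` (T_HTW): `h2 ≤ 8` for
`m = 4`, `h2 ≤ 11` for `m = 5`. `d = 0`: `dim W ≤ 1`, T_VTW. `d ≥ s`: T_VTW. `d = 1`: if
`dim W ≤ 2`, T_VTW; otherwise `u ≥ m - 1` (`a_grow`: the first summand is
`m - Pt a 1 1 ≥ m - 1`), the linked space `W'` in degree `s - 2` (T_DUA) has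
`dim R_2 - dim (orth f 2 W') ≤ dim W' - dim J_{s-2} ≤ h2 - (m - 1) ≤ 2 n` (T_MTW), so it is good,
and T_VTW. `d = 2`, `s ≥ 5`: if `dim W - dim J_2 ≤ 2`, T_VTW; otherwise for the linked space `W'` in
degree `s - 3`: `dim R_2 - dim (orth f 2 W') ≤ u' ≤ h2 - 3 ≤ 2 n`. The other degrees
(`d = s - 1, s - 2, s - 3`) by duality: `W'` has degree `0`, `1`, `2`. -/
def T_ASG : Prop := ∀ (K : Type u) [Field K] [IsAlgClosed K] (n : ℕ) (a : Fin (n + 1) → ℕ),
  3 ≤ n → Monotone a → (∀ i, 2 ≤ a i) → S a (n + 1) ≤ 6 → EG K (a ∘ Fin.succ) → EG K a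

/-! ## C. A large last degree -/

/-- GLF. A generic linear form for `n` forms in `n + 1` variables. PROOF. (1) T_AVO with `I = J f`,
`V = R_1`: if all linear forms are zero divisors modulo `J f`, then `R_1 h ⊆ J f` for some
`h ∉ J f`, against T_ACY for the regular sequence `X` (length `n + 1`) and `f` (length `n`), level
`0`. So there is `l ∈ R_1` with `l p ∈ J f → p ∈ J f`; `l ≠ 0` as `1 ∉ J f`. (2) For all `j`: `l` is
a nonzerodivisor modulo `J_j = (f_i : i < j)`, downwards from `j = n`: let `l p ∈ J_j`, `p`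
homogeneous (T_JD); then `p ∈ J_{j+1}`, `p = p_0 + f_j p_1`, `p_0 ∈ J_j`, `f_j (l p_1) ∈ J_j`, so
`l p_1 ∈ J_j`; induction on the degree of `p` gives `p_1 ∈ J_j`. (3) `θ` with kernel `(l)` as in
T_RED (see `Pool/Agent/EGS/P_RED.lean`): `θ X_{i0.succAbove j} = X_j`. (4) `CI (θ ∘ f) a`: if
`θ p * θ f_j` is in the ideal of the `θ f_i`, `i < j`, then `p f_j - l q ∈ J_j`, so
`l q ∈ J_{j+1}`, `q ∈ J_{j+1}`, `q = q_0 + f_j q_1`, and `f_j (p - l q_1) ∈ J_j`, so
`p - l q_1 ∈ J_j`. The last part is clear. -/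
def T_GLF : Prop := ∀ (K : Type u) [Field K] [Infinite K] (n : ℕ) (f : Fin n → R K (n + 1))
  (a : Fin n → ℕ), CI f a →
  ∃ (l : R K (n + 1)) (θ : R K (n + 1) →ₐ[K] R K n), l ∈ Rd K (n + 1) 1 ∧
    (∀ d, ∀ p ∈ Rd K (n + 1) d, θ p ∈ Rd K n d) ∧
    (∀ d, ∀ q ∈ Rd K n d, ∃ p ∈ Rd K (n + 1) d, θ p = q) ∧
    (∀ p, θ p = 0 ↔ ∃ q, p = l * q) ∧ (∀ p, l * p ∈ J f → p ∈ J f) ∧
    CI (fun i => θ (f i)) a ∧
    ∀ p, θ p ∈ J (fun i => θ (f i)) ↔ ∃ q, p - l * q ∈ J f

/-- The layers of `U ≤ R_e`: the image under `θ` of `{g ∈ R_{e-j} : l ^ j * g ∈ U}`. -/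
def lay {K : Type u} [Field K] {n : ℕ} (l : R K (n + 1)) (θ : R K (n + 1) →ₐ[K] R K n) (e : ℕ)
    (U : Submodule K (R K (n + 1))) (j : ℕ) : Submodule K (R K n) :=
  (Rd K (n + 1) (e - j) ⊓ U.comap (LinearMap.mulLeft K (l ^ j))).map θ.toLinearMap

/-- LAY. The layers. PROOF. `J f ∩ l^j`: `l^j g ∈ J f` iff `g ∈ J f`, so `J̄_{e-j} ≤ lay U j`
(`θ (J_{e-j} f) = J̄_{e-j}`: if `θ p ∈ J̄` then `p - l q ∈ J f`, take components), with equality
for `U = J_e f`. DIMENSION: for `U ≤ R_e` let `U' = {g ∈ R_{e-1} : l g ∈ U}` (`e ≥ 1`); the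
kernel of `θ` on `U` is `l U'` (if `θ p = 0`, `p = l q`, take `q` homogeneous), so
`dim U = dim θ U + dim U'`, and `lay e U (j+1) = lay (e-1) U' j`. Induction on `e`:
`dim U = ∑_{j ≤ e} dim (lay e U j)` (for `e = 0`: `θ` is injective on `R_0`). Use this for `U` and
for `J_e f`. The last two parts: if `l^j g ∈ W` then `l^j (m g) ∈ R_1 W` and
`l^{j+1} g ∈ R_1 W`. -/
def T_LAY : Prop := ∀ (K : Type u) [Field K] (n : ℕ) (f : Fin n → R K (n + 1)) (a : Fin n → ℕ),
  CI f a → ∀ (l : R K (n + 1)) (θ : R K (n + 1) →ₐ[K] R K n), l ∈ Rd K (n + 1) 1 →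
  (∀ d, ∀ p ∈ Rd K (n + 1) d, θ p ∈ Rd K n d) →
  (∀ d, ∀ q ∈ Rd K n d, ∃ p ∈ Rd K (n + 1) d, θ p = q) →
  (∀ p, θ p = 0 ↔ ∃ q, p = l * q) → (∀ p, l * p ∈ J f → p ∈ J f) →
  CI (fun i => θ (f i)) a → (∀ p, θ p ∈ J (fun i => θ (f i)) ↔ ∃ q, p - l * q ∈ J f) →
  ∀ (d : ℕ) (W : Submodule K (R K (n + 1))), Jd f d ≤ W → W ≤ Rd K (n + 1) d →
  (∀ j, j ≤ d → Jd (fun i => θ (f i)) (d - j) ≤ lay l θ d W j ∧
    lay l θ d W j ≤ Rd K n (d - j) ∧
    up (fun i => θ (f i)) (d - j) (lay l θ d W j) ≤ lay l θ (d + 1) (up f d W) j ∧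
    lay l θ d W j ≤ lay l θ (d + 1) (up f d W) (j + 1)) ∧
  Module.finrank K W + ∑ j ∈ Finset.range (d + 1), Module.finrank K (Jd (fun i => θ (f i)) (d - j))
    = Module.finrank K (Jd f d) + ∑ j ∈ Finset.range (d + 1), Module.finrank K (lay l θ d W j) ∧
  Module.finrank K (up f d W) +
      ∑ j ∈ Finset.range (d + 2), Module.finrank K (Jd (fun i => θ (f i)) (d + 1 - j)) =
    Module.finrank K (Jd f (d + 1)) +
      ∑ j ∈ Finset.range (d + 2), Module.finrank K (lay l θ (d + 1) (up f d W) j)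

/-- CMG. Growth for `n` forms in `n + 1` variables. PROOF. `l`, `θ` from T_GLF, T_LAY. For `j ≤ d`:
`W_j = lay l θ d W j`, `w_j = dim W_j - dim J̄_{d-j}`, `u_j = dim (up (W_j)) - dim J̄_{d-j+1}`; `EG`
gives an initial segment `M_j` of `Std a (d-j)` of size `w_j` with a shadow of at most `u_j`
elements. `F = {(y, j) : y ∈ M_j, j ≤ d} ⊆ Std (Fin.snoc a M) d` (last coordinate `j`, `d < M`; use
`Finsupp.equivFunOnFinite.symm (Fin.snoc y j)`, or `ins (Fin.last n) j y`). `#F = ∑ w_j =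
dim W - dim J_d`. The shadow of `F` is contained in the set of the `(z, j)`, `j ≤ d + 1`,
`z ∈ shadow M_j ∪ M_{j-1}` (`M_{d+1} = M_{-1} = ∅`); `shadow M_j` and `M_{j-1}` are initial
segments of `Std a (d+1-j)`, so nested, and the union has at most `max u_j w_{j-1} ≤
dim (lay (up W) j) - dim J̄_{d+1-j}` elements (T_LAY). Sum over `j`: at most
`dim (up f d W) - dim J_{d+1}`. T_CLT for `Fin.snoc a M` (monotone) and the initial segment of
size `#F`. -/
def T_CMG : Prop := ∀ (K : Type u) [Field K] [Infinite K] (n : ℕ) (a : Fin n → ℕ), Monotone a →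
  (∀ i, 2 ≤ a i) → EG K a → ∀ f : Fin n → R K (n + 1), CI f a → ∀ (d M : ℕ), d + 2 ≤ M →
  (∀ i, a i ≤ M) → ∀ W : Submodule K (R K (n + 1)), Jd f d ≤ W → W ≤ Rd K (n + 1) d →
  Sh (Fin.snoc (α := fun _ => ℕ) a M) d (Module.finrank K W - Module.finrank K (Jd f d))
    (Module.finrank K (up f d W) - Module.finrank K (Jd f (d + 1)))

/-- BIG. A large last degree. PROOF. `α = a (last)`, `s = S a (n+1) = S a n + α - 1 ≤ 2 α - 2`,
`f' = f ∘ castSucc`. (1) `d + 1 < α`: `J_d f = J_d f'`, `J_{d+1} f = J_{d+1} f'` (T_JD), so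
`up f d W = up f' d W`; T_CMG with `M = α` (`Fin.snoc (a ∘ castSucc) α = a`). (2) `s ≤ d`: T_VTW.
(3) `α ≤ d + 1 ≤ s`: `d' = s - 1 - d`, `d' + 1 ≤ 2 α - 2 - d < α`, so the linked space is good by
(1), T_DUA; T_VTW. -/
def T_BIG : Prop := ∀ (K : Type u) [Field K] [Infinite K] (n : ℕ) (a : Fin (n + 1) → ℕ),
  Monotone a → (∀ i, 2 ≤ a i) → S a n < a (Fin.last n) → EG K (a ∘ Fin.castSucc) → EG K a

/-! ## D. The theorem -/

/-- The known sequences. -/
def Known {n : ℕ} (a : Fin n → ℕ) : Prop :=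
  ∃ m, m ≤ n ∧ (m ≤ 3 ∨ S a m ≤ 6) ∧ ∀ (j : ℕ) (h : j < n), m ≤ j → S a j < a ⟨j, h⟩

/-- KNW. PROOF. Induction on `n`. `n = 0`: `S a 0 = 0 ≤ d`, T_VTW. Let `m` be as in `Known`. If
`m < n`, or `n ≤ 2` (then `S a (n-1) < a (last)` in any case: `S a 0 = 0`, `S a 1 = a 0 - 1`):
`Known (a ∘ castSucc)` (T_NUM) and T_BIG. If `m = n = 3`: T_NTH. If `m = n ≥ 4`: `S a n ≤ 6`, the
tail `a ∘ succ` has `S = S a n - (a 0 - 1) ≤ 6`, so it is `Known` (with `m = n - 1`), T_ASG. -/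
def T_KNW : Prop := ∀ (K : Type u) [Field K] [IsAlgClosed K] (n : ℕ) (a : Fin n → ℕ), Monotone a →
  (∀ i, 2 ≤ a i) → Known a → EG K a

/-- BCG. Base change. PROOF. As T_BCE (see `Pool/Agent/EGS/P_BCE.lean`). -/
def T_BCG : Prop := ∀ (K E : Type u) [Field K] [Field E] [Algebra K E] (n : ℕ) (a : Fin n → ℕ)
  (d N : ℕ), EA E a d N → EA K a d N

/-- IDG. From the growth inequality to ideals. PROOF. As T_IDL (see
`Pool/Agent/EGS/P_IDL.lean`) with `s = S a n` in place of `n`. -/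
def T_IDG : Prop := ∀ (K : Type u) [Field K] (n N : ℕ) (a : Fin n → ℕ), Monotone a →
  (∀ i, 2 ≤ a i) → (∀ d, EA K a d N) →
  ∀ f : Fin n → R K n, CI f a → ∀ I : Ideal (R K n), (∀ i, f i ∈ I) →
  Module.finrank K (Rd K n 2) ≤ Module.finrank K ↥(Rd K n 2 ⊓ I.restrictScalars K) + N →
  ∀ d, Sh a d (vI f I d) (vI f I (d + 1))

/-- IDH. From the growth inequality to ideals, second condition. PROOF. As T_IDM (see
`Pool/Agent/EGS/P_IDM.lean`) with `s = S a n` in place of `n`. -/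
def T_IDH : Prop := ∀ (K : Type u) [Field K] (n N : ℕ) (a : Fin n → ℕ), Monotone a →
  (∀ i, 2 ≤ a i) → 2 ≤ S a n → (∀ d, EA K a d N) →
  ∀ f : Fin n → R K n, CI f a → ∀ I : Ideal (R K n), (∀ i, f i ∈ I) →
  Module.finrank K ↥(Rd K n (S a n - 2) ⊓ I.restrictScalars K) ≤
    Module.finrank K (Jd f (S a n - 2)) + N →
  ∀ d, Sh a d (vI f I d) (vI f I (d + 1))

end

end Pool.Agent.EGT
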